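import Pool.Agent.Helper17.RZ.LocCat

/-!
# Project RZ (MP_77656e_ag): integral projective varieties and bounded complexes of vector bundles

An integral projective variety over `k` with function field `K` is given by the homogeneous coordinates
`a i ∈ K` of its generic point: it is the closure of this `K`-point of the projective space over `k`.
The affine open subset where the coordinates `a i`, `i ∈ σ`, do not vanish has the coordinate ring
`k[a j / a i : i ∈ σ, j arbitrary] ⊆ K`.

A vector bundle is given by its generic fibre `V`, a vector space over `K`, and its modules of sections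
over these affine open subsets, which are finitely generated projective lattices in `V`, compatible with
localisation.
-/

set_option autoImplicit false

namespace Pool.Agent.Helper17.RZ

universe u v

noncomputable section

/-- An integral projective variety over `k` with function field `K`, given by the homogeneous
coordinates of its generic point. -/
structure ProjVar (k : Type u) [Field k] (K : Type u) [Field K] [Algebra k K] where
  /-- the index set of the homogeneous coordinates -/
  I : Type
  [fin : Fintype I]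
  [ord : LinearOrder I]
  [ne : Nonempty I]
  /-- the homogeneous coordinates of the generic point -/
  a : I → K
  a_ne : ∀ i, a i ≠ 0
  /-- the field of rational functions is `K` -/
  gen : IntermediateField.adjoin k {x : K | ∃ i j, x = a i / a j} = ⊤

attribute [instance] ProjVar.fin ProjVar.ord ProjVar.ne

variable {k : Type u} [Field k] {K : Type u} [Field K] [Algebra k K]

/-- The coordinate ring of the affine open subset where all `a i`, `i ∈ σ`, do not vanish. -/
def ProjVar.A (Z : ProjVar k K) (σ : Finset Z.I) : Subalgebra k K :=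
  Algebra.adjoin k {x : K | ∃ i ∈ σ, ∃ j, x = Z.a j / Z.a i}

/-- A bounded complex of vector bundles on `Z`: a bounded graded vector space `V` over `K` with a
differential (the generic fibre) together with the sections `lat σ` over the affine open subsets. -/
structure Cplx (Z : ProjVar k K) extends GrD k K where
  /-- the sections over the open subset of `σ` -/
  lat : ∀ σ : Finset Z.I, Submodule (Z.A σ) V
  lat_fin : ∀ σ, σ.Nonempty → Module.Finite (Z.A σ) (lat σ)
  lat_proj : ∀ σ, σ.Nonempty → Module.Projective (Z.A σ) (lat σ)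
  /-- the sections generate the generic fibre -/
  lat_gen : ∀ σ, σ.Nonempty → ∀ v : V, ∃ c : Z.A σ, c ≠ 0 ∧ c • v ∈ lat σ
  /-- compatibility with localisation -/
  lat_loc : ∀ σ τ, σ.Nonempty → σ ⊆ τ → lat τ = Submodule.span (Z.A τ) (lat σ : Set V)
  lat_pr : ∀ σ i v, v ∈ lat σ → pr i v ∈ lat σ
  lat_d : ∀ σ v, v ∈ lat σ → d v ∈ lat σ

/-- Morphisms over the open subset of `σ`. -/
def Cplx.H {Z : ProjVar k K} (X Y : Cplx Z) (σ : Finset Z.I) : Submodule k (X.V →ₗ[K] Y.V) where
  carrier := {φ | ∀ v ∈ X.lat σ, φ v ∈ Y.lat σ}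
  add_mem' := fun ha hb v hv => (Y.lat σ).add_mem (ha v hv) (hb v hv)
  zero_mem' := fun _ _ => (Y.lat σ).zero_mem
  smul_mem' := fun c φ h v hv => by
    have h1 : (algebraMap k (Z.A σ) c) • φ v ∈ Y.lat σ := (Y.lat σ).smul_mem _ (h v hv)
    have h2 : (algebraMap k (Z.A σ) c) • φ v = c • φ v := by
      change (algebraMap k K c) • φ v = c • φ v
      rw [algebraMap_smul]
    rw [h2] at h1
    exact h1

/-- The local system of morphisms of bounded complexes of vector bundles. -/
def ProjVar.sys (Z : ProjVar k K) : LocSys.{u, u + 1} k K Z.I where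
  Obj := Cplx Z
  G X := X.toGrD
  H X Y σ := X.H Y σ
  mono X Y σ τ hσ hστ := by
    intro φ hφ v hv
    rw [X.lat_loc σ τ hσ hστ] at hv
    refine Submodule.span_induction (p := fun v _ => φ v ∈ Y.lat τ) ?_ ?_ ?_ ?_ hv
    · intro x hx
      rw [Y.lat_loc σ τ hσ hστ]
      exact Submodule.subset_span (hφ x hx)
    · rw [map_zero]; exact (Y.lat τ).zero_mem
    · intro x y _ _ hx hy; rw [map_add]; exact (Y.lat τ).add_mem hx hy
    · intro c x _ hx
      have : φ (c • x) = c • φ x := φ.map_smul (c : K) x
      rw [this]; exact (Y.lat τ).smul_mem c hx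
  comp_mem X Y W σ φ ψ hφ hψ := fun v hv => hφ _ (hψ v hv)
  id_mem X σ := fun v hv => hv
  pr_mem X σ i := fun v hv => X.lat_pr σ i v hv
  d_mem X σ := fun v hv => X.lat_d σ v hv

/-- The DG category of perfect complexes on `Z`: bounded complexes of vector bundles, with Cech
cochains of homomorphisms as morphisms. -/
def ProjVar.perf (Z : ProjVar k K) : DGCat.{u, u + 1, u} k := Z.sys.dg

/-- The shift `X[n]`. -/
def Cplx.shift {Z : ProjVar k K} (X : Cplx Z) (n : ℤ) : Cplx Z where
  V := X.V
  pr i := X.pr (i + n)
  bd := X.bd + n.natAbs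
  pr_pr i j := by
    rw [X.pr_pr]
    by_cases h : i = j
    · subst h; simp
    · rw [if_neg h, if_neg (fun h' => h (add_right_cancel h'))]
  pr_bd i hi' := by
    apply X.pr_bd
    push_cast at hi'
    have h1 : |i| ≤ |i + n| + |n| := by
      have := abs_add_le (i + n) (-n)
      rw [abs_neg] at this
      simpa using this
    omega
  pr_sum := by
    rw [← X.pr_sum]
    have h1 : ∑ i ∈ Finset.Icc (-((X.bd + n.natAbs : ℕ) : ℤ)) ((X.bd + n.natAbs : ℕ) : ℤ), X.pr (i + n) =
        ∑ i ∈ Finset.Icc (-((X.bd + n.natAbs : ℕ) : ℤ) + n) (((X.bd + n.natAbs : ℕ) : ℤ) + n), X.pr i := by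
      rw [← Finset.map_add_right_Icc, Finset.sum_map]
      rfl
    rw [h1]
    symm
    refine Finset.sum_subset ?_ ?_
    · intro i hi'
      rw [Finset.mem_Icc] at hi' ⊢
      push_cast
      have h1 := neg_abs_le n
      have h2 := le_abs_self n
      omega
    · intro i _ hi'
      rw [Finset.mem_Icc] at hi'
      apply X.pr_bd
      by_contra h
      rw [not_lt, abs_le] at h
      exact hi' h
  d := ((n.negOnePow : ℤˣ) : ℤ) • X.d
  d_pr i := by
    rw [LinearMap.smul_comp, X.d_pr, LinearMap.comp_smul, show i + n + 1 = i + 1 + n by ring]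
  d_d := by rw [LinearMap.smul_comp, LinearMap.comp_smul, X.d_d, smul_zero, smul_zero]
  lat := X.lat
  lat_fin := X.lat_fin
  lat_proj := X.lat_proj
  lat_gen := X.lat_gen
  lat_loc := X.lat_loc
  lat_pr σ i v hv := X.lat_pr σ (i + n) v hv
  lat_d σ v hv := by
    rw [LinearMap.smul_apply]
    exact zsmul_mem (X.lat_d σ v hv) _

/-- `0 → X → Y → W → 0` is an exact sequence of complexes of vector bundles (exact on sections over all
the affine open subsets). -/
def IsSES {Z : ProjVar k K} (X Y W : Cplx Z) : Prop :=
  ∃ (f : X.V →ₗ[K] Y.V) (g : Y.V →ₗ[K] W.V),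
    IsDeg (X := X.toGrD) (Y := Y.toGrD) 0 f ∧ IsDeg (X := Y.toGrD) (Y := W.toGrD) 0 g ∧
    f ∘ₗ X.d = Y.d ∘ₗ f ∧ g ∘ₗ Y.d = W.d ∘ₗ g ∧ Function.Injective f ∧ Function.Surjective g ∧
    (∀ y, g y = 0 ↔ ∃ x, f x = y) ∧
    ∀ σ : Finset Z.I, σ.Nonempty → (∀ x, f x ∈ Y.lat σ ↔ x ∈ X.lat σ) ∧
      (∀ w, w ∈ W.lat σ ↔ ∃ y ∈ Y.lat σ, g y = w)

/-- The thick subcategory of the homotopy category of `Z.perf` generated by `E`: it is closed under
shifts, retracts in the homotopy category (in particular isomorphisms) and two out of three in exact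
sequences of complexes. -/
inductive Thick {Z : ProjVar k K} (E : Cplx Z) : Cplx Z → Prop
  | base : Thick E E
  | shift (X : Cplx Z) (n : ℤ) : Thick E X → Thick E (X.shift n)
  | retract (X Y : Cplx Z) : Thick E X → Z.perf.Retract Y X → Thick E Y
  | ses₁ (X Y W : Cplx Z) : IsSES X Y W → Thick E Y → Thick E W → Thick E X
  | ses₂ (X Y W : Cplx Z) : IsSES X Y W → Thick E X → Thick E W → Thick E Y
  | ses₃ (X Y W : Cplx Z) : IsSES X Y W → Thick E X → Thick E Y → Thick E W

/-- `K` is a rational function field over `k`. -/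
def IsRationalField (k : Type u) [Field k] (K : Type u) [Field K] [Algebra k K] : Prop :=
  ∃ n : ℕ, Nonempty (K ≃ₐ[k] FractionRing (MvPolynomial (Fin n) k))

/-- The main statement: a nonrational integral projective variety whose DG category of perfect complexes
is that of a finite-dimensional DG algebra. -/
def Main : Prop :=
  ∀ (k : Type u) [Field k] [IsAlgClosed k], (2 : k) ≠ 0 →
    ∃ (K : Type u) (_ : Field K) (_ : Algebra k K) (Z : ProjVar k K) (E : Cplx Z) (R : DGA.{u, u} k),
      ¬ IsRationalField k K ∧ (∀ X : Cplx Z, Thick E X) ∧ R.Fin ∧ DGA.QEquiv (Z.perf.End E) R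

end

end Pool.Agent.Helper17.RZ
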