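import Pool.Agent.Helper17.RZ.Defs2
import Pool.Agent.Helper17.RZ.Var

/-!
# Project RZ (MP_77656e_ag): the group action, homogeneous functions, the coordinates of the example
-/

set_option autoImplicit false

open MvPolynomial

namespace Pool.Agent.Helper17.RZ

universe u v

noncomputable section

variable (k : Type u) [Field k]

theorem sb_X (e : Fin 4 → Bool × Bool) (s : Fin 4) (j : Bool) :
    sb k e (X (s, j)) = (if (e s).2 && (xor (e s).1 j) then (-1 : SS k) else 1) * X (s, xor (e s).1 j) := by
  simp [sb]

theorem sb_four (e : Fin 4 → Bool × Bool) :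
    (sb k e).comp ((sb k e).comp ((sb k e).comp (sb k e))) = AlgHom.id k (SS k) := by
  apply MvPolynomial.algHom_ext
  rintro ⟨s, j⟩
  rcases h : e s with ⟨a, b⟩
  cases a <;> cases b <;> cases j <;> simp [sb_X, h]

theorem sb_bijective (e : Fin 4 → Bool × Bool) : Function.Bijective (sb k e) := by
  have h := sb_four k e
  constructor
  · intro x y hxy
    have hx := congrArg (fun f => f x) h
    have hy := congrArg (fun f => f y) h
    simp only [AlgHom.comp_apply, AlgHom.id_apply] at hx hy
    rw [← hx, ← hy, hxy]
  · intro x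
    have hx := congrArg (fun f => f x) h
    simp only [AlgHom.comp_apply, AlgHom.id_apply] at hx
    exact ⟨_, hx⟩

/-- the substitution as an automorphism -/
def sbE (e : Fin 4 → Bool × Bool) : SS k ≃ₐ[k] SS k := AlgEquiv.ofBijective (sb k e) (sb_bijective k e)

/-- the automorphism of the field of fractions induced by the generator `a` of the group -/
def ga (a : Fin 4) : LL k ≃ₐ[k] LL k :=
  IsFractionRing.fieldEquivOfAlgEquiv k (LL k) (LL k) (sbE k (code a))

theorem ga_algebraMap (a : Fin 4) (P : SS k) :
    ga k a (algebraMap (SS k) (LL k) P) = algebraMap (SS k) (LL k) (sb k (code a) P) :=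
  IsFractionRing.fieldEquivOfAlgEquiv_algebraMap k (LL k) (LL k) (sbE k (code a)) P

/-- the multidegree of the variables: `x_s` and `y_s` have degree one in the coordinate `s` -/
def wt : Fin 4 × Bool → (Fin 4 → ℕ) := fun sj => Pi.single sj.1 1

/-- homogeneous elements of multidegree `d` of the field of fractions -/
def HD (d : Fin 4 → ℤ) : Submodule k (LL k) where
  carrier := {x | ∃ (g h : SS k) (e e' : Fin 4 → ℕ), h ≠ 0 ∧ IsWeightedHomogeneous wt g e ∧
    IsWeightedHomogeneous wt h e' ∧ (∀ s, (e s : ℤ) - e' s = d s) ∧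
    x = algebraMap (SS k) (LL k) g / algebraMap (SS k) (LL k) h}
  add_mem' := by
    rintro x y ⟨g, h, e, e', hh, hg1, hh1, hd, rfl⟩ ⟨g', h', f, f', hh', hg1', hh1', hd', rfl⟩
    refine ⟨g * h' + g' * h, h * h', e + f', e' + f', mul_ne_zero hh hh', ?_, hh1.mul hh1', ?_, ?_⟩
    · have hef : f + e' = e + f' := by
        funext s
        have h1 := hd s
        have h2 := hd' s
        simp only [Pi.add_apply]
        omega
      have h1 := hg1.mul hh1'
      have h2 := hg1'.mul hh1
      rw [hef] at h2
      exact (weightedHomogeneousSubmodule k wt (e + f')).add_mem h1 h2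
    · intro s
      have h1 := hd s
      simp only [Pi.add_apply]
      push_cast
      omega
    · have a1 : algebraMap (SS k) (LL k) h ≠ 0 := by
        simpa using (map_ne_zero_iff _ (IsFractionRing.injective (SS k) (LL k))).mpr hh
      have a2 : algebraMap (SS k) (LL k) h' ≠ 0 := by
        simpa using (map_ne_zero_iff _ (IsFractionRing.injective (SS k) (LL k))).mpr hh'
      simp only [map_add, map_mul]
      field_simp
  zero_mem' := by
    refine ⟨0, ∏ s, X (s, false) ^ (-d s).toNat, fun s => (d s).toNat, fun s => (-d s).toNat, ?_, ?_, ?_, ?_, ?_⟩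
    · exact Finset.prod_ne_zero_iff.mpr fun s _ => pow_ne_zero _ (X_ne_zero _)
    · exact isWeightedHomogeneous_zero k wt _
    · have : (fun s => (-d s).toNat) = ∑ s : Fin 4, (-d s).toNat • (wt (s, false) : Fin 4 → ℕ) := by
        funext s
        rw [Finset.sum_apply, Finset.sum_eq_single s]
        · simp [wt]
        · intro b _ hb; simp [wt, Pi.single_eq_of_ne (Ne.symm hb)]
        · intro h; exact absurd (Finset.mem_univ s) h
      rw [this]
      refine IsWeightedHomogeneous.prod _ _ _ fun s _ => ?_
      exact (isWeightedHomogeneous_X k wt (s, false)).pow _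
    · intro s; dsimp only; omega
    · simp
  smul_mem' := by
    rintro c x ⟨g, h, e, e', hh, hg1, hh1, hd, rfl⟩
    refine ⟨C c * g, h, e, e', hh, ?_, hh1, hd, ?_⟩
    · have := (isWeightedHomogeneous_C wt c).mul hg1
      rwa [zero_add] at this
    · rw [map_mul, mul_div_assoc, ← algebraMap_eq, ← IsScalarTower.algebraMap_apply k (SS k) (LL k),
        Algebra.smul_def]

/-- the functions with denominator a power of `h` -/
def Dn (h : SS k) : Subalgebra k (LL k) where
  carrier := {x | ∃ (N : ℕ) (g : SS k), x * algebraMap (SS k) (LL k) h ^ N = algebraMap (SS k) (LL k) g}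
  mul_mem' := by
    rintro x y ⟨N, g, hg⟩ ⟨M, g', hg'⟩
    refine ⟨N + M, g * g', ?_⟩
    rw [map_mul, ← hg, ← hg', pow_add]; ring
  add_mem' := by
    rintro x y ⟨N, g, hg⟩ ⟨M, g', hg'⟩
    refine ⟨N + M, g * h ^ M + g' * h ^ N, ?_⟩
    rw [map_add, map_mul, map_mul, ← hg, ← hg', map_pow, map_pow, pow_add]; ring
  algebraMap_mem' := by
    intro c
    refine ⟨0, C c, ?_⟩
    rw [pow_zero, mul_one, ← algebraMap_eq, ← IsScalarTower.algebraMap_apply k (SS k) (LL k)]

/-- the letters: forms of degree four in `x_s, y_s` -/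
def lt (s : Fin 4) (c : Fin 5) : SS k :=
  ![(X (s, false) ^ 2 + X (s, true) ^ 2) ^ 2, X (s, false) ^ 2 * X (s, true) ^ 2,
    (X (s, false) ^ 2 + X (s, true) ^ 2) * (X (s, false) * X (s, true)),
    (X (s, false) ^ 2 + X (s, true) ^ 2) * (X (s, false) ^ 2 - X (s, true) ^ 2),
    X (s, false) * X (s, true) * (X (s, false) ^ 2 - X (s, true) ^ 2)] c

/-- the sign with which a substitution acts on a letter -/
def lsg (e : Bool × Bool) (c : Fin 5) : ℤ :=
  match e with
  | (false, false) => 1
  | (true, true) => ![1, 1, -1, -1, 1] c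
  | (true, false) => ![1, 1, 1, -1, -1] c
  | (false, true) => ![1, 1, -1, 1, -1] c

/-- the word `w` (a letter for each factor) gives an invariant form -/
def Good (w : Fin 4 → Fin 5) : Prop := ∀ a : Fin 4, ∏ s, lsg (code a s) (w s) = 1

instance (w : Fin 4 → Fin 5) : Decidable (Good w) := by unfold Good; infer_instance

/-- the 43 good words: the index set of the homogeneous coordinates -/
def GW : Type := {w : Fin 4 → Fin 5 // Good w}

instance : Fintype GW := by unfold GW; infer_instance

instance : LinearOrder GW := LinearOrder.lift' (Fintype.equivFin GW) (Equiv.injective _)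

/-- the form of a word, of multidegree `(4,4,4,4)` -/
def fw (w : Fin 4 → Fin 5) : SS k := ∏ s, lt k s (w s)

/-- the denominator of the chart `σ` -/
def fs (σ : Finset GW) : SS k := ∏ w ∈ σ, fw k w.1

end

end Pool.Agent.Helper17.RZ
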