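import Pool.Agent.Helper17.RZ.St5
import Pool.Agent.Helper49.RZ.St

/-!
# Project RZ (MP_77656e_ag): assembly
-/

set_option autoImplicit false

namespace Pool.Agent.Helper17.RZ

open Pool.Agent.Helper49.RZ

universe u v

noncomputable section

/-- transitivity -/
theorem QEquiv_trans {k : Type u} [Field k] {A B C : DGA.{u, v} k} (h : DGA.QEquiv A B)
    (h' : DGA.QEquiv B C) : DGA.QEquiv A C := by
  induction h with
  | refl A => exact h'
  | left F hF _ ih => exact .left F hF (ih h')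
  | right F hF _ ih => exact .right F hF (ih h')

/-- the generator maps onto every bundle -/
theorem enough (hA : Amp.{u}) (hH : HypLine.{u}) (hK : Koszul.{u}) (hL : LinesThick.{u}) (k : Type u)
    [Field k] (h2 : (2 : k) ≠ 0) (hU : UU k) : Enough (EZ k hU) := by
  intro V hV
  obtain ⟨N₀, h0⟩ := hA k (K0 k) (ZZ k) V hV
  obtain ⟨R, π, hπ⟩ := h0 N₀ le_rfl
  refine ⟨(ZZ k).ON N₀ R, π, ?_, ?_, hπ⟩
  · change (if (0 : ℤ) = 0 then LinearMap.id else 0) = LinearMap.id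
    rw [if_pos rfl]
  · refine Thick.retract _ _ ?_ (hH k h2 hU N₀ R)
    exact hL k (K0 k) (ZZ k) (EZ k hU) (Fin R) _ _ _ fun e => hK k h2 hU (fun _ => -(N₀ : ℤ))

theorem fs_empty (k : Type u) [Field k] (σ : Finset GW) : fs k ∅ ∣ fs k σ :=
  fs_dvd (Finset.empty_subset σ)

/-- the DG algebra of the generator is quasi-isomorphic to the finite-dimensional one -/
theorem endEquiv (hE : EndIso.{u}) (hQ : HEqQ.{u}) (hG : LocGlob.{u, max 1 u}) (hGQ : GlobQ.{u, max 1 u})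
    (hX : QYEx.{u}) (k : Type u) [Field k] [IsAlgClosed k] (h2 : (2 : k) ≠ 0) (hU : UU k) :
    DGA.QEquiv ((ZZ k).perf.End (EZ k hU)) ((ysys k).glob (QY k)) := by
  refine QEquiv_trans (hE k h2 hU) (QEquiv_trans (hG k (LL k) GW (ysys k) _ _ _ (hQ k h2)) ?_)
  refine hGQ k (LL k) GW (ysys k) (QY k) ?_ (hX k h2)
  rintro σ φ ⟨h1, h2'⟩
  exact ⟨fun i j => ⟨(h1 i j).1, Dn_mono (fs_empty k σ) (h1 i j).2⟩, h2'⟩

/-- the criterion form -/
theorem main (hA : Amp.{u}) (hH : HypLine.{u}) (hK : Koszul.{u}) (hL : LinesThick.{u})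
    (hAll : GenAll.{u}) (hUA : UUAll.{u}) (hE : EndIso.{u}) (hQ : HEqQ.{u}) (hG : LocGlob.{u, max 1 u})
    (hGQ : GlobQ.{u, max 1 u}) (hX : QYEx.{u}) (hF : QYFin.{u}) (hN : NonRat.{u}) : Main.{u} := by
  intro k _ _ h2
  refine ⟨K0 k, inferInstance, inferInstance, ZZ k, EZ k (hUA k h2), (ysys k).glob (QY k), hN k h2, ?_,
    hF k, endEquiv hE hQ hG hGQ hX k h2 _⟩
  exact hAll k (K0 k) (ZZ k) _ (enough hA hH hK hL k h2 _)

/-- the literal form -/
theorem main2 (hM : Main.{u}) (hB : Bridge.{u}) (hP : PerfMain.{u, u + 1, u}) : Main2.{u} := by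
  intro k _ _ h2
  obtain ⟨K, i1, i2, Z, E, R, h3, h4, h5, h6⟩ := hM k h2
  refine ⟨K, i1, i2, Z, R, h3, h5, ?_⟩
  exact hP Z.perf E R (fun X => hB k K Z E X (h4 X)) h6

end

end Pool.Agent.Helper17.RZ
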