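import Pool.Agent.Helper17.RZ.Loc

/-!
# Project RZ (MP_77656e_ag): calculus of Cech cochains
-/

set_option autoImplicit false
set_option linter.unusedSimpArgs false

namespace Pool.Agent.Helper17.RZ

universe u v

variable {I : Type} [LinearOrder I]

theorem sg_mul_self (σ : Finset I) (i : I) : sg σ i * sg σ i = 1 := by
  unfold sg; rw [← mul_pow]; simp

/-- the sum over cuts telescopes -/
theorem cut_sum {M : Type u} [AddCommGroup M] (f : Finset I → Finset I → M) (σ : Finset I) :
    ∑ i ∈ σ, sg σ i • (f ((lo σ i).erase i) (hi σ i) + f (lo σ i) ((hi σ i).erase i)) =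
      f ∅ σ - (-1 : ℤ) ^ σ.card • f σ ∅ := by
  induction σ using Finset.induction_on_max generalizing f with
  | empty => simp
  | insert m τ hm ih =>
    have hmτ : m ∉ τ := fun h => lt_irrefl m (hm m h)
    rw [Finset.sum_insert hmτ]
    have e1 : ∀ i ∈ τ, lo (insert m τ) i = lo τ i := by
      intro i hi'; unfold lo; rw [Finset.filter_insert, if_neg (not_le.mpr (hm i hi'))]
    have e2 : ∀ i ∈ τ, hi (insert m τ) i = insert m (hi τ i) := by
      intro i hi'; unfold hi; rw [Finset.filter_insert, if_pos (hm i hi').le]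
    have e3 : ∀ i ∈ τ, sg (insert m τ) i = sg τ i := by
      intro i hi'; unfold sg; rw [Finset.filter_insert, if_neg (not_lt.mpr (hm i hi').le)]
    have e4 : lo (insert m τ) m = insert m τ := by
      unfold lo; rw [Finset.filter_insert, if_pos le_rfl, Finset.filter_true_of_mem]
      exact fun x hx => (hm x hx).le
    have e5 : hi (insert m τ) m = {m} := by
      unfold hi; rw [Finset.filter_insert, if_pos le_rfl, Finset.filter_false_of_mem]
      · simp
      · exact fun x hx => not_le.mpr (hm x hx)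
    have e6 : sg (insert m τ) m = (-1) ^ τ.card := by
      unfold sg; rw [Finset.filter_insert, if_neg (lt_irrefl m), Finset.filter_true_of_mem]
      exact fun x hx => hm x hx
    have e7 : ∀ i ∈ τ, (insert m (hi τ i)).erase i = insert m ((hi τ i).erase i) := by
      intro i hi'
      rw [Finset.erase_insert_of_ne]
      exact (hm i hi').ne'
    rw [e4, e5, e6, Finset.erase_insert hmτ, Finset.erase_singleton]
    have ih' := ih (fun a b => f a (insert m b))
    have : ∑ i ∈ τ, sg (insert m τ) i • (f ((lo (insert m τ) i).erase i) (hi (insert m τ) i) +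
        f (lo (insert m τ) i) ((hi (insert m τ) i).erase i)) =
        ∑ i ∈ τ, sg τ i • (f ((lo τ i).erase i) (insert m (hi τ i)) +
        f (lo τ i) (insert m ((hi τ i).erase i))) := by
      refine Finset.sum_congr rfl fun i hi' => ?_
      rw [e1 i hi', e2 i hi', e3 i hi', e7 i hi']
    rw [this, ih', Finset.card_insert_of_notMem hmτ]
    simp only [smul_add, pow_succ, insert_empty_eq]
    rw [mul_neg_one, neg_smul]
    abel

theorem cdel_cdel {M : Type u} [AddCommGroup M] (c : Finset I → M) (σ : Finset I) :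
    cdel (cdel c) σ = 0 := by
  unfold cdel
  simp only [Finset.smul_sum]
  rw [Finset.sum_sigma']
  refine Finset.sum_involution (fun p _ => ⟨p.2, p.1⟩) ?_ ?_ ?_ ?_
  · rintro ⟨i, j⟩ h
    simp only [Finset.mem_sigma, Finset.mem_erase] at h
    obtain ⟨hi', hji, hj⟩ := h
    simp only
    rw [Finset.erase_right_comm, smul_smul, smul_smul, ← add_smul]
    have key : ∀ a b : I, a ∈ σ → b ∈ σ → a < b →
        sg σ a * sg (σ.erase a) b = - (sg σ b * sg (σ.erase b) a) := by
      intro a b ha hb hab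
      have h1 : sg (σ.erase a) b = - sg σ b := by
        unfold sg
        have : (Finset.filter (fun j => j < b) (σ.erase a)) = (Finset.filter (fun j => j < b) σ).erase a := by
          rw [Finset.filter_erase]
        rw [this]
        have hmem : a ∈ Finset.filter (fun j => j < b) σ := by simp [ha, hab]
        have hc := Finset.card_erase_add_one hmem
        rw [← hc, pow_succ]; ring
      have h2 : sg (σ.erase b) a = sg σ a := by
        unfold sg
        have : (Finset.filter (fun j => j < a) (σ.erase b)) = (Finset.filter (fun j => j < a) σ) := by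
          rw [Finset.filter_erase, Finset.erase_eq_of_notMem]
          simp [hab.le]
        rw [this]
      rw [h1, h2]; ring
    rcases lt_or_gt_of_ne (Ne.symm hji) with h | h
    · rw [key i j hi' hj h]; simp
    · rw [key j i hj hi' h]; simp
  · rintro ⟨i, j⟩ h _ heq
    simp only [Finset.mem_sigma, Finset.mem_erase] at h
    simp only [Sigma.mk.injEq] at heq
    exact h.2.1 heq.1
  · rintro ⟨i, j⟩ h
    simp only [Finset.mem_sigma, Finset.mem_erase] at h ⊢
    exact ⟨h.2.2, Ne.symm h.2.1, h.1⟩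
  · rintro ⟨i, j⟩ h
    rfl

variable {L : Type u} [Field L] {U V W X : Type u} [AddCommGroup U] [AddCommGroup V] [AddCommGroup W]
    [AddCommGroup X] [Module L U] [Module L V] [Module L W] [Module L X]

theorem lsum_comp {ι : Type*} (s : Finset ι) (f : ι → (V →ₗ[L] W)) (g : U →ₗ[L] V) :
    (∑ i ∈ s, f i) ∘ₗ g = ∑ i ∈ s, f i ∘ₗ g := by
  ext x; simp [LinearMap.sum_apply]

theorem lcomp_sum {ι : Type*} (s : Finset ι) (f : ι → (U →ₗ[L] V)) (g : V →ₗ[L] W) :
    g ∘ₗ (∑ i ∈ s, f i) = ∑ i ∈ s, g ∘ₗ f i := by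
  ext x; simp [LinearMap.sum_apply]

theorem ccup_assoc (c : Finset I → (W →ₗ[L] X)) (c' : Finset I → (V →ₗ[L] W))
    (c'' : Finset I → (U →ₗ[L] V)) (σ : Finset I) :
    ccup (ccup c c') c'' σ = ccup c (ccup c' c'') σ := by
  unfold ccup
  have h1 : ∀ j ∈ σ, (∑ i ∈ lo σ j, (c (lo (lo σ j) i)) ∘ₗ (c' (hi (lo σ j) i))) ∘ₗ c'' (hi σ j) =
      ∑ i ∈ σ, if i ≤ j then (c (lo σ i)) ∘ₗ (c' (hi (lo σ j) i)) ∘ₗ c'' (hi σ j) else 0 := by
    intro j _
    rw [lsum_comp, ← Finset.sum_filter]
    refine Finset.sum_congr rfl fun i hi' => ?_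
    simp only [lo, Finset.mem_filter] at hi'
    rw [lo_lo σ i j hi'.2, LinearMap.comp_assoc]
  have h2 : ∀ i ∈ σ, c (lo σ i) ∘ₗ (∑ j ∈ hi σ i, (c' (lo (hi σ i) j)) ∘ₗ (c'' (hi (hi σ i) j))) =
      ∑ j ∈ σ, if i ≤ j then (c (lo σ i)) ∘ₗ (c' (hi (lo σ j) i)) ∘ₗ c'' (hi σ j) else 0 := by
    intro i _
    rw [lcomp_sum, ← Finset.sum_filter]
    refine Finset.sum_congr rfl fun j hj' => ?_
    simp only [hi, Finset.mem_filter] at hj'
    rw [hi_hi σ i j hj'.2, lo_hi]
  rw [Finset.sum_congr rfl h1, Finset.sum_congr rfl h2, Finset.sum_comm]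

/-- the Leibniz rule for the Cech differential -/
theorem cdel_ccup (c : Finset I → (V →ₗ[L] W)) (c' : Finset I → (U →ₗ[L] V)) (hc : c ∅ = 0)
    (hc' : c' ∅ = 0) (σ : Finset I) :
    cdel (ccup c c') σ = ccup (cdel c) c' σ +
      ccup (fun τ => (-1 : ℤ) ^ (τ.card - 1) • c τ) (cdel c') σ := by
  have hcut := cut_sum (fun a b => (c a) ∘ₗ (c' b)) σ
  simp only [hc, hc', LinearMap.zero_comp, LinearMap.comp_zero, smul_zero, sub_zero] at hcut
  -- left side
  have hL : cdel (ccup c c') σ = ∑ i ∈ σ, ∑ l ∈ σ.erase i,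
      sg σ l • ((c (lo (σ.erase l) i)) ∘ₗ (c' (hi (σ.erase l) i))) := by
    unfold cdel ccup
    simp only [Finset.smul_sum]
    rw [Finset.sum_sigma', Finset.sum_sigma']
    refine Finset.sum_bij' (fun p _ => ⟨p.2, p.1⟩) (fun p _ => ⟨p.2, p.1⟩) ?_ ?_ ?_ ?_ ?_
    · rintro ⟨i, j⟩ h
      simp only [Finset.mem_sigma, Finset.mem_erase] at h ⊢
      exact ⟨h.2.2, Ne.symm h.2.1, h.1⟩
    · rintro ⟨i, j⟩ h
      simp only [Finset.mem_sigma, Finset.mem_erase] at h ⊢
      exact ⟨h.2.2, Ne.symm h.2.1, h.1⟩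
    · rintro ⟨i, j⟩ _; rfl
    · rintro ⟨i, j⟩ _; rfl
    · rintro ⟨i, j⟩ _; rfl
  have hterm : ∀ i ∈ σ, (∑ l ∈ lo σ i, sg (lo σ i) l • c ((lo σ i).erase l)) ∘ₗ c' (hi σ i) +
      ((-1 : ℤ) ^ ((lo σ i).card - 1) • c (lo σ i)) ∘ₗ (∑ l ∈ hi σ i, sg (hi σ i) l • c' ((hi σ i).erase l)) =
      (∑ l ∈ σ.erase i, sg σ l • ((c (lo (σ.erase l) i)) ∘ₗ (c' (hi (σ.erase l) i)))) +
      sg σ i • ((c ((lo σ i).erase i)) ∘ₗ (c' (hi σ i)) + (c (lo σ i)) ∘ₗ (c' ((hi σ i).erase i))) := by
    intro i hi'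
    have hsplit : σ.erase i = (lo σ i).erase i ∪ (hi σ i).erase i := by
      ext x
      simp only [lo, hi, Finset.mem_erase, Finset.mem_union, Finset.mem_filter]
      constructor
      · rintro ⟨h1, h2⟩
        rcases le_total x i with h | h
        · exact Or.inl ⟨h1, h2, h⟩
        · exact Or.inr ⟨h1, h2, h⟩
      · rintro (⟨h1, h2, _⟩ | ⟨h1, h2, _⟩) <;> exact ⟨h1, h2⟩
    have hdisj : Disjoint ((lo σ i).erase i) ((hi σ i).erase i) := by
      rw [Finset.disjoint_left]
      intro x h1 h2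
      simp only [lo, hi, Finset.mem_erase, Finset.mem_filter] at h1 h2
      exact h1.1 (le_antisymm h1.2.2 h2.2.2)
    rw [hsplit, Finset.sum_union hdisj]
    have hA : ∀ l ∈ (lo σ i).erase i, sg σ l • ((c (lo (σ.erase l) i)) ∘ₗ (c' (hi (σ.erase l) i))) =
        (sg (lo σ i) l • c ((lo σ i).erase l)) ∘ₗ c' (hi σ i) := by
      intro l hl
      simp only [lo, Finset.mem_erase, Finset.mem_filter] at hl
      have hlt : l < i := lt_of_le_of_ne hl.2.2 hl.1
      have e1 : lo (σ.erase l) i = (lo σ i).erase l := by unfold lo; rw [Finset.filter_erase]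
      have e2 : hi (σ.erase l) i = hi σ i := by
        unfold hi; rw [Finset.filter_erase, Finset.erase_eq_of_notMem]; simp [hlt]
      have e3 : sg σ l = sg (lo σ i) l := by
        unfold sg lo
        rw [Finset.filter_filter]
        congr 2
        ext x
        simp only [Finset.mem_filter]
        constructor
        · rintro ⟨h1, h2⟩; exact ⟨h1, (h2.trans hlt).le, h2⟩
        · rintro ⟨h1, _, h2⟩; exact ⟨h1, h2⟩
      rw [e1, e2, e3, LinearMap.smul_comp]
    have hB : ∀ l ∈ (hi σ i).erase i, sg σ l • ((c (lo (σ.erase l) i)) ∘ₗ (c' (hi (σ.erase l) i))) =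
        ((-1 : ℤ) ^ ((lo σ i).card - 1) • c (lo σ i)) ∘ₗ (sg (hi σ i) l • c' ((hi σ i).erase l)) := by
      intro l hl
      simp only [hi, Finset.mem_erase, Finset.mem_filter] at hl
      have hlt : i < l := lt_of_le_of_ne hl.2.2 (Ne.symm hl.1)
      have e1 : lo (σ.erase l) i = lo σ i := by
        unfold lo; rw [Finset.filter_erase, Finset.erase_eq_of_notMem]; simp [hlt]
      have e2 : hi (σ.erase l) i = (hi σ i).erase l := by unfold hi; rw [Finset.filter_erase]
      have e3 : sg σ l = (-1) ^ ((lo σ i).card - 1) * sg (hi σ i) l := by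
        unfold sg
        rw [← pow_add]
        congr 1
        have h1 : Finset.filter (fun j => j < l) σ =
            (lo σ i).erase i ∪ Finset.filter (fun j => j < l) (hi σ i) := by
          ext x
          simp only [lo, hi, Finset.mem_filter, Finset.mem_union, Finset.mem_erase]
          constructor
          · rintro ⟨h1, h2⟩
            rcases lt_or_ge x i with h | h
            · exact Or.inl ⟨h.ne, h1, h.le⟩
            · exact Or.inr ⟨⟨h1, h⟩, h2⟩
          · rintro (⟨_, h1, h2⟩ | ⟨⟨h1, _⟩, h2⟩)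
            · exact ⟨h1, h2.trans_lt hlt⟩
            · exact ⟨h1, h2⟩
        rw [h1, Finset.card_union_of_disjoint, Finset.card_erase_of_mem (mem_lo σ i hi')]
        rw [Finset.disjoint_left]
        intro x h1 h2
        simp only [lo, hi, Finset.mem_erase, Finset.mem_filter] at h1 h2
        exact h1.1 (le_antisymm h1.2.2 h2.1.2)
      rw [e1, e2, e3, LinearMap.smul_comp, LinearMap.comp_smul, smul_smul]
    rw [Finset.sum_congr rfl hA, Finset.sum_congr rfl hB, lsum_comp, lcomp_sum]
    rw [← Finset.add_sum_erase (lo σ i) _ (mem_lo σ i hi'), ← Finset.add_sum_erase (hi σ i) _ (mem_hi σ i hi')]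
    have f1 : sg (lo σ i) i = sg σ i := by
      unfold sg lo
      rw [Finset.filter_filter]
      congr 2
      ext x
      simp only [Finset.mem_filter]
      constructor
      · rintro ⟨h1, h2, h3⟩; exact ⟨h1, h3⟩
      · rintro ⟨h1, h2⟩; exact ⟨h1, h2.le, h2⟩
    have f2 : sg (hi σ i) i = 1 := by
      unfold sg hi
      rw [Finset.filter_filter, Finset.filter_false_of_mem]
      · simp
      · intro x _ h; exact absurd h.2 (not_lt.mpr h.1)
    have f3 : (-1 : ℤ) ^ ((lo σ i).card - 1) = sg σ i := by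
      unfold sg
      congr 1
      rw [← Finset.card_erase_of_mem (mem_lo σ i hi')]
      congr 1
      ext x
      simp only [lo, Finset.mem_erase, Finset.mem_filter]
      constructor
      · rintro ⟨h1, h2, h3⟩; exact ⟨h2, lt_of_le_of_ne h3 h1⟩
      · rintro ⟨h1, h2⟩; exact ⟨h2.ne, h1, h2.le⟩
    rw [f1, f2, f3, one_smul, LinearMap.smul_comp, LinearMap.smul_comp, smul_add]
    abel
  have hR : ccup (cdel c) c' σ + ccup (fun τ => (-1 : ℤ) ^ (τ.card - 1) • c τ) (cdel c') σ =
      ∑ i ∈ σ, ((∑ l ∈ σ.erase i, sg σ l • ((c (lo (σ.erase l) i)) ∘ₗ (c' (hi (σ.erase l) i)))) +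
      sg σ i • ((c ((lo σ i).erase i)) ∘ₗ (c' (hi σ i)) + (c (lo σ i)) ∘ₗ (c' ((hi σ i).erase i)))) := by
    unfold ccup cdel
    rw [← Finset.sum_add_distrib]
    exact Finset.sum_congr rfl hterm
  rw [hR, Finset.sum_add_distrib, hcut, add_zero, hL]

end Pool.Agent.Helper17.RZ
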