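import Mathlib

/-!
# Project RZ (MP_77656e_ag), definitions for the nonrationality half

Integer valued valuations (possibly trivial), ternary forms, ramified forms.
-/

set_option autoImplicit false

namespace Pool.Agent.Helper17.RZ

universe u

/-- An integer valued valuation on a field, given by its values on nonzero elements
(the value at zero is irrelevant).  The trivial valuation is allowed. -/
structure ZVal (F : Type u) [Field F] where
  v : F → ℤ
  mul' : ∀ x y : F, x ≠ 0 → y ≠ 0 → v (x * y) = v x + v y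
  add' : ∀ x y : F, x ≠ 0 → y ≠ 0 → x + y ≠ 0 → min (v x) (v y) ≤ v (x + y)

/-- the valuation of `x` is at least `n` (true for `x = 0`) -/
def ZVal.Ge {F : Type u} [Field F] (V : ZVal F) (n : ℤ) (x : F) : Prop := x = 0 ∨ n ≤ V.v x

/-- the diagonal ternary form `a x0^2 + b x1^2 + c x2^2` -/
def dg {F : Type u} [Field F] (a b c : F) (x : Fin 3 → F) : F :=
  a * x 0 ^ 2 + b * x 1 ^ 2 + c * x 2 ^ 2

/-- `q` is ramified at `V`: the values of `q` at `x` are at most `2 v(x_i) + C` (in particular `q` is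
anisotropic, also over the completion), and `q` takes values of both parities. -/
def Ram {F : Type u} [Field F] (V : ZVal F) (q : (Fin 3 → F) → F) : Prop :=
  (∃ C : ℤ, ∀ (x : Fin 3 → F) (i : Fin 3), x i ≠ 0 → q x ≠ 0 ∧ V.v (q x) ≤ 2 * V.v (x i) + C) ∧
  (∃ x y : Fin 3 → F, q x ≠ 0 ∧ q y ≠ 0 ∧ ¬ (2 : ℤ) ∣ V.v (q x) - V.v (q y))

/-- every diagonal ternary form which is ramified nowhere is isotropic -/
def PP (F : Type u) [Field F] : Prop :=
  ∀ a b c : F, a ≠ 0 → b ≠ 0 → c ≠ 0 → (∀ V : ZVal F, ¬ Ram V (dg a b c)) →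
    ∃ x : Fin 3 → F, x ≠ 0 ∧ dg a b c x = 0

end Pool.Agent.Helper17.RZ
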