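import Mathlib

/-!
# Project RZ (MP_77656e_ag), the group acting on eight variables
-/

set_option autoImplicit false

open MvPolynomial

namespace Pool.Agent.Helper17.RZ

universe u

/-- the polynomial ring in `x_s = X (s, false)`, `y_s = X (s, true)`, `s : Fin 4` -/
abbrev SS (k : Type u) [Field k] := MvPolynomial (Fin 4 × Bool) k

/-- its field of fractions -/
abbrev LL (k : Type u) [Field k] := FractionRing (SS k)

/-- the substitution with code `e`: on the pair `s`, with `e s = (a, b)`, the variables are swapped if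
`a` is true, and then `y` gets the sign `-1` if `b` is true.  So `(true, true)` is
`x ↦ -y, y ↦ x`, `(true, false)` is `x ↦ y, y ↦ x` and `(false, true)` is `x ↦ x, y ↦ -y`. -/
noncomputable def sb (k : Type u) [Field k] (e : Fin 4 → Bool × Bool) : SS k →ₐ[k] SS k :=
  aeval (fun sj : Fin 4 × Bool =>
    (if (e sj.1).2 && (xor (e sj.1).1 sj.2) then (-1 : SS k) else 1) * X (sj.1, xor (e sj.1).1 sj.2))

/-- codes of the four generators of the group: `z ↦ -1/z` on factors 0, 2, 3; `z ↦ 1/z` on factors
0, 2, 3; `z ↦ -1/z` on factors 1, 2 and `z ↦ 1/z` on factor 3; `z ↦ 1/z` on factors 1, 2 and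
`z ↦ -z` on factor 3 (with `z = x / y`). -/
def code : Fin 4 → Fin 4 → Bool × Bool :=
  ![![(true, true), (false, false), (true, true), (true, true)],
    ![(true, false), (false, false), (true, false), (true, false)],
    ![(false, false), (true, true), (true, true), (true, false)],
    ![(false, false), (true, false), (true, false), (false, true)]]

/-- `x_s` and `y_s` in the field of fractions -/
noncomputable def xx (k : Type u) [Field k] (s : Fin 4) : LL k := algebraMap (SS k) (LL k) (X (s, false))
noncomputable def yy (k : Type u) [Field k] (s : Fin 4) : LL k := algebraMap (SS k) (LL k) (X (s, true))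

/-- `t_s = (z_s + 1/z_s)/2` and `m_s = (z_s - 1/z_s)/2`, `z_s = x_s / y_s` -/
noncomputable def tt (k : Type u) [Field k] (s : Fin 4) : LL k :=
  (xx k s ^ 2 + yy k s ^ 2) / (2 * xx k s * yy k s)
noncomputable def mm (k : Type u) [Field k] (s : Fin 4) : LL k :=
  (xx k s ^ 2 - yy k s ^ 2) / (2 * xx k s * yy k s)

/-- A10: the conic has no point over the fixed field -/
def NoConic : Prop :=
  ∀ (k : Type u) [Field k] (_ : (2 : k) ≠ 0) (γ : Fin 4 → LL k →+* LL k),
    (∀ i P, γ i (algebraMap (SS k) (LL k) P) = algebraMap (SS k) (LL k) (sb k (code i) P)) →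
    ∀ X Y W : LL k, (∀ i, γ i X = X) → (∀ i, γ i Y = Y) → (∀ i, γ i W = W) →
      X ^ 2 = tt k 0 ^ 2 * Y ^ 2 + tt k 1 ^ 2 * W ^ 2 → X = 0 ∧ Y = 0 ∧ W = 0

end Pool.Agent.Helper17.RZ
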