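import Mathlib

/-!
# Project RZ (MP_77656e_ag): DG categories and DG algebras

A DG category is given by modules `Hom X Y n`, `n : ℤ`, the composition of morphisms of degrees `n`
and `m` (first argument after second argument) and the differential.  To avoid casts the degrees of
the results are variables together with a proof of the equation of degrees.
-/

set_option autoImplicit false

namespace Pool.Agent.Helper17.RZ

universe u v w

/-- A DG category over the field `k`. -/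
structure DGCat (k : Type u) [Field k] where
  Obj : Type v
  Hom : Obj → Obj → ℤ → Type w
  [acg : ∀ X Y n, AddCommGroup (Hom X Y n)]
  [mod : ∀ X Y n, Module k (Hom X Y n)]
  /-- the identity of `X` -/
  one : ∀ X : Obj, Hom X X 0
  /-- composition -/
  comp : ∀ {X Y Z : Obj} {n m l : ℤ}, n + m = l → Hom Y Z n →ₗ[k] Hom X Y m →ₗ[k] Hom X Z l
  /-- the differential -/
  d : ∀ {X Y : Obj} {n m : ℤ}, n + 1 = m → Hom X Y n →ₗ[k] Hom X Y m
  one_comp : ∀ {X Y : Obj} {n : ℤ} (h : 0 + n = n) (f : Hom X Y n), comp h (one Y) f = f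
  comp_one : ∀ {X Y : Obj} {n : ℤ} (h : n + 0 = n) (f : Hom X Y n), comp h f (one X) = f
  assoc : ∀ {W X Y Z : Obj} {a b c ab bc l : ℤ} (h₁ : a + b = ab) (h₂ : ab + c = l) (h₃ : b + c = bc)
    (h₄ : a + bc = l) (f : Hom Y Z a) (g : Hom X Y b) (h : Hom W X c),
    comp h₂ (comp h₁ f g) h = comp h₄ f (comp h₃ g h)
  d_d : ∀ {X Y : Obj} {n m l : ℤ} (h₁ : n + 1 = m) (h₂ : m + 1 = l) (f : Hom X Y n),
    d h₂ (d h₁ f) = 0
  d_comp : ∀ {X Y Z : Obj} {n m l n' m' l' : ℤ} (h : n + m = l) (hl : l + 1 = l') (hn : n + 1 = n')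
    (hm : m + 1 = m') (h₁ : n' + m = l') (h₂ : n + m' = l') (f : Hom Y Z n) (g : Hom X Y m),
    d hl (comp h f g) = comp h₁ (d hn f) g + n.negOnePow • comp h₂ f (d hm g)

attribute [instance] DGCat.acg DGCat.mod

/-- A DG algebra over the field `k`. -/
structure DGA (k : Type u) [Field k] where
  R : ℤ → Type w
  [acg : ∀ n, AddCommGroup (R n)]
  [mod : ∀ n, Module k (R n)]
  one : R 0
  mul : ∀ {n m l : ℤ}, n + m = l → R n →ₗ[k] R m →ₗ[k] R l
  d : ∀ {n m : ℤ}, n + 1 = m → R n →ₗ[k] R m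
  one_mul : ∀ {n : ℤ} (h : 0 + n = n) (f : R n), mul h one f = f
  mul_one : ∀ {n : ℤ} (h : n + 0 = n) (f : R n), mul h f one = f
  assoc : ∀ {a b c ab bc l : ℤ} (h₁ : a + b = ab) (h₂ : ab + c = l) (h₃ : b + c = bc)
    (h₄ : a + bc = l) (f : R a) (g : R b) (h : R c), mul h₂ (mul h₁ f g) h = mul h₄ f (mul h₃ g h)
  d_d : ∀ {n m l : ℤ} (h₁ : n + 1 = m) (h₂ : m + 1 = l) (f : R n), d h₂ (d h₁ f) = 0
  d_mul : ∀ {n m l n' m' l' : ℤ} (h : n + m = l) (hl : l + 1 = l') (hn : n + 1 = n')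
    (hm : m + 1 = m') (h₁ : n' + m = l') (h₂ : n + m' = l') (f : R n) (g : R m),
    d hl (mul h f g) = mul h₁ (d hn f) g + n.negOnePow • mul h₂ f (d hm g)

attribute [instance] DGA.acg DGA.mod

/-- `R` is finite-dimensional: the direct sum of all `R n` has finite dimension. -/
def DGA.Fin {k : Type u} [Field k] (A : DGA.{u, w} k) : Prop :=
  (∀ n, Module.Finite k (A.R n)) ∧ ∃ B : ℕ, ∀ n : ℤ, (B : ℤ) < |n| → Subsingleton (A.R n)

/-- The DG algebra of endomorphisms of an object of a DG category. -/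
def DGCat.End {k : Type u} [Field k] (C : DGCat.{u, v, w} k) (X : C.Obj) : DGA.{u, w} k where
  R n := C.Hom X X n
  one := C.one X
  mul h := C.comp h
  d h := C.d h
  one_mul h f := C.one_comp h f
  mul_one h f := C.comp_one h f
  assoc h₁ h₂ h₃ h₄ f g h := C.assoc h₁ h₂ h₃ h₄ f g h
  d_d h₁ h₂ f := C.d_d h₁ h₂ f
  d_mul h hl hn hm h₁ h₂ f g := C.d_comp h hl hn hm h₁ h₂ f g

/-- A morphism of DG algebras. -/
structure DGA.Mor {k : Type u} [Field k] (A B : DGA.{u, w} k) where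
  f : ∀ n, A.R n →ₗ[k] B.R n
  f_one : f 0 A.one = B.one
  f_mul : ∀ {n m l : ℤ} (h : n + m = l) (x : A.R n) (y : A.R m), f l (A.mul h x y) = B.mul h (f n x) (f m y)
  f_d : ∀ {n m : ℤ} (h : n + 1 = m) (x : A.R n), f m (A.d h x) = B.d h (f n x)

/-- A morphism of DG algebras is a quasi-isomorphism: it is injective and surjective on cohomology. -/
def DGA.Mor.QIso {k : Type u} [Field k] {A B : DGA.{u, w} k} (F : DGA.Mor A B) : Prop :=
  (∀ (l n m : ℤ) (h₁ : l + 1 = n) (h₂ : n + 1 = m) (x : A.R n) (y : B.R l), A.d h₂ x = 0 →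
      F.f n x = B.d h₁ y → ∃ z : A.R l, x = A.d h₁ z) ∧
  (∀ (l n m : ℤ) (h₁ : l + 1 = n) (h₂ : n + 1 = m) (y : B.R n), B.d h₂ y = 0 →
      ∃ (x : A.R n) (z : B.R l), A.d h₂ x = 0 ∧ y = F.f n x + B.d h₁ z)

/-- Two DG algebras are quasi-isomorphic: they are joined by a chain of quasi-isomorphisms. -/
inductive DGA.QEquiv {k : Type u} [Field k] : DGA.{u, w} k → DGA.{u, w} k → Prop
  | refl (A : DGA.{u, w} k) : DGA.QEquiv A A
  | left {A B C : DGA.{u, w} k} (F : DGA.Mor B A) (hF : F.QIso) (h : DGA.QEquiv B C) : DGA.QEquiv A C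
  | right {A B C : DGA.{u, w} k} (F : DGA.Mor A B) (hF : F.QIso) (h : DGA.QEquiv B C) : DGA.QEquiv A C

/-- `Y` is a retract of `X` in the homotopy category of the DG category. -/
def DGCat.Retract {k : Type u} [Field k] (C : DGCat.{u, v, w} k) (Y X : C.Obj) : Prop :=
  ∃ (i : C.Hom Y X 0) (p : C.Hom X Y 0) (h : C.Hom Y Y (-1)),
    C.d (zero_add 1) i = 0 ∧ C.d (zero_add 1) p = 0 ∧
      C.comp (zero_add 0) p i = C.one Y + C.d (neg_add_cancel 1) h

end Pool.Agent.Helper17.RZ
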