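import Pool.Agent.Helper17.RZ.Var

/-!
# Project RZ (MP_77656e_ag): finite direct sums of line bundles

A line bundle is given by nonzero rational functions `u i`, one for each chart `{i}`, such that
`u i / u j` is a unit on the chart `{i, j}`.
-/

set_option autoImplicit false

namespace Pool.Agent.Helper17.RZ

universe u v

noncomputable section

variable {k : Type u} [Field k] {K : Type u} [Field K] [Algebra k K]

theorem ProjVar.A_mono (Z : ProjVar k K) {σ τ : Finset Z.I} (h : σ ⊆ τ) : Z.A σ ≤ Z.A τ := by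
  apply Algebra.adjoin_mono
  rintro x ⟨i, hi', j, rfl⟩
  exact ⟨i, h hi', j, rfl⟩

/-- the lattice of sections of a sum of line bundles over the chart `σ` -/
def ProjVar.lineLat (Z : ProjVar k K) {ι : Type} (u : ι → Z.I → K) (σ : Finset Z.I) :
    Submodule (Z.A σ) (ι → K) where
  carrier := {v | ∀ e, ∀ i ∈ σ, v e / u e i ∈ Z.A σ}
  add_mem' := by
    intro a b ha hb e i hi'
    rw [Pi.add_apply, add_div]; exact (Z.A σ).add_mem (ha e i hi') (hb e i hi')
  zero_mem' := by intro e i _; simp [(Z.A σ).zero_mem]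
  smul_mem' := by
    intro c v hv e i hi'
    have : (c • v) e / u e i = (c : K) * (v e / u e i) := by
      change (c : K) * v e / u e i = _
      ring
    rw [this]; exact (Z.A σ).mul_mem c.2 (hv e i hi')

theorem ProjVar.mem_lineLat (Z : ProjVar k K) {ι : Type} (u : ι → Z.I → K)
    (hu : ∀ e i, u e i ≠ 0) (hc : ∀ e i j, u e i / u e j ∈ Z.A {i, j}) (σ : Finset Z.I) (i : Z.I)
    (hi' : i ∈ σ) (v : ι → K) : v ∈ Z.lineLat u σ ↔ ∀ e, v e / u e i ∈ Z.A σ := by
  constructor
  · intro h e; exact h e i hi'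
  · intro h e j hj
    have h1 : v e / u e j = (v e / u e i) * (u e i / u e j) := by
      field_simp [hu e i, hu e j]
    rw [h1]
    refine (Z.A σ).mul_mem (h e) (Z.A_mono ?_ (hc e i j))
    intro x hx
    rw [Finset.mem_insert, Finset.mem_singleton] at hx
    rcases hx with rfl | rfl <;> assumption

/-- the standard basis: the lattice is free -/
def ProjVar.lineEquiv (Z : ProjVar k K) {ι : Type} (u : ι → Z.I → K)
    (hu : ∀ e i, u e i ≠ 0) (hc : ∀ e i j, u e i / u e j ∈ Z.A {i, j}) (σ : Finset Z.I) (i : Z.I)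
    (hi' : i ∈ σ) : (ι → Z.A σ) ≃ₗ[Z.A σ] Z.lineLat u σ where
  toFun f := ⟨fun e => (f e : K) * u e i, by
    rw [Z.mem_lineLat u hu hc σ i hi']
    intro e
    rw [mul_div_cancel_right₀ _ (hu e i)]; exact (f e).2⟩
  invFun v := fun e => ⟨v.1 e / u e i, (Z.mem_lineLat u hu hc σ i hi' v.1).mp v.2 e⟩
  map_add' f g := by
    apply Subtype.ext; funext e
    change ((f e + g e : Z.A σ) : K) * u e i = (f e : K) * u e i + (g e : K) * u e i
    push_cast; ring
  map_smul' c f := by
    apply Subtype.ext; funext e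
    change ((c * f e : Z.A σ) : K) * u e i = (c : K) * ((f e : K) * u e i)
    push_cast; ring
  left_inv f := by
    funext e; apply Subtype.ext
    exact mul_div_cancel_right₀ _ (hu e i)
  right_inv v := by
    apply Subtype.ext; funext e
    exact div_mul_cancel₀ _ (hu e i)

/-- every element of `K` is a fraction of elements of `Z.A σ` -/
theorem ProjVar.exists_mul_mem (Z : ProjVar k K) (σ : Finset Z.I) (hσ : σ.Nonempty) (x : K) :
    ∃ c : Z.A σ, c ≠ 0 ∧ (c : K) * x ∈ Z.A σ := by
  obtain ⟨i, hi'⟩ := hσ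
  have hx : x ∈ IntermediateField.adjoin k {x : K | ∃ i j, x = Z.a i / Z.a j} := by
    rw [Z.gen]; trivial
  have hgen : ∀ j, Z.a j / Z.a i ∈ Z.A σ := fun j => Algebra.subset_adjoin ⟨i, hi', j, rfl⟩
  refine IntermediateField.adjoin_induction k (p := fun x _ => ∃ c : Z.A σ, c ≠ 0 ∧ (c : K) * x ∈ Z.A σ)
    ?_ ?_ ?_ ?_ ?_ hx
  · rintro x ⟨a, b, rfl⟩
    refine ⟨⟨Z.a b / Z.a i, hgen b⟩, ?_, ?_⟩
    · intro h
      have := congrArg Subtype.val h
      simp only [ZeroMemClass.coe_zero, div_eq_zero_iff] at this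
      rcases this with h | h
      · exact Z.a_ne b h
      · exact Z.a_ne i h
    · have : Z.a b / Z.a i * (Z.a a / Z.a b) = Z.a a / Z.a i := by
        field_simp [Z.a_ne b, Z.a_ne i]
      simp only [this]; exact hgen a
  · intro c
    exact ⟨1, one_ne_zero, by simpa using (Z.A σ).algebraMap_mem c⟩
  · rintro x y _ _ ⟨c, hc, hcx⟩ ⟨d, hd, hdy⟩
    refine ⟨c * d, mul_ne_zero hc hd, ?_⟩
    have : ((c * d : Z.A σ) : K) * (x + y) = (d : K) * ((c : K) * x) + (c : K) * ((d : K) * y) := by
      push_cast; ring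
    rw [this]
    exact (Z.A σ).add_mem ((Z.A σ).mul_mem d.2 hcx) ((Z.A σ).mul_mem c.2 hdy)
  · rintro x _ ⟨c, hc, hcx⟩
    by_cases hx0 : x = 0
    · exact ⟨1, one_ne_zero, by simp [hx0, (Z.A σ).zero_mem]⟩
    · have hc0 : (c : K) ≠ 0 := fun h => hc (Subtype.ext h)
      refine ⟨⟨(c : K) * x, hcx⟩, ?_, ?_⟩
      · intro h
        have := congrArg Subtype.val h
        simp only [ZeroMemClass.coe_zero, mul_eq_zero] at this
        rcases this with h | h
        · exact hc0 h
        · exact hx0 h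
      · have : (c : K) * x * x⁻¹ = c := by field_simp
        simp only [this]; exact c.2
  · rintro x y _ _ ⟨c, hc, hcx⟩ ⟨d, hd, hdy⟩
    refine ⟨c * d, mul_ne_zero hc hd, ?_⟩
    have : ((c * d : Z.A σ) : K) * (x * y) = ((c : K) * x) * ((d : K) * y) := by
      push_cast; ring
    rw [this]
    exact (Z.A σ).mul_mem hcx hdy

/-- A finite direct sum of line bundles, in degree 0. -/
def ProjVar.lines (Z : ProjVar k K) (ι : Type) [Fintype ι] (u : ι → Z.I → K)
    (hu : ∀ e i, u e i ≠ 0) (hc : ∀ e i j, u e i / u e j ∈ Z.A {i, j}) : Cplx Z where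
  V := ι → K
  pr i := if i = 0 then LinearMap.id else 0
  bd := 0
  pr_pr i j := by
    by_cases hi' : i = 0
    · by_cases hj : j = 0
      · subst hi'; subst hj; simp
      · subst hi'; simp [hj, Ne.symm hj]
    · by_cases hij : i = j
      · subst hij; simp [hi']
      · simp [hi', hij]
  pr_bd i hi' := by
    have : i ≠ 0 := by rintro rfl; simp at hi'
    simp [this]
  pr_sum := by simp
  d := 0
  d_pr i := by simp
  d_d := by simp
  lat σ := Z.lineLat u σ
  lat_fin σ hσ := by
    obtain ⟨i, hi'⟩ := hσ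
    exact Module.Finite.equiv (Z.lineEquiv u hu hc σ i hi')
  lat_proj σ hσ := by
    obtain ⟨i, hi'⟩ := hσ
    exact Module.Projective.of_equiv (Z.lineEquiv u hu hc σ i hi')
  lat_gen σ hσ v := by
    classical
    obtain ⟨i, hi'⟩ := hσ
    have h1 : ∀ e, ∃ c : Z.A σ, c ≠ 0 ∧ (c : K) * (v e / u e i) ∈ Z.A σ := fun e =>
      Z.exists_mul_mem σ ⟨i, hi'⟩ _
    choose c hc0 hcm using h1
    refine ⟨∏ e, c e, Finset.prod_ne_zero_iff.mpr fun e _ => hc0 e, ?_⟩
    rw [Z.mem_lineLat u hu hc σ i hi']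
    intro e
    have : ((∏ e, c e) • v) e / u e i = ((∏ e' ∈ Finset.univ.erase e, c e' : Z.A σ) : K) *
        ((c e : K) * (v e / u e i)) := by
      change ((∏ e, c e : Z.A σ) : K) * v e / u e i = _
      rw [← Finset.mul_prod_erase Finset.univ c (Finset.mem_univ e)]
      push_cast; ring
    rw [this]
    exact (Z.A σ).mul_mem (SetLike.coe_mem _) (hcm e)
  lat_loc σ τ hσ hστ := by
    classical
    obtain ⟨i, hi'⟩ := hσ
    apply le_antisymm
    · intro v hv
      rw [Z.mem_lineLat u hu hc τ i (hστ hi')] at hv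
      have : v = ∑ e, (⟨v e / u e i, hv e⟩ : Z.A τ) • (Pi.single e (u e i) : ι → K) := by
        funext e
        rw [Finset.sum_apply, Finset.sum_eq_single e]
        · change v e = (v e / u e i) * (Pi.single e (u e i) : ι → K) e
          rw [Pi.single_eq_same, div_mul_cancel₀ _ (hu e i)]
        · intro e' _ hne
          change (v e' / u e' i) * (Pi.single e' (u e' i) : ι → K) e = 0
          rw [Pi.single_eq_of_ne (Ne.symm hne), mul_zero]
        · intro h; exact absurd (Finset.mem_univ e) h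
      rw [this]
      refine Submodule.sum_mem _ fun e _ => Submodule.smul_mem _ _ (Submodule.subset_span ?_)
      change (Pi.single e (u e i) : ι → K) ∈ Z.lineLat u σ
      rw [Z.mem_lineLat u hu hc σ i hi']
      intro e'
      by_cases h : e' = e
      · subst h; rw [Pi.single_eq_same, div_self (hu e' i)]; exact (Z.A σ).one_mem
      · rw [Pi.single_eq_of_ne h, zero_div]; exact (Z.A σ).zero_mem
    · rw [Submodule.span_le]
      intro v hv
      change v ∈ Z.lineLat u τ
      rw [Z.mem_lineLat u hu hc τ i (hστ hi')]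
      intro e
      exact Z.A_mono hστ ((Z.mem_lineLat u hu hc σ i hi' v).mp hv e)
  lat_pr σ i v hv := by
    by_cases h : i = 0
    · simpa [h] using hv
    · simp [h]
  lat_d σ v hv := by simp

/-- concentrated in degree 0 -/
def Cplx.Conc0 {Z : ProjVar k K} (X : Cplx Z) : Prop := X.pr 0 = LinearMap.id

end

end Pool.Agent.Helper17.RZ
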