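import Pool.Agent.Helper17.RZ.Tens
import Pool.Agent.Helper17.RZ.Lines

/-!
# Project RZ (MP_77656e_ag): the example
-/

set_option autoImplicit false

open MvPolynomial

namespace Pool.Agent.Helper17.RZ

universe u v

noncomputable section

variable (k : Type u) [Field k]

/-- the inclusion of polynomials in the field of fractions -/
abbrev al (P : SS k) : LL k := algebraMap (SS k) (LL k) P

/-- the function field of the example: generated by the quotients of the 43 forms -/
def K0 : IntermediateField k (LL k) :=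
  IntermediateField.adjoin k {x : LL k | ∃ v w : GW, x = al k (fw k v.1) / al k (fw k w.1)}

/-- the word `aaaa` -/
def w0 : GW := ⟨fun _ => 0, by decide⟩

/-- the word with `b` in the place `s` and `a` elsewhere -/
def w1 (s : Fin 4) : GW := ⟨Function.update (fun _ => 0) s 1, by revert s; decide⟩

/-- the homogeneous coordinates of the generic point -/
def aa (w : GW) : K0 k :=
  ⟨al k (fw k w.1) / al k (fw k w0.1), IntermediateField.subset_adjoin k _ ⟨w, w0, rfl⟩⟩

theorem lt_ne_zero (s : Fin 4) (c : Fin 5) : lt k s c ≠ 0 := by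
  have hx : (X (s, false) : SS k) ≠ 0 := X_ne_zero _
  have hy : (X (s, true) : SS k) ≠ 0 := X_ne_zero _
  have h1 : ∀ c : k, c ≠ 0 → (X (s, false) ^ 2 + C c * X (s, true) ^ 2 : SS k) ≠ 0 := by
    intro c hc h
    have h2 := congrArg (MvPolynomial.eval (fun p : Fin 4 × Bool => if p = (s, true) then (1 : k) else 0)) h
    simp at h2
    exact hc h2
  have hp : (X (s, false) ^ 2 + X (s, true) ^ 2 : SS k) ≠ 0 := by
    have := h1 1 one_ne_zero
    simpa using this
  have hm : (X (s, false) ^ 2 - X (s, true) ^ 2 : SS k) ≠ 0 := by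
    have := h1 (-1) (neg_ne_zero.mpr one_ne_zero)
    simpa [sub_eq_add_neg] using this
  fin_cases c
  · exact pow_ne_zero 2 hp
  · exact mul_ne_zero (pow_ne_zero 2 hx) (pow_ne_zero 2 hy)
  · exact mul_ne_zero hp (mul_ne_zero hx hy)
  · exact mul_ne_zero hp hm
  · exact mul_ne_zero (mul_ne_zero hx hy) hm

theorem fw_ne_zero (w : Fin 4 → Fin 5) : fw k w ≠ 0 :=
  Finset.prod_ne_zero_iff.mpr fun s _ => lt_ne_zero k s (w s)

theorem al_ne_zero {P : SS k} (h : P ≠ 0) : al k P ≠ 0 :=
  (map_ne_zero_iff _ (IsFractionRing.injective (SS k) (LL k))).mpr h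

theorem aa_ne_zero (w : GW) : aa k w ≠ 0 := by
  intro h
  have h1 := congrArg Subtype.val h
  exact div_ne_zero (al_ne_zero k (fw_ne_zero k w.1)) (al_ne_zero k (fw_ne_zero k w0.1)) h1

theorem aa_div (v w : GW) : ((aa k v / aa k w : K0 k) : LL k) = al k (fw k v.1) / al k (fw k w.1) := by
  have h0 := al_ne_zero k (fw_ne_zero k w0.1)
  have h1 := al_ne_zero k (fw_ne_zero k w.1)
  change (al k (fw k v.1) / al k (fw k w0.1)) / (al k (fw k w.1) / al k (fw k w0.1)) = _
  field_simp

theorem adj_top : IntermediateField.adjoin k {x : K0 k | ∃ i j : GW, x = aa k i / aa k j} = ⊤ := by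
  rw [eq_top_iff]
  rintro ⟨x, hx⟩ _
  have key : ∀ (y : LL k) (hy : y ∈ K0 k),
      (⟨y, hy⟩ : K0 k) ∈ IntermediateField.adjoin k {x : K0 k | ∃ i j : GW, x = aa k i / aa k j} := by
    intro y hy
    refine IntermediateField.adjoin_induction k
      (p := fun y hy => (⟨y, hy⟩ : K0 k) ∈ IntermediateField.adjoin k {x : K0 k | ∃ i j : GW, x = aa k i / aa k j})
      ?_ ?_ ?_ ?_ ?_ hy
    · rintro y ⟨v, w, rfl⟩
      apply IntermediateField.subset_adjoin
      exact ⟨v, w, Subtype.ext (aa_div k v w).symm⟩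
    · intro c
      exact IntermediateField.algebraMap_mem _ c
    · intro a b ha hb h1 h2
      exact IntermediateField.add_mem _ h1 h2
    · intro a ha h1
      exact IntermediateField.inv_mem _ h1
    · intro a b ha hb h1 h2
      exact IntermediateField.mul_mem _ h1 h2
  exact key x hx

/-- the projective variety of the example -/
def ZZ : ProjVar k (K0 k) where
  I := GW
  ne := ⟨w0⟩
  a := aa k
  a_ne := aa_ne_zero k
  gen := adj_top k

/-- the function `b_s / a_s` -/
def bet (s : Fin 4) : K0 k := aa k (w1 s) / aa k w0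

theorem bet_ne_zero (s : Fin 4) : bet k s ≠ 0 := div_ne_zero (aa_ne_zero k _) (aa_ne_zero k _)

/-- local generators of the line bundle `O(d)`, `d ∈ ℤ^4`, divided by the product of `a_s ^ d_s` -/
def uu (d : Fin 4 → ℤ) (w : GW) : K0 k := ∏ s, if w.1 s = 1 ∨ w.1 s = 4 then bet k s ^ d s else 1

theorem uu_ne_zero (d : Fin 4 → ℤ) (w : GW) : uu k d w ≠ 0 := by
  refine Finset.prod_ne_zero_iff.mpr fun s _ => ?_
  split
  · exact zpow_ne_zero _ (bet_ne_zero k s)
  · exact one_ne_zero

/-- D2 -/
def UU : Prop := ∀ (d : Fin 4 → ℤ) (v w : GW), uu k d v / uu k d w ∈ (ZZ k).A {v, w}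

/-- sums of the line bundles `O(d)` -/
def ZL (hU : UU k) (ι : Type) [Fintype ι] (t : ι → Fin 4 → ℤ) : Cplx (ZZ k) :=
  (ZZ k).lines ι (fun e => uu k (t e)) (fun e => uu_ne_zero k (t e)) (fun e => hU (t e))

/-- index set of the generator -/
abbrev IE : Type := ((Bool × Bool) × Bool) × Bool

/-- the twists of the generator -/
def tE (e : IE) : Fin 4 → ℤ :=
  ![if e.1.1.1 then -1 else 0, if e.1.1.2 then -1 else 0, if e.1.2 then -1 else 0, if e.2 then -1 else 0]

/-- the generator: the sum of the line bundles `O(d)`, `d ∈ {-1, 0}^4` -/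
def EZ (hU : UU k) : Cplx (ZZ k) := ZL k hU IE tE

end

end Pool.Agent.Helper17.RZ
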