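import Pool.Agent.Helper17.RZ.Asm
import Pool.Agent.Helper99.RZ.Kos
import Pool.Agent.Helper99.RZ.Hyp
import Pool.Agent.Helper24.RZ.QYEx
import Pool.Agent.Helper87.RZ.EndIso
import Pool.Agent.Helper28.RZ.Bridge
import Pool.Agent.Helper36.RZ.NonRat
import Pool.Agent.Helper36.RZ.Fac
import Pool.Agent.Helper54.RZ.LatD2
import Pool.Agent.Helper30.RZ.InvThm
import Pool.Agent.Helper43.RZ.HEqQ
import Pool.Agent.Helper40.RZ.TensHEq
import Pool.Agent.Helper14.RZ.AvLem
import Pool.Agent.Helper84.RZ.CechEx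
import Pool.Agent.Helper84.RZ.Cone
import Pool.Agent.Helper46.RZ.BigDeg
import Pool.Agent.Helper46.RZ.Lines
import Pool.Agent.Helper5.RZ.HomNum
import Pool.Agent.Helper18.RZ.GenAll
import Pool.Agent.Helper18.RZ.ResEx
import Pool.Agent.Helper18.RZ.HEqSI
import Pool.Agent.Helper28.RZ.RetrEx
import Pool.Agent.Helper28.RZ.GlobQ
import Pool.Agent.Helper43.RZ.Amp
import Pool.Agent.Helper74.RZ.C1
import Pool.Agent.Helper74.RZ.C3
import Pool.Agent.Helper88.RZ.LocGlob
import Pool.Agent.Helper82.RZ.EndQ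
import Pool.Agent.Helper94.RZ.Trun
import Pool.Agent.Helper49.RZ.PerfMain

/-!
# Project RZ (MP_77656e_ag): the two forms of the theorem for varieties given by homogeneous coordinates
-/

set_option autoImplicit false

namespace Pool.Agent.Helper17.RZ

universe u

theorem invT : InvThm.{u} := Pool.Agent.Helper30.RZ.invThm Pool.Agent.Helper5.RZ.homNum

theorem kosT : Koszul.{u} :=
  Pool.Agent.Helper99.RZ.koszul (Pool.Agent.Helper54.RZ.uuAll invT) invT
    (Pool.Agent.Helper54.RZ.latHom invT) (Pool.Agent.Helper46.RZ.linesThick Pool.Agent.Helper84.RZ.isoRetr)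
    (Pool.Agent.Helper46.RZ.linesSummand Pool.Agent.Helper84.RZ.isoRetr)

theorem genT : GenAll.{u} :=
  Pool.Agent.Helper18.RZ.genAll
    (Pool.Agent.Helper18.RZ.resEx
      (Pool.Agent.Helper74.RZ.kerEx Pool.Agent.Helper74.RZ.locFun Pool.Agent.Helper74.RZ.locVec
        Pool.Agent.Helper74.RZ.liftLem)
      Pool.Agent.Helper84.RZ.coneEx Pool.Agent.Helper84.RZ.coneSES)
    (Pool.Agent.Helper28.RZ.retrEx Pool.Agent.Helper74.RZ.liftLem)
    Pool.Agent.Helper94.RZ.trunEx Pool.Agent.Helper84.RZ.isoRetr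

theorem heqT : HEqQ.{u} :=
  Pool.Agent.Helper43.RZ.heqQ Pool.Agent.Helper36.RZ.linFac Pool.Agent.Helper36.RZ.facHEq
    Pool.Agent.Helper40.RZ.tensHEq Pool.Agent.Helper14.RZ.avLem

theorem qyT : QYEx.{u} :=
  Pool.Agent.Helper24.RZ.qyEx
    (Pool.Agent.Helper84.RZ.cechEx Pool.Agent.Helper5.RZ.homNum Pool.Agent.Helper5.RZ.dnInter
      Pool.Agent.Helper46.RZ.bigDeg)
    Pool.Agent.Helper14.RZ.avLem

/-- the criterion form -/
theorem mainT : Main.{u} :=
  main (Pool.Agent.Helper43.RZ.amp Pool.Agent.Helper74.RZ.locFun Pool.Agent.Helper74.RZ.locVec)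
    (Pool.Agent.Helper99.RZ.hypLine invT Pool.Agent.Helper84.RZ.isoRetr) kosT
    (Pool.Agent.Helper46.RZ.linesThick Pool.Agent.Helper84.RZ.isoRetr) genT
    (Pool.Agent.Helper54.RZ.uuAll invT)
    (Pool.Agent.Helper87.RZ.endIso invT (Pool.Agent.Helper54.RZ.latHom invT)) heqT
    (Pool.Agent.Helper88.RZ.locGlob Pool.Agent.Helper82.RZ.endQ) Pool.Agent.Helper28.RZ.globQ qyT
    (Pool.Agent.Helper24.RZ.qyFin Pool.Agent.Helper5.RZ.homNum) Pool.Agent.Helper36.RZ.nonRat

/-- the form with the DG categories of perfect modules -/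
theorem mainT2 : Main2.{u} :=
  main2 mainT
    (Pool.Agent.Helper28.RZ.bridge Pool.Agent.Helper74.RZ.liftLem Pool.Agent.Helper84.RZ.coneEx
      Pool.Agent.Helper18.RZ.hEqSurj Pool.Agent.Helper18.RZ.hEqInj)
    Pool.Agent.Helper49.RZ.perfMain

end Pool.Agent.Helper17.RZ
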