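import Pool.Agent.Helper17.RZ.Dg

/-!
# Project RZ (MP_77656e_ag): Cech cochains and the DG category of a local system of morphisms
-/

set_option autoImplicit false

namespace Pool.Agent.Helper17.RZ

universe u v

noncomputable section

section Cochains

variable {I : Type} [LinearOrder I]

/-- the elements `≤ i` of `σ` -/
def lo (σ : Finset I) (i : I) : Finset I := σ.filter (fun j => j ≤ i)

/-- the elements `≥ i` of `σ` -/
def hi (σ : Finset I) (i : I) : Finset I := σ.filter (fun j => i ≤ j)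

/-- the sign `(-1)^p`, where `p` is the number of elements of `σ` smaller than `i` -/
def sg (σ : Finset I) (i : I) : ℤ := (-1) ^ (σ.filter (fun j => j < i)).card

/-- the Cech differential `(δ c)(σ) = Σ_{i ∈ σ} ± c(σ \ {i})` -/
def cdel {M : Type u} [AddCommGroup M] (c : Finset I → M) (σ : Finset I) : M :=
  ∑ i ∈ σ, sg σ i • c (σ.erase i)

/-- the composition (cup product) `(c c')(σ) = Σ_{i ∈ σ} c(σ_{≤ i}) ∘ c'(σ_{≥ i})` -/
def ccup {L : Type u} [Field L] {U V W : Type u} [AddCommGroup U] [AddCommGroup V] [AddCommGroup W]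
    [Module L U] [Module L V] [Module L W] (c : Finset I → (V →ₗ[L] W)) (c' : Finset I → (U →ₗ[L] V))
    (σ : Finset I) : U →ₗ[L] W :=
  ∑ i ∈ σ, (c (lo σ i)) ∘ₗ (c' (hi σ i))

end Cochains

/-- A bounded graded vector space over `L` with a differential, given by the projections on the graded
pieces.  (The structure of a vector space over `k` is the one induced by `k → L`.) -/
structure GrD (k : Type u) [Field k] (L : Type u) [Field L] [Algebra k L] where
  V : Type u
  [acg : AddCommGroup V]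
  [modk : Module k V]
  [mod : Module L V]
  [tower : IsScalarTower k L V]
  /-- the projection on the piece of degree `i` -/
  pr : ℤ → V →ₗ[L] V
  bd : ℕ
  pr_pr : ∀ i j, pr i ∘ₗ pr j = if i = j then pr i else 0
  pr_bd : ∀ i : ℤ, (bd : ℤ) < |i| → pr i = 0
  pr_sum : ∑ i ∈ Finset.Icc (-(bd : ℤ)) bd, pr i = LinearMap.id
  /-- the differential -/
  d : V →ₗ[L] V
  d_pr : ∀ i, d ∘ₗ pr i = pr (i + 1) ∘ₗ d
  d_d : d ∘ₗ d = 0

attribute [instance] GrD.acg GrD.modk GrD.mod GrD.tower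

variable {k : Type u} [Field k] {L : Type u} [Field L] [Algebra k L]

/-- the parity operator: `(-1)^i` on the piece of degree `i` -/
def GrD.P (X : GrD k L) : X.V →ₗ[L] X.V :=
  ∑ i ∈ Finset.Icc (-(X.bd : ℤ)) X.bd, ((i.negOnePow : ℤˣ) : ℤ) • X.pr i

/-- `φ` is homogeneous of degree `n` -/
def IsDeg {X Y : GrD k L} (n : ℤ) (φ : X.V →ₗ[L] Y.V) : Prop :=
  ∀ i, φ ∘ₗ X.pr i = Y.pr (i + n) ∘ₗ φ

/-- A local system of morphisms on the nonempty finite subsets of `I` (charts): for each pair of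
objects and each `σ` a space of `L`-linear maps. -/
structure LocSys (k : Type u) [Field k] (L : Type u) [Field L] [Algebra k L] (I : Type)
    [LinearOrder I] where
  Obj : Type v
  G : Obj → GrD k L
  H : ∀ X Y : Obj, Finset I → Submodule k ((G X).V →ₗ[L] (G Y).V)
  mono : ∀ (X Y : Obj) (σ τ : Finset I), σ.Nonempty → σ ⊆ τ → H X Y σ ≤ H X Y τ
  comp_mem : ∀ (X Y Z : Obj) (σ : Finset I) (φ : (G Y).V →ₗ[L] (G Z).V) (ψ : (G X).V →ₗ[L] (G Y).V),
    φ ∈ H Y Z σ → ψ ∈ H X Y σ → φ ∘ₗ ψ ∈ H X Z σ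
  id_mem : ∀ (X : Obj) (σ : Finset I), LinearMap.id ∈ H X X σ
  pr_mem : ∀ (X : Obj) (σ : Finset I) (i : ℤ), (G X).pr i ∈ H X X σ
  d_mem : ∀ (X : Obj) (σ : Finset I), (G X).d ∈ H X X σ

section Lemmas

variable {I : Type} [LinearOrder I]

theorem lo_lo (σ : Finset I) (i j : I) (h : i ≤ j) : lo (lo σ j) i = lo σ i := by
  ext x; simp only [lo, Finset.mem_filter]; constructor
  · rintro ⟨⟨h1, _⟩, h2⟩; exact ⟨h1, h2⟩
  · rintro ⟨h1, h2⟩; exact ⟨⟨h1, h2.trans h⟩, h2⟩

theorem hi_hi (σ : Finset I) (i j : I) (h : i ≤ j) : hi (hi σ i) j = hi σ j := by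
  ext x; simp only [hi, Finset.mem_filter]; constructor
  · rintro ⟨⟨h1, _⟩, h2⟩; exact ⟨h1, h2⟩
  · rintro ⟨h1, h2⟩; exact ⟨⟨h1, h.trans h2⟩, h2⟩

theorem lo_hi (σ : Finset I) (i j : I) : lo (hi σ i) j = hi (lo σ j) i := by
  ext x; simp only [hi, lo, Finset.mem_filter]; tauto

theorem card_lo_add_hi (σ : Finset I) (i : I) (h : i ∈ σ) : (lo σ i).card + (hi σ i).card = σ.card + 1 := by
  have h1 : lo σ i ∪ hi σ i = σ := by
    ext x; simp only [lo, hi, Finset.mem_union, Finset.mem_filter]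
    constructor
    · rintro (⟨h, _⟩ | ⟨h, _⟩) <;> exact h
    · intro h; rcases le_total x i with h' | h'
      · exact Or.inl ⟨h, h'⟩
      · exact Or.inr ⟨h, h'⟩
  have h2 : lo σ i ∩ hi σ i = {i} := by
    ext x; simp only [lo, hi, Finset.mem_inter, Finset.mem_filter, Finset.mem_singleton]
    constructor
    · rintro ⟨⟨_, h1⟩, _, h2⟩; exact le_antisymm h1 h2
    · rintro rfl; exact ⟨⟨h, le_refl _⟩, h, le_refl _⟩
  have := Finset.card_union_add_card_inter (lo σ i) (hi σ i)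
  rw [h1, h2, Finset.card_singleton] at this
  omega

theorem lo_sub (σ : Finset I) (i : I) : lo σ i ⊆ σ := Finset.filter_subset _ _
theorem hi_sub (σ : Finset I) (i : I) : hi σ i ⊆ σ := Finset.filter_subset _ _
theorem mem_lo (σ : Finset I) (i : I) (h : i ∈ σ) : i ∈ lo σ i := by simp [lo, h]
theorem mem_hi (σ : Finset I) (i : I) (h : i ∈ σ) : i ∈ hi σ i := by simp [hi, h]

end Lemmas

end

end Pool.Agent.Helper17.RZ
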