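import Pool.Agent.Helper17.RZ.LocDG
import Pool.Agent.Helper17.RZ.Coch

/-!
# Project RZ (MP_77656e_ag): the DG category of a local system
-/

set_option autoImplicit false
set_option linter.unusedSimpArgs false

namespace Pool.Agent.Helper17.RZ

universe u v

noncomputable section

variable {k : Type u} [Field k] {L : Type u} [Field L] [Algebra k L] {I : Type} [LinearOrder I]

theorem ccup_empty {U V W : Type u} [AddCommGroup U] [AddCommGroup V] [AddCommGroup W]
    [Module L U] [Module L V] [Module L W] (c : Finset I → (V →ₗ[L] W)) (c' : Finset I → (U →ₗ[L] V)) :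
    ccup c c' ∅ = 0 := by simp [ccup]

/-- The unit cochain. -/
def cone1 (V : Type u) [AddCommGroup V] [Module L V] : Finset I → (V →ₗ[L] V) :=
  fun σ => if σ.card = 1 then LinearMap.id else 0

theorem cone_ccup {U V : Type u} [AddCommGroup U] [AddCommGroup V]
    [Module L U] [Module L V] (c : Finset I → (U →ₗ[L] V)) (hc : c ∅ = 0) (σ : Finset I) :
    ccup (cone1 V) c σ = c σ := by
  rcases σ.eq_empty_or_nonempty with rfl | hne
  · simp [ccup, hc]
  · unfold ccup
    rw [Finset.sum_eq_single (σ.min' hne)]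
    · have h1 : lo σ (σ.min' hne) = {σ.min' hne} := by
        ext x
        simp only [lo, Finset.mem_filter, Finset.mem_singleton]
        constructor
        · rintro ⟨h1, h2⟩; exact le_antisymm h2 (σ.min'_le x h1)
        · rintro rfl; exact ⟨σ.min'_mem hne, le_rfl⟩
      have h2 : hi σ (σ.min' hne) = σ := by
        unfold hi; rw [Finset.filter_true_of_mem]; exact fun x hx => σ.min'_le x hx
      rw [h1, h2]; simp [cone1]
    · intro i hi' hne'
      have : (lo σ i).card ≠ 1 := by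
        intro h
        rw [Finset.card_eq_one] at h
        obtain ⟨a, ha⟩ := h
        have h1 : i ∈ lo σ i := mem_lo σ i hi'
        have h2 : σ.min' hne ∈ lo σ i := by
          simp only [lo, Finset.mem_filter]; exact ⟨σ.min'_mem hne, σ.min'_le i hi'⟩
        rw [ha, Finset.mem_singleton] at h1 h2
        exact hne' (h1.trans h2.symm)
      simp [cone1, this]
    · intro h; exact absurd (σ.min'_mem hne) h

theorem ccup_cone {U V : Type u} [AddCommGroup U] [AddCommGroup V]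
    [Module L U] [Module L V] (c : Finset I → (U →ₗ[L] V)) (hc : c ∅ = 0) (σ : Finset I) :
    ccup c (cone1 U) σ = c σ := by
  rcases σ.eq_empty_or_nonempty with rfl | hne
  · simp [ccup, hc]
  · unfold ccup
    rw [Finset.sum_eq_single (σ.max' hne)]
    · have h1 : hi σ (σ.max' hne) = {σ.max' hne} := by
        ext x
        simp only [hi, Finset.mem_filter, Finset.mem_singleton]
        constructor
        · rintro ⟨h1, h2⟩; exact le_antisymm (σ.le_max' x h1) h2
        · rintro rfl; exact ⟨σ.max'_mem hne, le_rfl⟩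
      have h2 : lo σ (σ.max' hne) = σ := by
        unfold lo; rw [Finset.filter_true_of_mem]; exact fun x hx => σ.le_max' x hx
      rw [h1, h2]; simp [cone1]
    · intro i hi' hne'
      have : (hi σ i).card ≠ 1 := by
        intro h
        rw [Finset.card_eq_one] at h
        obtain ⟨a, ha⟩ := h
        have h1 : i ∈ hi σ i := mem_hi σ i hi'
        have h2 : σ.max' hne ∈ hi σ i := by
          simp only [hi, Finset.mem_filter]; exact ⟨σ.max'_mem hne, σ.le_max' i hi'⟩
        rw [ha, Finset.mem_singleton] at h1 h2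
        exact hne' (h1.trans h2.symm)
      simp [cone1, this]
    · intro h; exact absurd (σ.max'_mem hne) h

theorem cdel_comp_left {U V W : Type u} [AddCommGroup U] [AddCommGroup V] [AddCommGroup W]
    [Module L U] [Module L V] [Module L W] (f : V →ₗ[L] W) (c : Finset I → (U →ₗ[L] V)) (σ : Finset I) :
    cdel (fun τ => f ∘ₗ c τ) σ = f ∘ₗ cdel c σ := by
  unfold cdel; rw [lcomp_sum]; exact Finset.sum_congr rfl fun i _ => by rw [LinearMap.comp_smul]

theorem cdel_comp_right {U V W : Type u} [AddCommGroup U] [AddCommGroup V] [AddCommGroup W]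
    [Module L U] [Module L V] [Module L W] (f : U →ₗ[L] V) (c : Finset I → (V →ₗ[L] W)) (σ : Finset I) :
    cdel (fun τ => c τ ∘ₗ f) σ = cdel c σ ∘ₗ f := by
  unfold cdel; rw [lsum_comp]; exact Finset.sum_congr rfl fun i _ => by rw [LinearMap.smul_comp]

theorem cdel_add {M : Type u} [AddCommGroup M] (c c' : Finset I → M) (σ : Finset I) :
    cdel (fun τ => c τ + c' τ) σ = cdel c σ + cdel c' σ := by
  unfold cdel; rw [← Finset.sum_add_distrib]; exact Finset.sum_congr rfl fun i _ => by rw [smul_add]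

theorem cdel_sub {M : Type u} [AddCommGroup M] (c c' : Finset I → M) (σ : Finset I) :
    cdel (fun τ => c τ - c' τ) σ = cdel c σ - cdel c' σ := by
  unfold cdel; rw [← Finset.sum_sub_distrib]; exact Finset.sum_congr rfl fun i _ => by rw [smul_sub]

theorem cdel_zsmul {M : Type u} [AddCommGroup M] (a : ℤ) (c : Finset I → M) (σ : Finset I) :
    cdel (fun τ => a • c τ) σ = a • cdel c σ := by
  unfold cdel; rw [Finset.smul_sum]; exact Finset.sum_congr rfl fun i _ => by rw [smul_comm]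

/-- the total differential on the raw cochains, `n` is the degree -/
def rawD (X Y : GrD k L) (n : ℤ) (c : Finset I → (X.V →ₗ[L] Y.V)) (σ : Finset I) : X.V →ₗ[L] Y.V :=
  Y.P ∘ₗ cdel c σ + Y.d ∘ₗ c σ - ((n.negOnePow : ℤˣ) : ℤ) • (c σ ∘ₗ X.d)

theorem negOnePow_mul_self (n : ℤ) : ((n.negOnePow : ℤˣ) : ℤ) * ((n.negOnePow : ℤˣ) : ℤ) = 1 := by
  rw [← Units.val_mul, Int.units_mul_self]; rfl

theorem rawD_rawD (X Y : GrD k L) (n : ℤ) (c : Finset I → (X.V →ₗ[L] Y.V)) (σ : Finset I) :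
    rawD X Y (n + 1) (rawD X Y n c) σ = 0 := by
  have h1 : cdel (rawD X Y n c) σ = Y.d ∘ₗ cdel c σ - ((n.negOnePow : ℤˣ) : ℤ) • (cdel c σ ∘ₗ X.d) := by
    unfold rawD
    rw [cdel_sub, cdel_add, cdel_comp_left, cdel_comp_left, cdel_zsmul, cdel_comp_right]
    rw [cdel_cdel, LinearMap.comp_zero, zero_add]
  unfold rawD at h1 ⊢
  rw [h1]
  have hPd : Y.P ∘ₗ (Y.d ∘ₗ cdel c σ) = -(Y.d ∘ₗ (Y.P ∘ₗ cdel c σ)) := by
    rw [← LinearMap.comp_assoc, Y.P_d, LinearMap.neg_comp, LinearMap.comp_assoc]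
  have hdd : Y.d ∘ₗ (Y.d ∘ₗ c σ) = 0 := by rw [← LinearMap.comp_assoc, Y.d_d, LinearMap.zero_comp]
  have hdd' : (c σ ∘ₗ X.d) ∘ₗ X.d = 0 := by rw [LinearMap.comp_assoc, X.d_d, LinearMap.comp_zero]
  have hs : (((n + 1).negOnePow : ℤˣ) : ℤ) = - ((n.negOnePow : ℤˣ) : ℤ) := by
    rw [Int.negOnePow_succ]; simp
  rw [hs]
  simp only [LinearMap.comp_sub, LinearMap.comp_add, LinearMap.sub_comp, LinearMap.add_comp,
    LinearMap.comp_smul, LinearMap.smul_comp, hPd, hdd, hdd', smul_zero, neg_smul, smul_sub, smul_add,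
    smul_smul, negOnePow_mul_self, LinearMap.comp_assoc, sub_zero, add_zero]
  abel

theorem ccup_add_left {U V W : Type u} [AddCommGroup U] [AddCommGroup V] [AddCommGroup W]
    [Module L U] [Module L V] [Module L W] (a b : Finset I → (V →ₗ[L] W)) (c : Finset I → (U →ₗ[L] V))
    (σ : Finset I) : ccup (fun τ => a τ + b τ) c σ = ccup a c σ + ccup b c σ := by
  unfold ccup; rw [← Finset.sum_add_distrib]
  exact Finset.sum_congr rfl fun i _ => by rw [LinearMap.add_comp]

theorem ccup_add_right {U V W : Type u} [AddCommGroup U] [AddCommGroup V] [AddCommGroup W]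
    [Module L U] [Module L V] [Module L W] (a : Finset I → (V →ₗ[L] W)) (b c : Finset I → (U →ₗ[L] V))
    (σ : Finset I) : ccup a (fun τ => b τ + c τ) σ = ccup a b σ + ccup a c σ := by
  unfold ccup; rw [← Finset.sum_add_distrib]
  exact Finset.sum_congr rfl fun i _ => by rw [LinearMap.comp_add]

theorem ccup_sub_left {U V W : Type u} [AddCommGroup U] [AddCommGroup V] [AddCommGroup W]
    [Module L U] [Module L V] [Module L W] (a b : Finset I → (V →ₗ[L] W)) (c : Finset I → (U →ₗ[L] V))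
    (σ : Finset I) : ccup (fun τ => a τ - b τ) c σ = ccup a c σ - ccup b c σ := by
  unfold ccup; rw [← Finset.sum_sub_distrib]
  exact Finset.sum_congr rfl fun i _ => by rw [LinearMap.sub_comp]

theorem ccup_sub_right {U V W : Type u} [AddCommGroup U] [AddCommGroup V] [AddCommGroup W]
    [Module L U] [Module L V] [Module L W] (a : Finset I → (V →ₗ[L] W)) (b c : Finset I → (U →ₗ[L] V))
    (σ : Finset I) : ccup a (fun τ => b τ - c τ) σ = ccup a b σ - ccup a c σ := by
  unfold ccup; rw [← Finset.sum_sub_distrib]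
  exact Finset.sum_congr rfl fun i _ => by rw [LinearMap.comp_sub]

theorem ccup_zsmul_left {U V W : Type u} [AddCommGroup U] [AddCommGroup V] [AddCommGroup W]
    [Module L U] [Module L V] [Module L W] (m : ℤ) (a : Finset I → (V →ₗ[L] W)) (c : Finset I → (U →ₗ[L] V))
    (σ : Finset I) : ccup (fun τ => m • a τ) c σ = m • ccup a c σ := by
  unfold ccup; rw [Finset.smul_sum]
  exact Finset.sum_congr rfl fun i _ => by rw [LinearMap.smul_comp]

theorem ccup_zsmul_right {U V W : Type u} [AddCommGroup U] [AddCommGroup V] [AddCommGroup W]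
    [Module L U] [Module L V] [Module L W] (m : ℤ) (a : Finset I → (V →ₗ[L] W)) (c : Finset I → (U →ₗ[L] V))
    (σ : Finset I) : ccup a (fun τ => m • c τ) σ = m • ccup a c σ := by
  unfold ccup; rw [Finset.smul_sum]
  exact Finset.sum_congr rfl fun i _ => by rw [LinearMap.comp_smul]

/-- the Leibniz rule for the total differential -/
theorem rawD_ccup (X Y Z : GrD k L) (n m : ℤ) (c : Finset I → (Y.V →ₗ[L] Z.V))
    (c' : Finset I → (X.V →ₗ[L] Y.V)) (hc : c ∅ = 0) (hc' : c' ∅ = 0)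
    (hdeg : ∀ σ : Finset I, σ.Nonempty → IsDeg (X := Y) (Y := Z) (n - ((σ.card : ℤ) - 1)) (c σ)) (σ : Finset I) :
    rawD X Z (n + m) (ccup c c') σ = ccup (rawD Y Z n c) c' σ +
      ((n.negOnePow : ℤˣ) : ℤ) • ccup c (rawD X Y m c') σ := by
  have e1 : ccup (rawD Y Z n c) c' σ = Z.P ∘ₗ ccup (cdel c) c' σ + Z.d ∘ₗ ccup c c' σ -
      ((n.negOnePow : ℤˣ) : ℤ) • ccup (fun τ => c τ ∘ₗ Y.d) c' σ := by
    unfold rawD
    rw [ccup_sub_left, ccup_add_left, ccup_zsmul_left]
    congr 2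
    · unfold ccup; rw [lcomp_sum]
      exact Finset.sum_congr rfl fun i _ => by rw [LinearMap.comp_assoc]
    · unfold ccup; rw [lcomp_sum]
      exact Finset.sum_congr rfl fun i _ => by rw [LinearMap.comp_assoc]
  have e2 : ccup c (rawD X Y m c') σ = ccup c (fun τ => Y.P ∘ₗ cdel c' τ) σ + ccup c (fun τ => Y.d ∘ₗ c' τ) σ -
      ((m.negOnePow : ℤˣ) : ℤ) • (ccup c c' σ ∘ₗ X.d) := by
    unfold rawD
    rw [ccup_sub_right, ccup_add_right, ccup_zsmul_right]
    congr 2
    unfold ccup; rw [lsum_comp]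
    exact Finset.sum_congr rfl fun i _ => by rw [LinearMap.comp_assoc]
  have e3 : ccup c (fun τ => Y.d ∘ₗ c' τ) σ = ccup (fun τ => c τ ∘ₗ Y.d) c' σ := by
    unfold ccup; exact Finset.sum_congr rfl fun i _ => by rw [LinearMap.comp_assoc]
  have e4 : Z.P ∘ₗ ccup (fun τ => (-1 : ℤ) ^ (τ.card - 1) • c τ) (cdel c') σ =
      ((n.negOnePow : ℤˣ) : ℤ) • ccup c (fun τ => Y.P ∘ₗ cdel c' τ) σ := by
    unfold ccup
    rw [lcomp_sum, Finset.smul_sum]
    refine Finset.sum_congr rfl fun i hi' => ?_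
    have hne : (lo σ i).Nonempty := ⟨i, mem_lo σ i hi'⟩
    have hP := GrD.P_comp (hdeg (lo σ i) hne)
    have hcard : 1 ≤ (lo σ i).card := Finset.card_pos.mpr hne
    rw [LinearMap.smul_comp, LinearMap.comp_smul, ← LinearMap.comp_assoc, hP, LinearMap.smul_comp,
      LinearMap.comp_assoc, smul_smul]
    congr 1
    have h3 : ((-1 : ℤ) ^ ((lo σ i).card - 1)) = (((((lo σ i).card : ℤ) - 1).negOnePow : ℤˣ) : ℤ) := by
      have : (((lo σ i).card : ℤ) - 1) = (((lo σ i).card - 1 : ℕ) : ℤ) := by omega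
      rw [this, Int.negOnePow_def]; simp
    rw [h3, ← Units.val_mul, ← Int.negOnePow_add]
    congr 2
    ring
  have e5 : ccup (rawD Y Z n c) c' σ + ((n.negOnePow : ℤˣ) : ℤ) • ccup c (rawD X Y m c') σ =
      Z.P ∘ₗ cdel (ccup c c') σ + Z.d ∘ₗ ccup c c' σ -
        (((n + m).negOnePow : ℤˣ) : ℤ) • (ccup c c' σ ∘ₗ X.d) := by
    rw [e1, e2, e3, cdel_ccup c c' hc hc' σ, LinearMap.comp_add, e4, Int.negOnePow_add]
    simp only [smul_sub, smul_add, Units.val_mul, smul_smul]
    abel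
  rw [e5]; rfl

variable (S : LocSys.{u, v} k L I)

/-- Homogeneous Cech cochains of degree `n`: the component on `σ` belongs to the local morphisms on `σ`
and has internal degree `n - (|σ| - 1)`. -/
def LocSys.Hom (X Y : S.Obj) (n : ℤ) :
    Submodule k (Finset I → ((S.G X).V →ₗ[L] (S.G Y).V)) where
  carrier := {c | c ∅ = 0 ∧ ∀ σ : Finset I, σ.Nonempty → c σ ∈ S.H X Y σ ∧
    IsDeg (X := S.G X) (Y := S.G Y) (n - ((σ.card : ℤ) - 1)) (c σ)}
  add_mem' := by
    rintro a b ⟨ha, ha'⟩ ⟨hb, hb'⟩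
    refine ⟨by simp [ha, hb], fun σ hσ => ⟨(S.H X Y σ).add_mem (ha' σ hσ).1 (hb' σ hσ).1, ?_⟩⟩
    exact (ha' σ hσ).2.add (hb' σ hσ).2
  zero_mem' := ⟨rfl, fun σ _ => ⟨(S.H X Y σ).zero_mem, IsDeg.zero⟩⟩
  smul_mem' := by
    rintro c a ⟨ha, ha'⟩
    refine ⟨by simp [ha], fun σ hσ => ⟨(S.H X Y σ).smul_mem c (ha' σ hσ).1, ?_⟩⟩
    exact (ha' σ hσ).2.smul c

theorem LocSys.ccup_mem {X Y Z : S.Obj} {n m l : ℤ} (h : n + m = l)
    {c : Finset I → ((S.G Y).V →ₗ[L] (S.G Z).V)} {c' : Finset I → ((S.G X).V →ₗ[L] (S.G Y).V)}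
    (hc : c ∈ S.Hom Y Z n) (hc' : c' ∈ S.Hom X Y m) : ccup c c' ∈ S.Hom X Z l := by
  refine ⟨ccup_empty c c', fun σ hσ => ⟨?_, ?_⟩⟩
  · refine Submodule.sum_mem _ fun i hi' => ?_
    refine S.comp_mem X Y Z σ _ _ ?_ ?_
    · exact S.mono Y Z _ _ ⟨i, mem_lo σ i hi'⟩ (lo_sub σ i) (hc.2 _ ⟨i, mem_lo σ i hi'⟩).1
    · exact S.mono X Y _ _ ⟨i, mem_hi σ i hi'⟩ (hi_sub σ i) (hc'.2 _ ⟨i, mem_hi σ i hi'⟩).1
  · refine IsDeg.sum _ _ fun i hi' => ?_
    have h1 := (hc.2 _ ⟨i, mem_lo σ i hi'⟩).2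
    have h2 := (hc'.2 _ ⟨i, mem_hi σ i hi'⟩).2
    have h3 := h1.comp h2
    have h4 := card_lo_add_hi σ i hi'
    have h5 : n - (((lo σ i).card : ℤ) - 1) + (m - (((hi σ i).card : ℤ) - 1)) = l - ((σ.card : ℤ) - 1) := by
      omega
    rw [h5] at h3
    exact h3

theorem LocSys.P_mem (X : S.Obj) (σ : Finset I) : (S.G X).P ∈ S.H X X σ := by
  refine Submodule.sum_mem _ fun i _ => ?_
  exact zsmul_mem (S.pr_mem X σ i) _

theorem LocSys.rawD_mem {X Y : S.Obj} {n m : ℤ} (h : n + 1 = m)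
    {c : Finset I → ((S.G X).V →ₗ[L] (S.G Y).V)} (hc : c ∈ S.Hom X Y n) :
    rawD (S.G X) (S.G Y) n c ∈ S.Hom X Y m := by
  subst h
  refine ⟨?_, fun σ hσ => ⟨?_, ?_⟩⟩
  · unfold rawD; rw [hc.1]; simp [cdel]
  · refine Submodule.sub_mem _ (Submodule.add_mem _ ?_ ?_) ?_
    · refine S.comp_mem X Y Y σ _ _ (S.P_mem Y σ) ?_
      refine Submodule.sum_mem _ fun i hi' => ?_
      refine zsmul_mem ?_ _
      rcases (σ.erase i).eq_empty_or_nonempty with he | hne
      · rw [he, hc.1]; exact Submodule.zero_mem _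
      · exact S.mono X Y _ _ hne (Finset.erase_subset i σ) (hc.2 _ hne).1
    · exact S.comp_mem X Y Y σ _ _ (S.d_mem Y σ) (hc.2 σ hσ).1
    · exact zsmul_mem (S.comp_mem X X Y σ _ _ (hc.2 σ hσ).1 (S.d_mem X σ)) _
  · refine IsDeg.sub (IsDeg.add ?_ ?_) ?_
    · have : IsDeg (X := S.G X) (Y := S.G Y) (n + 1 - ((σ.card : ℤ) - 1)) (cdel c σ) := by
        refine IsDeg.sum _ _ fun i hi' => ?_
        refine IsDeg.zsmul _ ?_
        rcases (σ.erase i).eq_empty_or_nonempty with he | hne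
        · rw [he, hc.1]; exact IsDeg.zero
        · have h1 := (hc.2 _ hne).2
          rw [Finset.card_erase_of_mem hi'] at h1
          have h2 : 1 ≤ σ.card := Finset.card_pos.mpr hσ
          have h3 : n - (((σ.card - 1 : ℕ) : ℤ) - 1) = n + 1 - ((σ.card : ℤ) - 1) := by omega
          rw [h3] at h1; exact h1
      have h1 := (IsDeg.P (X := S.G Y)).comp this
      rw [zero_add] at h1; exact h1
    · have h1 := (IsDeg.d (X := S.G Y)).comp (hc.2 σ hσ).2
      rw [show 1 + (n - ((σ.card : ℤ) - 1)) = n + 1 - ((σ.card : ℤ) - 1) by ring] at h1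
      exact h1
    · have h1 := ((hc.2 σ hσ).2).comp (IsDeg.d (X := S.G X))
      rw [show (n - ((σ.card : ℤ) - 1)) + 1 = n + 1 - ((σ.card : ℤ) - 1) by ring] at h1
      exact h1.zsmul _

theorem LocSys.one_mem (X : S.Obj) : (cone1 (S.G X).V : Finset I → _) ∈ S.Hom X X 0 := by
  refine ⟨by simp [cone1], fun σ _ => ⟨?_, ?_⟩⟩
  · unfold cone1; split
    · exact S.id_mem X σ
    · exact Submodule.zero_mem _
  · unfold cone1; split
    · rename_i h; rw [h]; simpa using IsDeg.id
    · exact IsDeg.zero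

/-- The composition of Cech cochains. -/
def LocSys.comp {X Y Z : S.Obj} {n m l : ℤ} (h : n + m = l) :
    S.Hom Y Z n →ₗ[k] S.Hom X Y m →ₗ[k] S.Hom X Z l :=
  LinearMap.mk₂ k (fun c c' => ⟨ccup c.1 c'.1, S.ccup_mem h c.2 c'.2⟩)
    (fun a b c => Subtype.ext (funext fun σ => ccup_add_left a.1 b.1 c.1 σ))
    (fun r a c => Subtype.ext (funext fun σ => by
      change ccup (r • a.1) c.1 σ = r • ccup a.1 c.1 σ
      unfold ccup; rw [Finset.smul_sum]
      exact Finset.sum_congr rfl fun i _ => by rw [Pi.smul_apply, LinearMap.smul_comp]))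
    (fun a b c => Subtype.ext (funext fun σ => ccup_add_right a.1 b.1 c.1 σ))
    (fun r a c => Subtype.ext (funext fun σ => by
      change ccup a.1 (r • c.1) σ = r • ccup a.1 c.1 σ
      unfold ccup; rw [Finset.smul_sum]
      exact Finset.sum_congr rfl fun i _ => by
        ext x
        simp only [Pi.smul_apply, LinearMap.comp_apply, LinearMap.smul_apply]
        rw [← algebraMap_smul L r, ← algebraMap_smul L r, map_smul]))

/-- The differential of Cech cochains: on the component `V^i → W^j` of a cochain of degree `n` it is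
`(-1)^j δ + [d, -]`. -/
def LocSys.dif {X Y : S.Obj} {n m : ℤ} (h : n + 1 = m) : S.Hom X Y n →ₗ[k] S.Hom X Y m where
  toFun c := ⟨rawD (S.G X) (S.G Y) n c.1, S.rawD_mem h c.2⟩
  map_add' a b := Subtype.ext (funext fun σ => by
    change rawD (S.G X) (S.G Y) n (a.1 + b.1) σ = rawD (S.G X) (S.G Y) n a.1 σ + rawD (S.G X) (S.G Y) n b.1 σ
    unfold rawD
    have : cdel (a.1 + b.1) σ = cdel a.1 σ + cdel b.1 σ := cdel_add a.1 b.1 σ
    rw [this, LinearMap.comp_add, Pi.add_apply, LinearMap.comp_add, LinearMap.add_comp, smul_add]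
    abel)
  map_smul' r a := Subtype.ext (funext fun σ => by
    change rawD (S.G X) (S.G Y) n (r • a.1) σ = r • rawD (S.G X) (S.G Y) n a.1 σ
    unfold rawD
    have : cdel (r • a.1) σ = r • cdel a.1 σ := by
      unfold cdel; rw [Finset.smul_sum]
      exact Finset.sum_congr rfl fun i _ => by rw [Pi.smul_apply, smul_comm]
    have hc : ∀ (f : (S.G Y).V →ₗ[L] (S.G Y).V) (g : (S.G X).V →ₗ[L] (S.G Y).V), f ∘ₗ (r • g) = r • (f ∘ₗ g) := by
      intro f g; ext x
      simp only [LinearMap.comp_apply, LinearMap.smul_apply]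
      rw [← algebraMap_smul L r, ← algebraMap_smul L r, map_smul]
    rw [this, Pi.smul_apply, hc, hc, LinearMap.smul_comp, smul_sub, smul_add, smul_comm])

/-- The DG category of a local system of morphisms: the morphisms are the Cech cochains with values in
the local morphisms. -/
def LocSys.dg : DGCat.{u, v, u} k where
  Obj := S.Obj
  Hom X Y n := S.Hom X Y n
  one X := ⟨cone1 (S.G X).V, S.one_mem X⟩
  comp h := S.comp h
  d h := S.dif h
  one_comp h f := Subtype.ext (funext fun σ => cone_ccup f.1 f.2.1 σ)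
  comp_one h f := Subtype.ext (funext fun σ => ccup_cone f.1 f.2.1 σ)
  assoc h₁ h₂ h₃ h₄ f g h := Subtype.ext (funext fun σ => ccup_assoc f.1 g.1 h.1 σ)
  d_d h₁ h₂ f := by
    subst h₁
    exact Subtype.ext (funext fun σ => rawD_rawD _ _ _ f.1 σ)
  d_comp h hl hn hm h₁ h₂ f g := by
    subst h
    exact Subtype.ext (funext fun σ => rawD_ccup _ _ _ _ _ f.1 g.1 f.2.1 g.2.1 (fun σ hσ => (f.2.2 σ hσ).2) σ)

end

end Pool.Agent.Helper17.RZ
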