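import Pool.Agent.Helper17.RZ.Loc

/-!
# Project RZ (MP_77656e_ag): the DG category of a local system
-/

set_option autoImplicit false

namespace Pool.Agent.Helper17.RZ

universe u v

noncomputable section

variable {k : Type u} [Field k] {L : Type u} [Field L] [Algebra k L]

section Deg

theorem IsDeg.comp {X Y Z : GrD k L} {n m : ℤ} {φ : Y.V →ₗ[L] Z.V} {ψ : X.V →ₗ[L] Y.V}
    (hφ : IsDeg n φ) (hψ : IsDeg m ψ) : IsDeg (X := X) (Y := Z) (n + m) (φ ∘ₗ ψ) := by
  intro i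
  rw [LinearMap.comp_assoc, hψ i, ← LinearMap.comp_assoc, hφ (i + m), LinearMap.comp_assoc,
    show i + (n + m) = i + m + n by ring]

theorem IsDeg.zero {X Y : GrD k L} {n : ℤ} : IsDeg (X := X) (Y := Y) n 0 := by intro i; simp

theorem IsDeg.add {X Y : GrD k L} {n : ℤ} {φ ψ : X.V →ₗ[L] Y.V} (h : IsDeg n φ) (h' : IsDeg n ψ) :
    IsDeg (X := X) (Y := Y) n (φ + ψ) := by
  intro i; rw [LinearMap.add_comp, LinearMap.comp_add, h i, h' i]

theorem IsDeg.smul {X Y : GrD k L} {n : ℤ} {φ : X.V →ₗ[L] Y.V} (c : k) (h : IsDeg n φ) :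
    IsDeg (X := X) (Y := Y) n (c • φ) := by
  intro i; rw [LinearMap.smul_comp, h i]; ext x; simp

theorem IsDeg.zsmul {X Y : GrD k L} {n : ℤ} {φ : X.V →ₗ[L] Y.V} (c : ℤ) (h : IsDeg n φ) :
    IsDeg (X := X) (Y := Y) n (c • φ) := by
  intro i
  have : φ ∘ₗ X.pr i = Y.pr (i + n) ∘ₗ φ := h i
  ext x
  have hx := congrArg (fun f => f x) this
  simp only [LinearMap.comp_apply, LinearMap.smul_apply, map_zsmul] at hx ⊢
  rw [hx]

theorem IsDeg.neg {X Y : GrD k L} {n : ℤ} {φ : X.V →ₗ[L] Y.V} (h : IsDeg n φ) :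
    IsDeg (X := X) (Y := Y) n (-φ) := by
  intro i; rw [LinearMap.neg_comp, LinearMap.comp_neg, h i]

theorem IsDeg.sub {X Y : GrD k L} {n : ℤ} {φ ψ : X.V →ₗ[L] Y.V} (h : IsDeg n φ) (h' : IsDeg n ψ) :
    IsDeg (X := X) (Y := Y) n (φ - ψ) := by
  intro i; rw [LinearMap.sub_comp, LinearMap.comp_sub, h i, h' i]

theorem IsDeg.sum {X Y : GrD k L} {n : ℤ} {ι : Type*} (s : Finset ι) (φ : ι → (X.V →ₗ[L] Y.V))
    (h : ∀ i ∈ s, IsDeg (X := X) (Y := Y) n (φ i)) : IsDeg (X := X) (Y := Y) n (∑ i ∈ s, φ i) := by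
  classical
  induction s using Finset.induction_on with
  | empty => simpa using IsDeg.zero
  | insert a s ha ih =>
    rw [Finset.sum_insert ha]
    exact (h a (Finset.mem_insert_self a s)).add (ih fun i hi => h i (Finset.mem_insert_of_mem hi))

theorem IsDeg.id {X : GrD k L} : IsDeg (X := X) (Y := X) 0 LinearMap.id := by
  intro i; simp

theorem IsDeg.pr {X : GrD k L} (j : ℤ) : IsDeg (X := X) (Y := X) 0 (X.pr j) := by
  intro i
  rw [X.pr_pr, add_zero, X.pr_pr]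
  by_cases h : i = j
  · subst h; simp
  · rw [if_neg h, if_neg (Ne.symm h)]

theorem IsDeg.P {X : GrD k L} : IsDeg (X := X) (Y := X) 0 X.P :=
  IsDeg.sum _ _ fun i _ => (IsDeg.pr i).zsmul _

theorem IsDeg.d {X : GrD k L} : IsDeg (X := X) (Y := X) 1 X.d := fun i => X.d_pr i

theorem GrD.P_pr (X : GrD k L) (i : ℤ) : X.P ∘ₗ X.pr i = ((i.negOnePow : ℤˣ) : ℤ) • X.pr i := by
  by_cases hi : (X.bd : ℤ) < |i|
  · rw [X.pr_bd i hi]; simp
  · have hmem : i ∈ Finset.Icc (-(X.bd : ℤ)) X.bd := by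
      rw [Finset.mem_Icc]; exact abs_le.mp (not_lt.mp hi)
    ext x
    simp only [GrD.P, LinearMap.comp_apply, LinearMap.sum_apply, LinearMap.smul_apply]
    rw [Finset.sum_eq_single i]
    · have := congrArg (fun f => f x) (X.pr_pr i i)
      simp only [if_true, LinearMap.comp_apply] at this
      rw [this]
    · intro j _ hj
      have := congrArg (fun f => f x) (X.pr_pr j i)
      simp only [if_neg hj, LinearMap.comp_apply, LinearMap.zero_apply] at this
      rw [this, smul_zero]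
    · intro h; exact absurd hmem h

theorem GrD.ext_pr (X : GrD k L) {W : Type u} [AddCommGroup W] [Module L W] {f g : X.V →ₗ[L] W}
    (h : ∀ i, f ∘ₗ X.pr i = g ∘ₗ X.pr i) : f = g := by
  have hf : f = ∑ i ∈ Finset.Icc (-(X.bd : ℤ)) X.bd, f ∘ₗ X.pr i := by
    ext x
    have := congrArg (fun φ => f (φ x)) X.pr_sum
    simp only [LinearMap.sum_apply, LinearMap.id_apply, map_sum] at this
    simp only [LinearMap.sum_apply, LinearMap.comp_apply]
    exact this.symm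
  have hg : g = ∑ i ∈ Finset.Icc (-(X.bd : ℤ)) X.bd, g ∘ₗ X.pr i := by
    ext x
    have := congrArg (fun φ => g (φ x)) X.pr_sum
    simp only [LinearMap.sum_apply, LinearMap.id_apply, map_sum] at this
    simp only [LinearMap.sum_apply, LinearMap.comp_apply]
    exact this.symm
  rw [hf, hg]
  exact Finset.sum_congr rfl fun i _ => h i

theorem GrD.P_comp {X Y : GrD k L} {n : ℤ} {φ : X.V →ₗ[L] Y.V} (h : IsDeg (X := X) (Y := Y) n φ) :
    Y.P ∘ₗ φ = ((n.negOnePow : ℤˣ) : ℤ) • (φ ∘ₗ X.P) := by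
  apply X.ext_pr
  intro i
  rw [LinearMap.comp_assoc, h i, ← LinearMap.comp_assoc, Y.P_pr, LinearMap.smul_comp,
    LinearMap.smul_comp, LinearMap.comp_assoc, X.P_pr, LinearMap.comp_smul, h i, smul_smul,
    Int.negOnePow_add, mul_comm]
  push_cast
  ring_nf

theorem GrD.P_P (X : GrD k L) : X.P ∘ₗ X.P = LinearMap.id := by
  apply X.ext_pr
  intro i
  rw [LinearMap.comp_assoc, X.P_pr, LinearMap.comp_smul, X.P_pr, smul_smul, LinearMap.id_comp]
  have : ((i.negOnePow : ℤˣ) : ℤ) * ((i.negOnePow : ℤˣ) : ℤ) = 1 := by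
    rw [← Units.val_mul, Int.units_mul_self]; rfl
  rw [this, one_smul]

theorem GrD.P_d (X : GrD k L) : X.P ∘ₗ X.d = - (X.d ∘ₗ X.P) := by
  rw [GrD.P_comp IsDeg.d]; simp

end Deg

end

end Pool.Agent.Helper17.RZ
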