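import Pool.Agent.Helper17.RZ.St4
import Pool.Agent.Helper49.RZ.Mod

/-!
# Project RZ (MP_77656e_ag): the bridge to DG thick closures, and the main statement
-/

set_option autoImplicit false

namespace Pool.Agent.Helper17.RZ

open Pool.Agent.Helper49.RZ

universe u v

noncomputable section

/-- E1: a strict morphism which locally has a section and a contraction of the kernel is a homotopy
equivalence -/
def HEqSurj : Prop :=
  ∀ (k : Type u) [Field k] (L : Type u) [Field L] [Algebra k L] (I : Type) [LinearOrder I] [Fintype I]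
    (S : LocSys.{u, v} k L I) (X Y : S.Obj) (π : (S.G X).V →ₗ[L] (S.G Y).V),
    (∀ σ : Finset I, σ.Nonempty → π ∈ S.H X Y σ) → IsDeg (X := S.G X) (Y := S.G Y) 0 π →
    π ∘ₗ (S.G X).d = (S.G Y).d ∘ₗ π →
    (∀ σ : Finset I, σ.Nonempty → ∃ j ∈ S.H Y X σ, ∃ h ∈ S.H X X σ,
      IsDeg (X := S.G Y) (Y := S.G X) 0 j ∧ IsDeg (X := S.G X) (Y := S.G X) (-1) h ∧
      π ∘ₗ j = LinearMap.id ∧ LinearMap.id - j ∘ₗ π = (S.G X).d ∘ₗ h + h ∘ₗ (S.G X).d ∧ π ∘ₗ h = 0) →
    HEquiv S.dg X Y

/-- E1: a strict morphism which locally has a retraction and a contraction of the cokernel is a homotopy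
equivalence -/
def HEqInj : Prop :=
  ∀ (k : Type u) [Field k] (L : Type u) [Field L] [Algebra k L] (I : Type) [LinearOrder I] [Fintype I]
    (S : LocSys.{u, v} k L I) (X Y : S.Obj) (ε : (S.G X).V →ₗ[L] (S.G Y).V),
    (∀ σ : Finset I, σ.Nonempty → ε ∈ S.H X Y σ) → IsDeg (X := S.G X) (Y := S.G Y) 0 ε →
    ε ∘ₗ (S.G X).d = (S.G Y).d ∘ₗ ε →
    (∀ σ : Finset I, σ.Nonempty → ∃ r ∈ S.H Y X σ, ∃ h ∈ S.H Y Y σ,
      IsDeg (X := S.G Y) (Y := S.G X) 0 r ∧ IsDeg (X := S.G Y) (Y := S.G Y) (-1) h ∧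
      r ∘ₗ ε = LinearMap.id ∧ LinearMap.id - ε ∘ₗ r = (S.G Y).d ∘ₗ h + h ∘ₗ (S.G Y).d ∧ h ∘ₗ ε = 0) →
    HEquiv S.dg X Y

/-- E2: the thick closure in the sense of complexes is contained in the thick closure in the DG
category -/
def Bridge : Prop :=
  ∀ (k : Type u) [Field k] (K : Type u) [Field K] [Algebra k K] (Z : ProjVar k K) (E X : Cplx Z),
    Thick E X → DGThick Z.perf (fun Y => Y = E) X

/-- The main statement: for every algebraically closed field of characteristic different from 2 there is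
an integral projective variety which is not rational and whose DG category of perfect complexes is
quasi-equivalent to the DG category of perfect modules over a finite-dimensional DG algebra. -/
def Main2 : Prop :=
  ∀ (k : Type u) [Field k] [IsAlgClosed k], (2 : k) ≠ 0 →
    ∃ (K : Type u) (_ : Field K) (_ : Algebra k K) (Z : ProjVar k K) (R : DGA.{u, u} k),
      ¬ IsRationalField k K ∧ R.Fin ∧ QuasiEquivalent (Perf Z.perf) (Perf (oneObj.{u, u + 1, u} R))

end

end Pool.Agent.Helper17.RZ
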