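import Pool.Agent.Helper17.RZ.Defs

/-!
# Project RZ, statements of the modules of the nonrationality half
-/

set_option autoImplicit false

open Polynomial

namespace Pool.Agent.Helper17.RZ

universe u

/-- A1: the inclusion of polynomials in rational functions -/
noncomputable abbrev pr {F : Type u} [Field F] (P : F[X]) : RatFunc F := algebraMap F[X] (RatFunc F) P

/-- A1: similar forms are ramified at the same valuations -/
def RamSim : Prop :=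
  ∀ (F : Type u) [Field F] (V : ZVal F) (q q' : (Fin 3 → F) → F) (M : (Fin 3 → F) ≃ₗ[F] (Fin 3 → F))
    (m : F), m ≠ 0 → (∀ x, q' x = m * q (M x)) → Ram V q' → Ram V q

/-- A1: valuations vanish on an algebraically closed subfield -/
def ValConst : Prop :=
  ∀ (k : Type u) [Field k] [IsAlgClosed k] (F : Type u) [Field F] [Algebra k F] (V : ZVal F) (c : k),
    c ≠ 0 → V.v (algebraMap k F c) = 0

/-- A1: transport along a field isomorphism -/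
def PPEquiv : Prop :=
  ∀ (F F' : Type u) [Field F] [Field F'] (_ : F ≃+* F'), PP F → PP F'

/-- A2: the `p`-adic valuation of `F(t)` -/
def Padic : Prop :=
  ∀ (F : Type u) [Field F] (p : F[X]), Irreducible p → ∃ V : ZVal (RatFunc F),
    (∀ P : F[X], P ≠ 0 → 0 ≤ V.v (pr P)) ∧
    (∀ P : F[X], P ≠ 0 → ∀ n : ℕ, ((n : ℤ) ≤ V.v (pr P) ↔ p ^ n ∣ P)) ∧
    (∀ u : RatFunc F, u ≠ 0 → 0 ≤ V.v u → ∃ l : F[X], V.Ge 1 (u - pr l))

/-- A3: the Gauss extension of a valuation to `F(t)` -/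
def Gauss : Prop :=
  ∀ (F : Type u) [Field F] (V : ZVal F), ∃ V' : ZVal (RatFunc F),
    ∀ P : F[X], P ≠ 0 → (∀ i, P.coeff i ≠ 0 → V'.v (pr P) ≤ V.v (P.coeff i)) ∧
      ∃ i, P.coeff i ≠ 0 ∧ V'.v (pr P) = V.v (P.coeff i)

/-- A3: ramification passes to the Gauss extension -/
def RamGauss : Prop :=
  ∀ (k : Type u) [Field k] [IsAlgClosed k] (F : Type u) [Field F] [Algebra k F] (V : ZVal F) (a b c : F),
    a ≠ 0 → b ≠ 0 → c ≠ 0 → Ram V (dg a b c) → ∃ V' : ZVal (RatFunc F),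
      Ram V' (dg (pr (C a)) (pr (C b)) (pr (C c)))

/-- A4: normal form of a diagonal ternary form over `F(t)` -/
def NormForm : Prop :=
  ∀ (F : Type u) [Field F] (a b c : RatFunc F), a ≠ 0 → b ≠ 0 → c ≠ 0 →
    ∃ (A B C : F[X]) (m s₁ s₂ s₃ : RatFunc F), A ≠ 0 ∧ B ≠ 0 ∧ C ≠ 0 ∧ m ≠ 0 ∧ s₁ ≠ 0 ∧ s₂ ≠ 0 ∧ s₃ ≠ 0 ∧
      Squarefree A ∧ Squarefree B ∧ Squarefree C ∧ IsCoprime A B ∧ IsCoprime A C ∧ IsCoprime B C ∧
      pr A = m * a * s₁ ^ 2 ∧ pr B = m * b * s₂ ^ 2 ∧ pr C = m * c * s₃ ^ 2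

/-- A5: an unramified form is isotropic modulo its coefficients -/
def LocalSq : Prop :=
  ∀ (F : Type u) [Field F] (A B C : F[X]), A ≠ 0 → B ≠ 0 → C ≠ 0 → Squarefree C →
    IsCoprime A C → IsCoprime B C → (∀ V : ZVal (RatFunc F), ¬ Ram V (dg (pr A) (pr B) (pr C))) →
    ∃ l : F[X], C ∣ A * l ^ 2 + B

/-- A6: the lattice argument, unequal parities -/
def Lattice1 : Prop :=
  ∀ (F : Type u) [Field F] (A B C lA lB lC : F[X]), A ≠ 0 → B ≠ 0 → C ≠ 0 →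
    IsCoprime A B → IsCoprime A C → IsCoprime B C →
    C ∣ A * lC ^ 2 + B → A ∣ B * lA ^ 2 + C → B ∣ C * lB ^ 2 + A →
    ¬ (A.natDegree % 2 = B.natDegree % 2 ∧ B.natDegree % 2 = C.natDegree % 2) →
    ∃ x y z : F[X], ¬ (x = 0 ∧ y = 0 ∧ z = 0) ∧ A * x ^ 2 + B * y ^ 2 + C * z ^ 2 = 0

/-- A6: the lattice argument, equal parities -/
def Lattice2 : Prop :=
  ∀ (F : Type u) [Field F] (_ : (2 : F) ≠ 0) (A B C lA lB lC : F[X]), A ≠ 0 → B ≠ 0 → C ≠ 0 →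
    IsCoprime A B → IsCoprime A C → IsCoprime B C →
    C ∣ A * lC ^ 2 + B → A ∣ B * lA ^ 2 + C → B ∣ C * lB ^ 2 + A →
    A.natDegree % 2 = B.natDegree % 2 → B.natDegree % 2 = C.natDegree % 2 →
    (∃ x y z : F[X], ¬ (x = 0 ∧ y = 0 ∧ z = 0) ∧ A * x ^ 2 + B * y ^ 2 + C * z ^ 2 = 0) ∨
    ∃ (w : Fin 3 → Fin 3 → F[X]) (c : Fin 3 → F), (∀ i, c i ≠ 0) ∧
      (∀ i j, A * w i 0 * w j 0 + B * w i 1 * w j 1 + C * w i 2 * w j 2 =
        if i = j then A * B * C * Polynomial.C (c i) else 0) ∧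
      (∀ x : Fin 3 → F, x ≠ 0 → dg (c 0) (c 1) (c 2) x ≠ 0)

/-- A7: the induction step -/
def StepPP : Prop :=
  ∀ (k : Type u) [Field k] [IsAlgClosed k] (_ : (2 : k) ≠ 0) (F : Type u) [Field F] [Algebra k F],
    PP F → PP (RatFunc F)

/-- A8: purely transcendental extensions of `k` -/
def PPRat : Prop :=
  ∀ (k : Type u) [Field k] [IsAlgClosed k] (_ : (2 : k) ≠ 0) (n : ℕ),
    PP (FractionRing (MvPolynomial (Fin n) k))

/-- A9: the form of the example is ramified nowhere.  The relations are those of the example: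
`b s = t s ^ 2`, `c s = m s ^ 2`, `b s - c s = 1` and four products which are squares. -/
def UnramK : Prop :=
  ∀ (K : Type u) [Field K] (_ : (2 : K) ≠ 0) (i : K) (_ : i ^ 2 = -1) (b c p : Fin 4 → K),
    (∀ s, b s ≠ 0) → (∀ s, c s ≠ 0) → (∀ s, b s - c s = 1) →
    b 0 * b 1 * b 2 = p 0 ^ 2 → c 0 * c 1 * c 2 = p 1 ^ 2 → b 0 * c 1 * b 3 = p 2 ^ 2 →
    c 0 * b 1 * c 1 * c 3 = p 3 ^ 2 →
    ∀ V : ZVal K, V.v 2 = 0 → ¬ Ram V (dg 1 (-b 0) (-b 1))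

end Pool.Agent.Helper17.RZ
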