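import Pool.Agent.Helper17.RZ.LocCat

/-!
# Project RZ (MP_77656e_ag): statements of the general DG modules
-/

set_option autoImplicit false

namespace Pool.Agent.Helper17.RZ

universe u v

noncomputable section

/-- composition with `ε : X → Y` after endomorphisms of `X` is injective and surjective on cohomology -/
def QPost {k : Type u} [Field k] (C : DGCat.{u, v, u} k) (X Y : C.Obj) (ε : C.Hom X Y 0) : Prop :=
  (∀ (l n m : ℤ) (h₁ : l + 1 = n) (h₂ : n + 1 = m) (x : C.Hom X X n) (y : C.Hom X Y l), C.d h₂ x = 0 →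
      C.comp (zero_add n) ε x = C.d h₁ y → ∃ z : C.Hom X X l, x = C.d h₁ z) ∧
  (∀ (l n m : ℤ) (h₁ : l + 1 = n) (h₂ : n + 1 = m) (y : C.Hom X Y n), C.d h₂ y = 0 →
      ∃ (x : C.Hom X X n) (z : C.Hom X Y l), C.d h₂ x = 0 ∧ y = C.comp (zero_add n) ε x + C.d h₁ z)

/-- composition with `ε : X → Y` before endomorphisms of `Y` is injective and surjective on cohomology -/
def QPre {k : Type u} [Field k] (C : DGCat.{u, v, u} k) (X Y : C.Obj) (ε : C.Hom X Y 0) : Prop :=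
  (∀ (l n m : ℤ) (h₁ : l + 1 = n) (h₂ : n + 1 = m) (x : C.Hom Y Y n) (y : C.Hom X Y l), C.d h₂ x = 0 →
      C.comp (add_zero n) x ε = C.d h₁ y → ∃ z : C.Hom Y Y l, x = C.d h₁ z) ∧
  (∀ (l n m : ℤ) (h₁ : l + 1 = n) (h₂ : n + 1 = m) (y : C.Hom X Y n), C.d h₂ y = 0 →
      ∃ (x : C.Hom Y Y n) (z : C.Hom X Y l), C.d h₂ x = 0 ∧ y = C.comp (add_zero n) x ε + C.d h₁ z)

/-- B1 -/
def EndQ : Prop :=
  ∀ (k : Type u) [Field k] (C : DGCat.{u, v, u} k) (X Y : C.Obj) (ε : C.Hom X Y 0), C.d (zero_add 1) ε = 0 →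
    QPost C X Y ε → QPre C X Y ε → DGA.QEquiv (C.End X) (C.End Y)

variable {k : Type u} [Field k] {L : Type u} [Field L] [Algebra k L] {I : Type} [LinearOrder I]

/-- `ε` is a morphism of complexes which is a homotopy equivalence locally (with a retraction) -/
def LocHEq (S : LocSys.{u, v} k L I) (X Y : S.Obj) (ε : (S.G X).V →ₗ[L] (S.G Y).V) : Prop :=
  (∀ σ : Finset I, σ.Nonempty → ε ∈ S.H X Y σ) ∧ IsDeg (X := S.G X) (Y := S.G Y) 0 ε ∧
  ε ∘ₗ (S.G X).d = (S.G Y).d ∘ₗ ε ∧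
  ∀ σ : Finset I, σ.Nonempty → ∃ r ∈ S.H Y X σ, ∃ h ∈ S.H Y Y σ,
    IsDeg (X := S.G Y) (Y := S.G X) 0 r ∧ IsDeg (X := S.G Y) (Y := S.G Y) (-1) h ∧
    r ∘ₗ (S.G Y).d = (S.G X).d ∘ₗ r ∧ r ∘ₗ ε = LinearMap.id ∧
    LinearMap.id - ε ∘ₗ r = (S.G Y).d ∘ₗ h + h ∘ₗ (S.G Y).d

/-- B2: a local homotopy equivalence gives quasi-isomorphic DG algebras of endomorphisms -/
def LocGlob : Prop :=
  ∀ (k : Type u) [Field k] (L : Type u) [Field L] [Algebra k L] (I : Type) [LinearOrder I] [Fintype I]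
    (S : LocSys.{u, v} k L I) (X Y : S.Obj) (ε : (S.G X).V →ₗ[L] (S.G Y).V), LocHEq S X Y ε →
    DGA.QEquiv (S.dg.End X) (S.dg.End Y)

/-- homogeneous global endomorphisms of degree `n` -/
def LocSys.gl (S : LocSys.{u, v} k L I) (X : S.Obj) (n : ℤ) : Submodule k ((S.G X).V →ₗ[L] (S.G X).V) where
  carrier := {φ | φ ∈ S.H X X ∅ ∧ IsDeg (X := S.G X) (Y := S.G X) n φ}
  add_mem' := fun ha hb => ⟨(S.H X X ∅).add_mem ha.1 hb.1, ha.2.add hb.2⟩
  zero_mem' := ⟨(S.H X X ∅).zero_mem, IsDeg.zero⟩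
  smul_mem' := fun c _ h => ⟨(S.H X X ∅).smul_mem c h.1, h.2.smul c⟩

theorem smul_lcomp {U V W : Type u} [AddCommGroup U] [AddCommGroup V] [AddCommGroup W]
    [Module L U] [Module L V] [Module L W] [Module k U] [Module k V] [Module k W] [IsScalarTower k L U]
    [IsScalarTower k L V] [IsScalarTower k L W] (f : V →ₗ[L] W) (g : U →ₗ[L] V) (r : k) :
    f ∘ₗ (r • g) = r • (f ∘ₗ g) := by
  ext x
  simp only [LinearMap.comp_apply, LinearMap.smul_apply]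
  rw [← algebraMap_smul L r, ← algebraMap_smul L r, map_smul]

/-- The DG algebra of global endomorphisms `H X X ∅` (no Cech cochains) with the differential
`φ ↦ d φ - (-1)^n φ d`. -/
def LocSys.glob (S : LocSys.{u, v} k L I) (X : S.Obj) : DGA.{u, u} k where
  R n := S.gl X n
  one := ⟨LinearMap.id, S.id_mem X ∅, IsDeg.id⟩
  mul {n m l} h := LinearMap.mk₂ k
    (fun (a : S.gl X n) (b : S.gl X m) => (⟨a.1 ∘ₗ b.1, S.comp_mem X X X ∅ _ _ a.2.1 b.2.1, by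
      have := a.2.2.comp b.2.2; rw [h] at this; exact this⟩ : S.gl X l))
    (fun a b c => Subtype.ext (LinearMap.add_comp _ _ _))
    (fun r a c => Subtype.ext (LinearMap.smul_comp _ _ _))
    (fun a b c => Subtype.ext (LinearMap.comp_add _ _ _))
    (fun r a c => Subtype.ext (smul_lcomp a.1 c.1 r))
  d {n m} h :=
    { toFun := fun a => ⟨(S.G X).d ∘ₗ a.1 - ((n.negOnePow : ℤˣ) : ℤ) • (a.1 ∘ₗ (S.G X).d), by
        refine ⟨Submodule.sub_mem _ (S.comp_mem X X X ∅ _ _ (S.d_mem X ∅) a.2.1)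
          (zsmul_mem (S.comp_mem X X X ∅ _ _ a.2.1 (S.d_mem X ∅)) _), ?_⟩
        refine IsDeg.sub ?_ (IsDeg.zsmul _ ?_)
        · have := (IsDeg.d (X := S.G X)).comp a.2.2; rw [add_comm, h] at this; exact this
        · have := a.2.2.comp (IsDeg.d (X := S.G X)); rw [h] at this; exact this⟩
      map_add' := fun a b => Subtype.ext (by
        change (S.G X).d ∘ₗ (a.1 + b.1) - _ • ((a.1 + b.1) ∘ₗ (S.G X).d) = _
        rw [LinearMap.comp_add, LinearMap.add_comp, smul_add]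
        change _ = ((S.G X).d ∘ₗ a.1 - _ • (a.1 ∘ₗ (S.G X).d)) + ((S.G X).d ∘ₗ b.1 - _ • (b.1 ∘ₗ (S.G X).d))
        abel)
      map_smul' := fun r a => Subtype.ext (by
        change (S.G X).d ∘ₗ (r • a.1) - _ • ((r • a.1) ∘ₗ (S.G X).d) =
          r • ((S.G X).d ∘ₗ a.1 - _ • (a.1 ∘ₗ (S.G X).d))
        rw [smul_lcomp, LinearMap.smul_comp, smul_sub, smul_comm]) }
  one_mul h f := Subtype.ext (LinearMap.id_comp _)
  mul_one h f := Subtype.ext (LinearMap.comp_id _)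
  assoc h₁ h₂ h₃ h₄ f g h := Subtype.ext (LinearMap.comp_assoc _ _ _)
  d_d {n m l} h₁ h₂ f := Subtype.ext (by
    change (S.G X).d ∘ₗ ((S.G X).d ∘ₗ f.1 - ((n.negOnePow : ℤˣ) : ℤ) • (f.1 ∘ₗ (S.G X).d)) -
      ((m.negOnePow : ℤˣ) : ℤ) • (((S.G X).d ∘ₗ f.1 - ((n.negOnePow : ℤˣ) : ℤ) • (f.1 ∘ₗ (S.G X).d)) ∘ₗ (S.G X).d) = 0
    subst h₁
    have hdd : (S.G X).d ∘ₗ ((S.G X).d ∘ₗ f.1) = 0 := by
      rw [← LinearMap.comp_assoc, (S.G X).d_d, LinearMap.zero_comp]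
    have hs : (((n + 1).negOnePow : ℤˣ) : ℤ) = - ((n.negOnePow : ℤˣ) : ℤ) := by
      rw [Int.negOnePow_succ]; simp
    rw [hs]
    simp only [LinearMap.comp_sub, LinearMap.sub_comp, LinearMap.comp_smul, LinearMap.smul_comp, hdd,
      LinearMap.comp_assoc, (S.G X).d_d, LinearMap.comp_zero, smul_zero, neg_smul, sub_zero]
    abel)
  d_mul {n m l n' m' l'} h hl hn hm h₁ h₂ f g := Subtype.ext (by
    change (S.G X).d ∘ₗ (f.1 ∘ₗ g.1) - ((l.negOnePow : ℤˣ) : ℤ) • ((f.1 ∘ₗ g.1) ∘ₗ (S.G X).d) =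
      ((S.G X).d ∘ₗ f.1 - ((n.negOnePow : ℤˣ) : ℤ) • (f.1 ∘ₗ (S.G X).d)) ∘ₗ g.1 +
      ((n.negOnePow : ℤˣ) : ℤ) • (f.1 ∘ₗ ((S.G X).d ∘ₗ g.1 - ((m.negOnePow : ℤˣ) : ℤ) • (g.1 ∘ₗ (S.G X).d)))
    subst h
    rw [Int.negOnePow_add]
    simp only [LinearMap.comp_sub, LinearMap.sub_comp, LinearMap.comp_smul, LinearMap.smul_comp,
      LinearMap.comp_assoc, smul_sub, smul_smul, Units.val_mul]
    abel)

/-- B3: if global endomorphisms are the Cech cohomology of the local endomorphisms in degree zero and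
there is no higher cohomology, then the Cech DG algebra is quasi-isomorphic to the DG algebra of global
endomorphisms. -/
def GlobQ : Prop :=
  ∀ (k : Type u) [Field k] (L : Type u) [Field L] [Algebra k L] (I : Type) [LinearOrder I] [Fintype I]
    (S : LocSys.{u, v} k L I) (X : S.Obj), (∀ σ, S.H X X ∅ ≤ S.H X X σ) →
    (∀ (m : ℤ) (c : Finset I → ((S.G X).V →ₗ[L] (S.G X).V)),
      (∀ σ, c σ ∈ S.H X X σ ∧ IsDeg (X := S.G X) (Y := S.G X) m (c σ)) → (∀ σ, cdel c σ = 0) →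
      ∃ b : Finset I → ((S.G X).V →ₗ[L] (S.G X).V),
        (∀ σ, b σ ∈ S.H X X σ ∧ IsDeg (X := S.G X) (Y := S.G X) m (b σ)) ∧ ∀ σ, cdel b σ = c σ) →
    DGA.QEquiv (S.dg.End X) (S.glob X)

end

end Pool.Agent.Helper17.RZ
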