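import Pool.Agent.Helper17.RZ.Lines

/-!
# Project RZ (MP_77656e_ag): statements of the modules on generation of the category of perfect complexes
-/

set_option autoImplicit false

namespace Pool.Agent.Helper17.RZ

universe u v

noncomputable section

/-- C1: localisation of functions -/
def LocFun : Prop :=
  ∀ (k : Type u) [Field k] (K : Type u) [Field K] [Algebra k K] (Z : ProjVar k K) (σ τ : Finset Z.I),
    σ.Nonempty → σ ⊆ τ → ∀ c ∈ Z.A τ, ∃ g : K, g ≠ 0 ∧ g ∈ Z.A σ ∧ g⁻¹ ∈ Z.A τ ∧ g * c ∈ Z.A σ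

/-- C1: localisation of sections -/
def LocVec : Prop :=
  ∀ (k : Type u) [Field k] (K : Type u) [Field K] [Algebra k K] (Z : ProjVar k K) (X : Cplx Z)
    (σ τ : Finset Z.I), σ.Nonempty → σ ⊆ τ → ∀ v ∈ X.lat τ,
    ∃ g : K, g ≠ 0 ∧ g ∈ Z.A σ ∧ g⁻¹ ∈ Z.A τ ∧ g • v ∈ X.lat σ

/-- C2: lifting property of bundles over affine open subsets -/
def LiftLem : Prop :=
  ∀ (k : Type u) [Field k] (K : Type u) [Field K] [Algebra k K] (Z : ProjVar k K) (X : Cplx Z)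
    (σ : Finset Z.I), σ.Nonempty → ∀ (U W : Type u) [AddCommGroup U] [AddCommGroup W] [Module K U]
    [Module K W] (lU : Submodule (Z.A σ) U) (lW : Submodule (Z.A σ) W) (g : U →ₗ[K] W)
    (φ : X.V →ₗ[K] W), (∀ v ∈ X.lat σ, φ v ∈ lW) → (∀ w ∈ lW, ∃ x ∈ lU, g x = w) →
    ∃ ψ : X.V →ₗ[K] U, (∀ v ∈ X.lat σ, ψ v ∈ lU) ∧ g ∘ₗ ψ = φ

/-- C3: the kernel of a surjection of bundles in degree 0 -/
def KerEx : Prop :=
  ∀ (k : Type u) [Field k] (K : Type u) [Field K] [Algebra k K] (Z : ProjVar k K) (X V : Cplx Z)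
    (π : X.V →ₗ[K] V.V), X.Conc0 → V.Conc0 →
    (∀ σ : Finset Z.I, σ.Nonempty → ∀ w, w ∈ V.lat σ ↔ ∃ x ∈ X.lat σ, π x = w) →
    ∃ (Y : Cplx Z) (j : Y.V →ₗ[K] X.V), Y.Conc0 ∧ Function.Injective j ∧ (∀ x, π x = 0 ↔ ∃ y, j y = x) ∧
      ∀ σ : Finset Z.I, σ.Nonempty → ∀ y, j y ∈ X.lat σ ↔ y ∈ Y.lat σ

/-- C4: the cone of a strict morphism -/
def ConeEx : Prop :=
  ∀ (k : Type u) [Field k] (K : Type u) [Field K] [Algebra k K] (Z : ProjVar k K) (X Y : Cplx Z)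
    (f : X.V →ₗ[K] Y.V), IsDeg (X := X.toGrD) (Y := Y.toGrD) 0 f → f ∘ₗ X.d = Y.d ∘ₗ f →
    (∀ σ : Finset Z.I, σ.Nonempty → ∀ x, x ∈ X.lat σ → f x ∈ Y.lat σ) →
    ∃ (C : Cplx Z) (e : C.V ≃ₗ[K] (X.V × Y.V)),
      (∀ i v, e (C.pr i v) = (X.pr (i + 1) (e v).1, Y.pr i (e v).2)) ∧
      (∀ v, e (C.d v) = (-X.d (e v).1, f (e v).1 + Y.d (e v).2)) ∧
      (∀ σ : Finset Z.I, σ.Nonempty → ∀ v, v ∈ C.lat σ ↔ (e v).1 ∈ X.lat σ ∧ (e v).2 ∈ Y.lat σ)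

/-- C4: the cone is an extension -/
def ConeSES : Prop :=
  ∀ (k : Type u) [Field k] (K : Type u) [Field K] [Algebra k K] (Z : ProjVar k K) (X Y C : Cplx Z)
    (f : X.V →ₗ[K] Y.V) (e : C.V ≃ₗ[K] (X.V × Y.V)),
      (∀ i v, e (C.pr i v) = (X.pr (i + 1) (e v).1, Y.pr i (e v).2)) →
      (∀ v, e (C.d v) = (-X.d (e v).1, f (e v).1 + Y.d (e v).2)) →
      (∀ σ : Finset Z.I, σ.Nonempty → ∀ v, v ∈ C.lat σ ↔ (e v).1 ∈ X.lat σ ∧ (e v).2 ∈ Y.lat σ) →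
      IsSES Y C (X.shift 1)

/-- C4: strictly isomorphic complexes are retracts of each other -/
def IsoRetr : Prop :=
  ∀ (k : Type u) [Field k] (K : Type u) [Field K] [Algebra k K] (Z : ProjVar k K) (X Y : Cplx Z)
    (i : Y.V →ₗ[K] X.V) (p : X.V →ₗ[K] Y.V), IsDeg (X := Y.toGrD) (Y := X.toGrD) 0 i →
    IsDeg (X := X.toGrD) (Y := Y.toGrD) 0 p → i ∘ₗ Y.d = X.d ∘ₗ i → p ∘ₗ X.d = Y.d ∘ₗ p →
    (∀ σ : Finset Z.I, σ.Nonempty → ∀ y ∈ Y.lat σ, i y ∈ X.lat σ) →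
    (∀ σ : Finset Z.I, σ.Nonempty → ∀ x ∈ X.lat σ, p x ∈ Y.lat σ) → p ∘ₗ i = LinearMap.id →
    Z.perf.Retract Y X

/-- C5: truncation: splitting off the lowest degree `i` -/
def TrunEx : Prop :=
  ∀ (k : Type u) [Field k] (K : Type u) [Field K] [Algebra k K] (Z : ProjVar k K) (X : Cplx Z) (i : ℤ),
    (∀ j, j < i → X.pr j = 0) → ∃ X' X'' : Cplx Z, IsSES X' X X'' ∧ (∀ j, j ≤ i → X'.pr j = 0) ∧
      (∀ j, X.pr j = 0 → X'.pr j = 0) ∧ (X''.shift i).Conc0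

/-- C6: sums of line bundles -/
def LinesThick : Prop :=
  ∀ (k : Type u) [Field k] (K : Type u) [Field K] [Algebra k K] (Z : ProjVar k K) (E : Cplx Z)
    (ι : Type) [Fintype ι] (u : ι → Z.I → K) (hu : ∀ e i, u e i ≠ 0)
    (hc : ∀ e i j, u e i / u e j ∈ Z.A {i, j}),
    (∀ e, Thick E (Z.lines (Fin 1) (fun _ => u e) (fun _ => hu e) (fun _ => hc e))) →
    Thick E (Z.lines ι u hu hc)

/-- C6: a summand of a sum of line bundles -/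
def LinesSummand : Prop :=
  ∀ (k : Type u) [Field k] (K : Type u) [Field K] [Algebra k K] (Z : ProjVar k K) (E : Cplx Z)
    (ι : Type) [Fintype ι] (u : ι → Z.I → K) (hu : ∀ e i, u e i ≠ 0)
    (hc : ∀ e i j, u e i / u e j ∈ Z.A {i, j}), Thick E (Z.lines ι u hu hc) →
    ∀ e, Thick E (Z.lines (Fin 1) (fun _ => u e) (fun _ => hu e) (fun _ => hc e))

/-- `X → V` is a resolution up to degree `-n` -/
def IsRes {k : Type u} [Field k] {K : Type u} [Field K] [Algebra k K] {Z : ProjVar k K} (X V : Cplx Z)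
    (π : X.V →ₗ[K] V.V) (n : ℕ) : Prop :=
  (∀ j : ℤ, 0 < j → X.pr j = 0) ∧ (∀ j : ℤ, j ≠ 0 → π ∘ₗ X.pr j = 0) ∧ π ∘ₗ X.d = 0 ∧
  ∀ σ : Finset Z.I, σ.Nonempty → (∀ x ∈ X.lat σ, π x ∈ V.lat σ) ∧
    (∀ w ∈ V.lat σ, ∃ x ∈ X.lat σ, X.pr 0 x = x ∧ π x = w) ∧
    ∀ j : ℤ, -(n : ℤ) < j → ∀ x ∈ X.lat σ, X.pr j x = x → X.d x = 0 → (j = 0 → π x = 0) →
      ∃ y ∈ X.lat σ, X.pr (j - 1) y = y ∧ X.d y = x

/-- enough bundles of `Thick E` mapping onto every bundle -/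
def Enough {k : Type u} [Field k] {K : Type u} [Field K] [Algebra k K] {Z : ProjVar k K}
    (E : Cplx Z) : Prop :=
  ∀ V : Cplx Z, V.Conc0 → ∃ (P : Cplx Z) (π : P.V →ₗ[K] V.V), P.Conc0 ∧ Thick E P ∧
    ∀ σ : Finset Z.I, σ.Nonempty → ∀ w, w ∈ V.lat σ ↔ ∃ x ∈ P.lat σ, π x = w

/-- C7: resolutions -/
def ResEx : Prop :=
  ∀ (k : Type u) [Field k] (K : Type u) [Field K] [Algebra k K] (Z : ProjVar k K) (E : Cplx Z),
    Enough E → ∀ (n : ℕ) (V : Cplx Z), V.Conc0 → ∃ (X : Cplx Z) (π : X.V →ₗ[K] V.V),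
      Thick E X ∧ IsRes X V π n

/-- C8: a bundle is a retract of a long resolution -/
def RetrEx : Prop :=
  ∀ (k : Type u) [Field k] (K : Type u) [Field K] [Algebra k K] (Z : ProjVar k K) (X V : Cplx Z)
    (π : X.V →ₗ[K] V.V) (n : ℕ), V.Conc0 → IsRes X V π n → Fintype.card Z.I ≤ n → Z.perf.Retract V X

/-- C9: generation -/
def GenAll : Prop :=
  ∀ (k : Type u) [Field k] (K : Type u) [Field K] [Algebra k K] (Z : ProjVar k K) (E : Cplx Z),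
    Enough E → ∀ X : Cplx Z, Thick E X

/-- `R` copies of the line bundle `O(-N)` -/
def ProjVar.ON {k : Type u} [Field k] {K : Type u} [Field K] [Algebra k K] (Z : ProjVar k K)
    (N R : ℕ) : Cplx Z :=
  Z.lines (Fin R) (fun _ i => (Z.a i ^ N)⁻¹) (fun _ i => inv_ne_zero (pow_ne_zero N (Z.a_ne i)))
    (fun _ i j => by
      have h : (Z.a i ^ N)⁻¹ / (Z.a j ^ N)⁻¹ = (Z.a j / Z.a i) ^ N := by
        rw [div_pow]; field_simp
      rw [h]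
      exact (Z.A {i, j}).pow_mem (Algebra.subset_adjoin ⟨i, by simp, j, rfl⟩) N)

/-- C10: every bundle is a quotient of copies of `O(-N)`, `N` large -/
def Amp : Prop :=
  ∀ (k : Type u) [Field k] (K : Type u) [Field K] [Algebra k K] (Z : ProjVar k K) (V : Cplx Z),
    V.Conc0 → ∃ N₀ : ℕ, ∀ N : ℕ, N₀ ≤ N → ∃ (R : ℕ) (π : (Z.ON N R).V →ₗ[K] V.V),
      ∀ σ : Finset Z.I, σ.Nonempty → ∀ w, w ∈ V.lat σ ↔ ∃ x ∈ (Z.ON N R).lat σ, π x = w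

end

end Pool.Agent.Helper17.RZ
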