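import Pool.Agent.Helper17.RZ.Ex
import Pool.Agent.Helper17.RZ.St2
import Pool.Agent.Helper17.RZ.St3

/-!
# Project RZ (MP_77656e_ag): statements of the modules on the example
-/

set_option autoImplicit false

open MvPolynomial
open scoped Kronecker

namespace Pool.Agent.Helper17.RZ

universe u v

noncomputable section

/-- D0: facts on homogeneous elements: a quotient with denominator a power of a homogeneous form has a
homogeneous numerator -/
def HomNum : Prop :=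
  ∀ (k : Type u) [Field k] (h : SS k) (e : Fin 4 → ℕ), h ≠ 0 → IsWeightedHomogeneous wt h e →
    ∀ (d : Fin 4 → ℤ) (x : LL k), x ∈ HD k d → x ∈ Dn k h → ∀ M : ℕ, ∃ (N : ℕ) (g : SS k) (f : Fin 4 → ℕ),
      M ≤ N ∧ IsWeightedHomogeneous wt g f ∧ (x = 0 ∨ ∀ s, (f s : ℤ) = d s + N * e s) ∧
      x * al k h ^ N = al k g

/-- D0: elements with denominators powers of `h u` and of `h v`, `u, v` coprime, have denominators powers
of `h` -/
def DnInter : Prop :=
  ∀ (k : Type u) [Field k] (h p q : SS k), h ≠ 0 → p ≠ 0 → q ≠ 0 → IsRelPrime p q →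
    Dn k (h * p) ⊓ Dn k (h * q) ≤ Dn k h

/-- D1: invariant functions on the charts -/
def InvThm : Prop :=
  ∀ (k : Type u) [Field k], (2 : k) ≠ 0 → ∀ σ : Finset GW, σ.Nonempty → ∀ x : LL k,
    (x ∈ HD k (fun _ => 0) ∧ x ∈ Dn k (fs k σ) ∧ ∀ a, ga k a x = x) ↔
      ∃ y ∈ (ZZ k).A σ, (y : LL k) = x

/-- D2: the functions `b_s/a_s` define line bundles -/
def UUAll : Prop := ∀ (k : Type u) [Field k], (2 : k) ≠ 0 → UU k

/-- D2: local generators of the lattices in terms of homogeneous elements: a function `x` belongs to the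
lattice of `O(d)` over `σ` iff `x` times the product of `a_s ^ d_s` is homogeneous of degree `4 d` with
denominator a power of `fs σ` -/
def LatHom : Prop :=
  ∀ (k : Type u) [Field k], (2 : k) ≠ 0 → ∀ (hU : UU k) (ι : Type) [Fintype ι] (t : ι → Fin 4 → ℤ)
    (σ : Finset GW), σ.Nonempty → ∀ v : ι → K0 k, v ∈ (ZL k hU ι t).lat σ ↔
      ∀ e, (v e : LL k) * ∏ s, al k (lt k s 0) ^ (t e s) ∈ HD k (fun s => 4 * t e s) ∧
        (v e : LL k) * ∏ s, al k (lt k s 0) ^ (t e s) ∈ Dn k (fs k σ)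

/-- D3: the DG algebra of endomorphisms of the generator, in terms of equivariant complexes -/
def EndIso : Prop :=
  ∀ (k : Type u) [Field k], (2 : k) ≠ 0 → ∀ hU : UU k,
    DGA.QEquiv ((ZZ k).perf.End (EZ k hU)) ((ysys k).dg.End (EY k))

/-- homogeneous matrices over a chart, without equivariance -/
def MHom {k : Type u} [Field k] (X Y : YObj k) (h : SS k) (n : ℤ) (M : Matrix Y.J X.J (LL k)) : Prop :=
  ∀ i j, M i j ∈ HD k (fun s => Y.tw i s - X.tw j s) ∧ M i j ∈ Dn k h ∧ (M i j ≠ 0 → Y.gr i = X.gr j + n)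

/-- the differential as a matrix over the field of fractions -/
def dmL {k : Type u} [Field k] (X : YObj k) : Matrix X.J X.J (LL k) := X.dm.map (algebraMap (SS k) (LL k))

/-- homotopy equivalence (with a retraction) over a chart, without equivariance -/
def HEq0 {k : Type u} [Field k] (X Y : YObj k) (ε : Matrix Y.J X.J (LL k)) (h : SS k) : Prop :=
  MHom X Y h 0 ε ∧ ε * dmL X = dmL Y * ε ∧ ∃ (r : Matrix X.J Y.J (LL k)) (t : Matrix Y.J Y.J (LL k)),
    MHom Y X h 0 r ∧ MHom Y Y h (-1) t ∧ r * dmL Y = dmL X * r ∧ r * ε = 1 ∧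
    1 - ε * r = dmL Y * t + t * dmL Y

/-- D4a: every nonempty chart is contained in the complement of the zeros of a linear form
`x_s + κ y_s`, for each `s` -/
def LinFac : Prop :=
  ∀ (k : Type u) [Field k] [IsAlgClosed k] (σ : Finset GW), σ.Nonempty → ∀ s : Fin 4,
    ∃ κ : k, (X (s, false) + C κ * X (s, true) : SS k) ∣ fs k σ

/-- D4b: the factor resolution is a homotopy equivalence where a linear form is invertible -/
def FacHEq : Prop :=
  ∀ (k : Type u) [Field k] (s : Fin 4) (κ : k) (h : SS k), h ≠ 0 →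
    (X (s, false) + C κ * X (s, true) : SS k) ∣ h →
    HEq0 (EF k s) (QF k s) (qeps (al k (X (s, false))) (al k (X (s, true)))) h

/-- D4c: tensor products of homotopy equivalences -/
def TensHEq : Prop :=
  ∀ (k : Type u) [Field k] (X Y X' Y' : YObj k) (ε : Matrix Y.J X.J (LL k)) (ε' : Matrix Y'.J X'.J (LL k))
    (h : SS k), HEq0 X Y ε h → HEq0 X' Y' ε' h → HEq0 (X.tens X') (Y.tens Y') (ε ⊗ₖ ε') h

/-- conjugation by the generator `a` of the group -/
def TT {k : Type u} [Field k] (X Y : YObj k) (a : Fin 4) (φ : X.G.V →ₗ[LL k] Y.G.V) :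
    X.G.V →ₗ[LL k] Y.G.V :=
  YObj.lin ((Y.rho a).map (algebraMap k (LL k)) * (YObj.mat φ).map (ga k a) *
    ((X.rho a)⁻¹).map (algebraMap k (LL k)))

/-- averaging over one generator -/
def av1 {k : Type u} [Field k] (X Y : YObj k) (a : Fin 4) (φ : X.G.V →ₗ[LL k] Y.G.V) :
    X.G.V →ₗ[LL k] Y.G.V := (2 : k)⁻¹ • (φ + TT X Y a φ)

/-- averaging over the group -/
def av {k : Type u} [Field k] (X Y : YObj k) (φ : X.G.V →ₗ[LL k] Y.G.V) : X.G.V →ₗ[LL k] Y.G.V :=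
  av1 X Y 0 (av1 X Y 1 (av1 X Y 2 (av1 X Y 3 φ)))

/-- D5: the averaging operator -/
def AvLem : Prop :=
  ∀ (k : Type u) [Field k], (2 : k) ≠ 0 → ∀ X Y : YObj k,
    (∀ (σ : Finset GW) (φ : X.G.V →ₗ[LL k] Y.G.V),
      (∀ i j, YObj.mat φ i j ∈ HD k (fun s => Y.tw i s - X.tw j s) ∧ YObj.mat φ i j ∈ Dn k (fs k σ)) →
      av X Y φ ∈ X.H Y σ) ∧
    (∀ (n : ℤ) (φ : X.G.V →ₗ[LL k] Y.G.V), IsDeg (X := X.G) (Y := Y.G) n φ →
      IsDeg (X := X.G) (Y := Y.G) n (av X Y φ)) ∧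
    (∀ φ ψ : X.G.V →ₗ[LL k] Y.G.V, av X Y (φ + ψ) = av X Y φ + av X Y ψ) ∧
    (∀ (c : ℤ) (φ : X.G.V →ₗ[LL k] Y.G.V), av X Y (c • φ) = c • av X Y φ) ∧
    (∀ (σ : Finset GW) (φ : X.G.V →ₗ[LL k] Y.G.V), φ ∈ X.H Y σ → av X Y φ = φ) ∧
    (∀ (W : YObj k) (σ : Finset GW) (φ : X.G.V →ₗ[LL k] Y.G.V) (ψ : Y.G.V →ₗ[LL k] W.G.V),
      ψ ∈ Y.H W σ → av X W (ψ ∘ₗ φ) = ψ ∘ₗ av X Y φ) ∧
    (∀ (W : YObj k) (σ : Finset GW) (φ : X.G.V →ₗ[LL k] Y.G.V) (ψ : W.G.V →ₗ[LL k] X.G.V),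
      ψ ∈ W.H X σ → av W Y (φ ∘ₗ ψ) = av X Y φ ∘ₗ ψ)

/-- the embedding of the generator in its resolution -/
def epsY (k : Type u) [Field k] : Matrix (QY k).J (EY k).J (LL k) :=
  (((qeps (al k (X (0, false))) (al k (X (0, true)))) ⊗ₖ
    (qeps (al k (X (1, false))) (al k (X (1, true))))) ⊗ₖ
    (qeps (al k (X (2, false))) (al k (X (2, true))))) ⊗ₖ
    (qeps (al k (X (3, false))) (al k (X (3, true))))

/-- D4d: the resolution of the generator is a local homotopy equivalence in the local system -/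
def HEqQ : Prop :=
  ∀ (k : Type u) [Field k] [IsAlgClosed k], (2 : k) ≠ 0 →
    LocHEq (ysys k) (EY k) (QY k) (YObj.lin (X := EY k) (Y := QY k) (epsY k))

/-- D6: scalar Cech complexes: no cohomology of `O(d)`, `d_s ≥ -1`, in the augmented Cech complex -/
def CechEx : Prop :=
  ∀ (k : Type u) [Field k], (2 : k) ≠ 0 → ∀ d : Fin 4 → ℤ, (∀ s, -1 ≤ d s) →
    ∀ c : Finset GW → LL k, (∀ σ, c σ ∈ HD k d ∧ c σ ∈ Dn k (fs k σ)) → (∀ σ, cdel c σ = 0) →
      ∃ b : Finset GW → LL k, (∀ σ, b σ ∈ HD k d ∧ b σ ∈ Dn k (fs k σ)) ∧ ∀ σ, cdel b σ = c σ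

/-- D6: forms in `x_s, y_s` of large degree belong to the ideal of `a_s ^ N, b_s ^ N` -/
def BigDeg : Prop :=
  ∀ (k : Type u) [Field k], (2 : k) ≠ 0 → ∀ (s : Fin 4) (N : ℕ) (g : SS k) (f : Fin 4 → ℕ),
    IsWeightedHomogeneous wt g f → 8 * N ≤ f s + 1 → 1 ≤ N →
    ∃ (p q : SS k) (e : Fin 4 → ℕ), f = e + Pi.single s (4 * N) ∧ IsWeightedHomogeneous wt p e ∧
      IsWeightedHomogeneous wt q e ∧ g = p * lt k s 0 ^ N + q * lt k s 1 ^ N

/-- D7: matrix valued augmented Cech complexes of the resolution -/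
def QYEx : Prop :=
  ∀ (k : Type u) [Field k], (2 : k) ≠ 0 →
    ∀ (m : ℤ) (c : Finset GW → ((QY k).G.V →ₗ[LL k] (QY k).G.V)),
      (∀ σ, c σ ∈ (QY k).H (QY k) σ ∧ IsDeg (X := (QY k).G) (Y := (QY k).G) m (c σ)) →
      (∀ σ, cdel c σ = 0) → ∃ b : Finset GW → ((QY k).G.V →ₗ[LL k] (QY k).G.V),
        (∀ σ, b σ ∈ (QY k).H (QY k) σ ∧ IsDeg (X := (QY k).G) (Y := (QY k).G) m (b σ)) ∧
        ∀ σ, cdel b σ = c σ

/-- D8: the DG algebra of global endomorphisms of the resolution is finite-dimensional -/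
def QYFin : Prop := ∀ (k : Type u) [Field k], ((ysys k).glob (QY k)).Fin

/-- D9: all line bundles are in the thick closure of the generator -/
def Koszul : Prop :=
  ∀ (k : Type u) [Field k], (2 : k) ≠ 0 → ∀ (hU : UU k) (d : Fin 4 → ℤ),
    Thick (EZ k hU) (ZL k hU (Fin 1) (fun _ => d))

/-- D10: powers of the hyperplane bundle are among these line bundles -/
def HypLine : Prop :=
  ∀ (k : Type u) [Field k], (2 : k) ≠ 0 → ∀ (hU : UU k) (N R : ℕ),
    (ZZ k).perf.Retract ((ZZ k).ON N R) (ZL k hU (Fin R) (fun _ _ => -(N : ℤ)))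

/-- D11: the function field is not rational -/
def NonRat : Prop :=
  ∀ (k : Type u) [Field k] [IsAlgClosed k], (2 : k) ≠ 0 → ¬ IsRationalField k (K0 k)

end

end Pool.Agent.Helper17.RZ
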