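import Pool.Agent.Helper17.RZ.YObj

/-!
# Project RZ (MP_77656e_ag): tensor products and the factors
-/

set_option autoImplicit false
set_option linter.unusedSimpArgs false

open MvPolynomial
open scoped Kronecker

namespace Pool.Agent.Helper17.RZ

universe u v

noncomputable section

variable {k : Type u} [Field k]

theorem sgn_add (m n : ℤ) : sgn k (m + n) = sgn k m * sgn k n := by
  unfold sgn; rw [Int.negOnePow_add]; push_cast; ring

theorem sgn_mul_self (m : ℤ) : sgn k m * sgn k m = 1 := by
  unfold sgn
  rw [← Int.cast_mul, negOnePow_mul_self, Int.cast_one]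

theorem sgn_succ (m : ℤ) : sgn k (m + 1) = - sgn k m := by
  unfold sgn; rw [Int.negOnePow_succ]; simp

/-- the matrix of parities over the polynomial ring -/
def pm (X : YObj k) : Matrix X.J X.J (SS k) := Matrix.diagonal fun j => C (sgn k (X.gr j))

theorem dm_pm (X : YObj k) : X.dm * pm X = - (pm X * X.dm) := by
  ext i j
  rw [pm, Matrix.mul_diagonal, Matrix.neg_apply, Matrix.diagonal_mul]
  by_cases h : X.dm i j = 0
  · simp [h]
  · rw [X.dm_gr i j h, sgn_succ, map_neg, neg_mul, neg_neg, mul_comm]

theorem pm_pm (X : YObj k) : pm X * pm X = 1 := by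
  rw [pm, Matrix.diagonal_mul_diagonal]
  simp only [← map_mul, sgn_mul_self, map_one, Matrix.diagonal_one]

/-- the tensor product of two objects -/
def YObj.tens (X Y : YObj k) : YObj k where
  J := X.J × Y.J
  gr p := X.gr p.1 + Y.gr p.2
  tw p := X.tw p.1 + Y.tw p.2
  dm := X.dm ⊗ₖ (1 : Matrix Y.J Y.J (SS k)) + pm X ⊗ₖ Y.dm
  dm_gr := by
    rintro ⟨i, i'⟩ ⟨j, j'⟩ h
    rw [Matrix.add_apply, Matrix.kronecker_apply, Matrix.kronecker_apply] at h
    dsimp only at h ⊢
    by_cases h1 : X.dm i j * (1 : Matrix Y.J Y.J (SS k)) i' j' = 0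
    · rw [h1, zero_add] at h
      have h2 : pm X i j ≠ 0 := left_ne_zero_of_mul h
      have h3 : Y.dm i' j' ≠ 0 := right_ne_zero_of_mul h
      have h4 : i = j := by
        by_contra hne
        exact h2 (by rw [pm, Matrix.diagonal_apply_ne _ hne])
      rw [h4, Y.dm_gr i' j' h3]; ring
    · have h2 : X.dm i j ≠ 0 := left_ne_zero_of_mul h1
      have h3 : (1 : Matrix Y.J Y.J (SS k)) i' j' ≠ 0 := right_ne_zero_of_mul h1
      have h4 : i' = j' := by
        by_contra hne
        exact h3 (Matrix.one_apply_ne hne)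
      rw [h4, X.dm_gr i j h2]; ring
  dm_hom := by
    rintro ⟨i, i'⟩ ⟨j, j'⟩
    rw [Matrix.add_apply, Matrix.kronecker_apply, Matrix.kronecker_apply, map_add, map_mul, map_mul]
    dsimp only
    refine Submodule.add_mem _ ?_ ?_
    · by_cases h : i' = j'
      · subst h
        rw [Matrix.one_apply_eq, map_one, mul_one]
        have := X.dm_hom i j
        have h3 : (fun s => (X.tw i + Y.tw i') s - (X.tw j + Y.tw i') s) = fun s => X.tw i s - X.tw j s := by
          funext s; simp only [Pi.add_apply]; ring
        rw [h3]; exact this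
      · rw [Matrix.one_apply_ne h, map_zero, mul_zero]; exact Submodule.zero_mem _
    · by_cases h : i = j
      · subst h
        rw [pm, Matrix.diagonal_apply_eq]
        have := Y.dm_hom i' j'
        have h3 : (fun s => (X.tw i + Y.tw i') s - (X.tw i + Y.tw j') s) = fun s => Y.tw i' s - Y.tw j' s := by
          funext s; simp only [Pi.add_apply]; ring
        rw [h3, ← algebraMap_eq, ← IsScalarTower.algebraMap_apply k (SS k) (LL k), ← Algebra.smul_def]
        exact Submodule.smul_mem _ _ this
      · rw [pm, Matrix.diagonal_apply_ne _ h, map_zero, zero_mul]; exact Submodule.zero_mem _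
  dm_sq := by
    rw [Matrix.add_mul, Matrix.mul_add, Matrix.mul_add, ← Matrix.mul_kronecker_mul,
      ← Matrix.mul_kronecker_mul, ← Matrix.mul_kronecker_mul, ← Matrix.mul_kronecker_mul, X.dm_sq,
      Y.dm_sq, dm_pm, Matrix.one_mul, Matrix.mul_one, Matrix.kronecker_zero, Matrix.zero_kronecker]
    ext p q
    rw [Matrix.add_apply, Matrix.add_apply, Matrix.add_apply, Matrix.kronecker_apply,
      Matrix.kronecker_apply, Matrix.neg_apply, Matrix.zero_apply]
    simp only [Matrix.one_mul, Matrix.mul_one, Matrix.zero_apply]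
    ring
  rho a := X.rho a ⊗ₖ Y.rho a
  rho_gr := by
    rintro a ⟨i, i'⟩ ⟨j, j'⟩ h
    rw [Matrix.kronecker_apply] at h
    dsimp only at h ⊢
    have h2 := X.rho_gr a i j (left_ne_zero_of_mul h)
    have h3 := Y.rho_gr a i' j' (right_ne_zero_of_mul h)
    rw [h2.1, h3.1, h2.2, h3.2]; exact ⟨rfl, rfl⟩
  rho_sq := by
    intro a
    rw [← Matrix.mul_kronecker_mul, X.rho_sq, Y.rho_sq, Matrix.diagonal_kronecker_diagonal]
    congr 1
    funext p
    rw [← Finset.prod_mul_distrib]
    exact Finset.prod_congr rfl fun s _ => by rw [Pi.add_apply, sgn_add]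
  rho_comm := by
    intro a b
    rw [← Matrix.mul_kronecker_mul, X.rho_comm, Y.rho_comm, Matrix.mul_kronecker_mul,
      Matrix.diagonal_kronecker_diagonal, Matrix.mul_kronecker_mul]
    congr 1
    congr 1
    funext p
    rw [← Finset.prod_mul_distrib]
    exact Finset.prod_congr rfl fun s _ => by rw [Pi.add_apply, sgn_add]
  dm_eqv := by
    intro a
    have h1 : (X.rho a ⊗ₖ Y.rho a).map (C : k → SS k) = (X.rho a).map C ⊗ₖ (Y.rho a).map C := by
      ext ⟨i, i'⟩ ⟨j, j'⟩; simp
    have h2 : (X.dm ⊗ₖ (1 : Matrix Y.J Y.J (SS k)) + pm X ⊗ₖ Y.dm).map (sb k (code a)) =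
        (X.dm.map (sb k (code a))) ⊗ₖ (1 : Matrix Y.J Y.J (SS k)) + pm X ⊗ₖ (Y.dm.map (sb k (code a))) := by
      ext ⟨i, i'⟩ ⟨j, j'⟩
      simp only [Matrix.map_apply, Matrix.add_apply, Matrix.kronecker_apply, map_add, map_mul]
      congr 2
      · rw [Matrix.one_apply]; split <;> simp
      · rw [pm, Matrix.diagonal_apply]; split
        · rw [← algebraMap_eq, AlgHom.commutes]
        · simp
    have h3 : (X.rho a).map C * pm X = pm X * (X.rho a).map (C : k → SS k) := by
      ext i j
      rw [pm, Matrix.mul_diagonal, Matrix.diagonal_mul, Matrix.map_apply]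
      by_cases h : X.rho a i j = 0
      · simp [h]
      · rw [(X.rho_gr a i j h).1, mul_comm]
    rw [h1, h2, Matrix.mul_add, Matrix.add_mul, ← Matrix.mul_kronecker_mul, ← Matrix.mul_kronecker_mul,
      ← Matrix.mul_kronecker_mul, ← Matrix.mul_kronecker_mul, X.dm_eqv, Y.dm_eqv, h3, Matrix.one_mul,
      Matrix.mul_one]


/-- the factor `S ⊕ S(-4)` in the coordinate `s` -/
def EF (k : Type u) [Field k] (s : Fin 4) : YObj k where
  J := Bool
  gr _ := 0
  tw b := if b then Pi.single s (-4) else 0
  dm := 0
  dm_gr i j h := absurd rfl h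
  dm_hom i j := by rw [Matrix.zero_apply, map_zero]; exact Submodule.zero_mem _
  dm_sq := by simp
  rho _ := 1
  rho_gr a i j h := by
    have : i = j := by
      by_contra hne
      exact h (Matrix.one_apply_ne hne)
    rw [this]; exact ⟨rfl, rfl⟩
  rho_sq a := by
    rw [Matrix.one_mul, ← Matrix.diagonal_one]
    congr 1
    funext b
    symm
    apply Finset.prod_eq_one
    intro t _
    cases b
    · simp [sgn]
    · by_cases h : t = s
      · subst h
        simp only [if_true, Pi.single_eq_same]
        unfold sgn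
        have : ((-4 : ℤ).negOnePow : ℤˣ) = 1 := by
          rw [Int.negOnePow_even]; exact ⟨-2, by norm_num⟩
        rw [this]; simp
      · simp [Pi.single_eq_of_ne h, sgn]
  rho_comm a b := by
    rw [Matrix.one_mul, Matrix.mul_one, ← Matrix.diagonal_one]
    congr 1
    funext b
    symm
    apply Finset.prod_eq_one
    intro t _
    cases b
    · simp [sgn]
    · by_cases h : t = s
      · subst h
        simp only [if_true, Pi.single_eq_same]
        unfold sgn
        have : ((-4 : ℤ).negOnePow : ℤˣ) = 1 := by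
          rw [Int.negOnePow_even]; exact ⟨-2, by norm_num⟩
        rw [this]; simp
      · simp [Pi.single_eq_of_ne h, sgn]
  dm_eqv a := by
    have : (0 : Matrix Bool Bool (SS k)).map (sb k (code a)) = 0 := by ext; simp
    rw [this, Matrix.mul_zero, Matrix.zero_mul]

/-- degrees of the generators of the factor `S ⊕ (S(-1)^4 → S^3)` -/
def qgr : Fin 8 → ℤ := ![0, 0, 0, 0, 0, 1, 1, 1]

/-- twists of the generators of the factor `S ⊕ (S(-1)^4 → S^3)` -/
def qtw : Fin 8 → ℤ := ![0, -1, -1, -1, -1, 0, 0, 0]

/-- the linear substitutions on the generators of the factor `S ⊕ (S(-1)^4 → S^3)` -/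
def qrho : Bool × Bool → Matrix (Fin 8) (Fin 8) ℤ
  | (false, false) => 1
  | (true, false) =>
    !![1, 0, 0, 0, 0, 0, 0, 0;
       0, 0, 0, 0, 1, 0, 0, 0;
       0, 0, 0, 1, 0, 0, 0, 0;
       0, 0, 1, 0, 0, 0, 0, 0;
       0, 1, 0, 0, 0, 0, 0, 0;
       0, 0, 0, 0, 0, 0, 0, -1;
       0, 0, 0, 0, 0, 0, -1, 0;
       0, 0, 0, 0, 0, -1, 0, 0]
  | (false, true) =>
    !![1, 0, 0, 0, 0, 0, 0, 0;
       0, 1, 0, 0, 0, 0, 0, 0;
       0, 0, -1, 0, 0, 0, 0, 0;
       0, 0, 0, 1, 0, 0, 0, 0;
       0, 0, 0, 0, -1, 0, 0, 0;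
       0, 0, 0, 0, 0, -1, 0, 0;
       0, 0, 0, 0, 0, 0, 1, 0;
       0, 0, 0, 0, 0, 0, 0, -1]
  | (true, true) =>
    !![1, 0, 0, 0, 0, 0, 0, 0;
       0, 0, 0, 0, 1, 0, 0, 0;
       0, 0, 0, -1, 0, 0, 0, 0;
       0, 0, 1, 0, 0, 0, 0, 0;
       0, -1, 0, 0, 0, 0, 0, 0;
       0, 0, 0, 0, 0, 0, 0, 1;
       0, 0, 0, 0, 0, 0, -1, 0;
       0, 0, 0, 0, 0, 1, 0, 0]

/-- the differential of the factor `S ⊕ (S(-1)^4 → S^3)` in the variables `x, y` -/
def qdm {R : Type u} [CommRing R] (x y : R) : Matrix (Fin 8) (Fin 8) R :=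
    !![0, 0, 0, 0, 0, 0, 0, 0;
       0, 0, 0, 0, 0, 0, 0, 0;
       0, 0, 0, 0, 0, 0, 0, 0;
       0, 0, 0, 0, 0, 0, 0, 0;
       0, 0, 0, 0, 0, 0, 0, 0;
       0, -y, x, 0, 0, 0, 0, 0;
       0, 0, -y, x, 0, 0, 0, 0;
       0, 0, 0, -y, x, 0, 0, 0]

/-- the embedding `S ⊕ S(-4) → S ⊕ S(-1)^4` in the variables `x, y` -/
def qeps {R : Type u} [CommRing R] (x y : R) : Matrix (Fin 8) Bool R :=
  Matrix.of fun i b => if b then ![0, x ^ 3, x ^ 2 * y, x * y ^ 2, y ^ 3, 0, 0, 0] i
    else ![1, 0, 0, 0, 0, 0, 0, 0] i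

theorem qrho_sq (e : Bool × Bool) : qrho e * qrho e =
    Matrix.diagonal (fun j => if e = (true, true) then (((qtw j).negOnePow : ℤˣ) : ℤ) else 1) := by
  revert e; decide

theorem qrho_comm (e e' : Bool × Bool) : qrho e * qrho e' =
    Matrix.diagonal (fun j => if e ≠ e' ∧ e ≠ (false, false) ∧ e' ≠ (false, false)
      then (((qtw j).negOnePow : ℤˣ) : ℤ) else 1) * (qrho e' * qrho e) := by
  revert e e'; decide

theorem qrho_gr (e : Bool × Bool) (i j : Fin 8) : qrho e i j ≠ 0 → qgr i = qgr j ∧ qtw i = qtw j := by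
  revert e i j; decide

theorem qdm_cases {R : Type u} [CommRing R] (x y : R) (i j : Fin 8) : qdm x y i j = 0 ∨
    ((qdm x y i j = x ∨ qdm x y i j = -y) ∧ qtw i = qtw j + 1 ∧ qgr i = qgr j + 1) := by
  fin_cases i <;> fin_cases j <;> simp [qdm, qtw, qgr]

theorem qdm_sq {R : Type u} [CommRing R] (x y : R) : qdm x y * qdm x y = 0 := by
  ext i j
  fin_cases i <;> fin_cases j <;> simp [qdm, Matrix.mul_apply, Fin.sum_univ_succ]

theorem qdm_eqv {R : Type u} [CommRing R] (x y : R) (e : Bool × Bool) :
    (qrho e).map (Int.cast : ℤ → R) * qdm (match e with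
      | (false, false) => x
      | (true, false) => y
      | (false, true) => x
      | (true, true) => -y) (match e with
      | (false, false) => y
      | (true, false) => x
      | (false, true) => -y
      | (true, true) => x) = qdm x y * (qrho e).map (Int.cast : ℤ → R) := by
  by_cases he : e = (false, false)
  · subst he
    have : (qrho (false, false)).map (Int.cast : ℤ → R) = 1 := by simp [qrho]
    rw [this, Matrix.one_mul, Matrix.mul_one]
  rcases e with ⟨a, b⟩
  cases a <;> cases b
  · exact absurd rfl he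
  all_goals
    ext i j
    fin_cases i <;> fin_cases j <;> simp [qdm, qrho, Matrix.mul_apply, Fin.sum_univ_succ]

theorem qeps_eqv {R : Type u} [CommRing R] (x y : R) (e : Bool × Bool) :
    (qrho e).map (Int.cast : ℤ → R) * qeps (match e with
      | (false, false) => x
      | (true, false) => y
      | (false, true) => x
      | (true, true) => -y) (match e with
      | (false, false) => y
      | (true, false) => x
      | (false, true) => -y
      | (true, true) => x) = qeps x y := by
  by_cases he : e = (false, false)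
  · subst he
    have : (qrho (false, false)).map (Int.cast : ℤ → R) = 1 := by simp [qrho]
    rw [this, Matrix.one_mul]
  rcases e with ⟨a, b⟩
  cases a <;> cases b
  · exact absurd rfl he
  all_goals
    ext i j
    fin_cases i <;> cases j <;> simp [qeps, qrho, Matrix.mul_apply, Fin.sum_univ_succ] <;> ring

theorem qdm_qeps {R : Type u} [CommRing R] (x y : R) : qdm x y * qeps x y = 0 := by
  ext i j
  fin_cases i <;> cases j <;> simp [qdm, qeps, Matrix.mul_apply, Fin.sum_univ_succ] <;> ring

theorem X_mem_HD (s : Fin 4) (j : Bool) :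
    algebraMap (SS k) (LL k) (X (s, j)) ∈ HD k (Pi.single s 1 : Fin 4 → ℤ) := by
  refine ⟨X (s, j), 1, wt (s, j), 0, one_ne_zero, isWeightedHomogeneous_X k wt (s, j),
    isWeightedHomogeneous_one k wt, ?_, by simp⟩
  intro t
  simp only [wt, Pi.zero_apply, Nat.cast_zero, sub_zero]
  by_cases h : t = s
  · subst h; simp
  · simp [Pi.single_eq_of_ne h]

theorem sb_x (e : Fin 4 → Bool × Bool) (s : Fin 4) : sb k e (X (s, false)) = (match e s with
      | (false, false) => X (s, false)
      | (true, false) => X (s, true)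
      | (false, true) => X (s, false)
      | (true, true) => -X (s, true)) := by
  rw [sb_X]
  rcases e s with ⟨a, b⟩
  cases a <;> cases b <;> simp

theorem sb_y (e : Fin 4 → Bool × Bool) (s : Fin 4) : sb k e (X (s, true)) = (match e s with
      | (false, false) => X (s, true)
      | (true, false) => X (s, false)
      | (false, true) => -X (s, true)
      | (true, true) => X (s, false)) := by
  rw [sb_X]
  rcases e s with ⟨a, b⟩
  cases a <;> cases b <;> simp

/-- the factor `S ⊕ (S(-1)^4 → S^3)` in the coordinate `s` -/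
def QF (k : Type u) [Field k] (s : Fin 4) : YObj k where
  J := Fin 8
  gr := qgr
  tw j := Pi.single s (qtw j)
  dm := qdm (X (s, false)) (X (s, true))
  dm_gr i j h := by
    rcases qdm_cases (X (s, false) : SS k) (X (s, true)) i j with h' | h'
    · exact absurd h' h
    · exact h'.2.2
  dm_hom i j := by
    rcases qdm_cases (X (s, false) : SS k) (X (s, true)) i j with h' | ⟨h', h'', _⟩
    · rw [h', map_zero]; exact Submodule.zero_mem _
    · have h1 : (fun t => (Pi.single s (qtw i) : Fin 4 → ℤ) t - (Pi.single s (qtw j) : Fin 4 → ℤ) t) =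
          (Pi.single s 1 : Fin 4 → ℤ) := by
        funext t
        by_cases h : t = s
        · subst h; simp only [Pi.single_eq_same]; omega
        · simp [Pi.single_eq_of_ne h]
      rw [h1]
      rcases h' with h' | h' <;> rw [h']
      · exact X_mem_HD s false
      · rw [map_neg]; exact Submodule.neg_mem _ (X_mem_HD s true)
  dm_sq := qdm_sq _ _
  rho a := (qrho (code a s)).map (Int.cast : ℤ → k)
  rho_gr a i j h := by
    have h1 : qrho (code a s) i j ≠ 0 := by
      intro h0
      apply h
      rw [Matrix.map_apply, h0, Int.cast_zero]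
    have h2 := qrho_gr (code a s) i j h1
    rw [h2.2]; exact ⟨h2.1, rfl⟩
  rho_sq a := by
    have h1 := congrArg (fun M : Matrix (Fin 8) (Fin 8) ℤ => M.map (Int.castRingHom k)) (qrho_sq (code a s))
    simp only [Matrix.map_mul] at h1
    refine h1.trans ?_
    rw [Matrix.diagonal_map (map_zero _)]
    congr 1
    funext j
    rw [← Finset.prod_filter_mul_prod_filter_not (kap a) (fun t => t = s)]
    have h2 : ∏ t ∈ (kap a).filter (fun t => ¬ t = s), sgn k ((Pi.single s (qtw j) : Fin 4 → ℤ) t) = 1 := by
      apply Finset.prod_eq_one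
      intro t ht
      rw [Finset.mem_filter] at ht
      rw [Pi.single_eq_of_ne ht.2]; simp [sgn]
    rw [h2, mul_one]
    by_cases h : code a s = (true, true)
    · have h3 : (kap a).filter (fun t => t = s) = {s} := by
        ext t; simp only [Finset.mem_filter, kap, Finset.mem_univ, true_and, Finset.mem_singleton]
        constructor
        · exact fun h => h.2
        · rintro rfl; exact ⟨h, rfl⟩
      rw [h3, Finset.prod_singleton, Pi.single_eq_same]
      simp [h, sgn]
    · have h3 : (kap a).filter (fun t => t = s) = ∅ := by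
        ext t; simp only [Finset.mem_filter, kap, Finset.mem_univ, true_and]
        constructor
        · rintro ⟨h4, rfl⟩; exact absurd h4 h
        · intro h; simp at h
      rw [h3, Finset.prod_empty]
      simp [h]
  rho_comm a b := by
    have h1 := congrArg (fun M : Matrix (Fin 8) (Fin 8) ℤ => M.map (Int.castRingHom k))
      (qrho_comm (code a s) (code b s))
    simp only [Matrix.map_mul] at h1
    refine h1.trans ?_
    rw [Matrix.diagonal_map (map_zero _)]
    refine congrArg₂ _ ?_ rfl
    congr 1
    funext j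
    rw [← Finset.prod_filter_mul_prod_filter_not (ant a b) (fun t => t = s)]
    have h2 : ∏ t ∈ (ant a b).filter (fun t => ¬ t = s), sgn k ((Pi.single s (qtw j) : Fin 4 → ℤ) t) = 1 := by
      apply Finset.prod_eq_one
      intro t ht
      rw [Finset.mem_filter] at ht
      rw [Pi.single_eq_of_ne ht.2]; simp [sgn]
    rw [h2, mul_one]
    by_cases h : code a s ≠ code b s ∧ code a s ≠ (false, false) ∧ code b s ≠ (false, false)
    · have h3 : (ant a b).filter (fun t => t = s) = {s} := by
        ext t; simp only [Finset.mem_filter, ant, Finset.mem_univ, true_and, Finset.mem_singleton]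
        constructor
        · exact fun h => h.2
        · rintro rfl; exact ⟨h, rfl⟩
      rw [h3, Finset.prod_singleton, Pi.single_eq_same, if_pos h]
      simp [sgn]
    · have h3 : (ant a b).filter (fun t => t = s) = ∅ := by
        ext t; simp only [Finset.mem_filter, ant, Finset.mem_univ, true_and]
        constructor
        · rintro ⟨h4, rfl⟩; exact absurd h4 h
        · intro h; simp at h
      rw [h3, Finset.prod_empty, if_neg h]
      simp
  dm_eqv a := by
    have h1 := qdm_eqv (X (s, false) : SS k) (X (s, true)) (code a s)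
    have h2 : ((qrho (code a s)).map (Int.cast : ℤ → k)).map (C : k → SS k) =
        (qrho (code a s)).map (Int.cast : ℤ → SS k) := by
      ext i j; simp
    have h3 : (qdm (X (s, false) : SS k) (X (s, true))).map (sb k (code a)) =
        qdm (sb k (code a) (X (s, false))) (sb k (code a) (X (s, true))) := by
      ext i j
      fin_cases i <;> fin_cases j <;> simp [qdm]
    rw [h2, h3, sb_x, sb_y]
    exact h1

/-- the pullback to the product of lines of the generator of the quotient -/
def EY (k : Type u) [Field k] : YObj k := (((EF k 0).tens (EF k 1)).tens (EF k 2)).tens (EF k 3)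

/-- its resolution by sums of `O(d)`, `d ∈ {-1, 0}^4` -/
def QY (k : Type u) [Field k] : YObj k := (((QF k 0).tens (QF k 1)).tens (QF k 2)).tens (QF k 3)

end

end Pool.Agent.Helper17.RZ
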