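import Pool.Agent.Helper17.RZ.Act

/-!
# Project RZ (MP_77656e_ag): complexes of equivariant sums of line bundles on the product of four lines

An object is a finite set `J` of generators; the generator `j` spans a free module `S(tw j)` placed in
degree `gr j`; the differential is the matrix `dm` with entries in `S`; the four generators of the group
act by the matrices `rho a` with entries in `k` (combined with the action on the functions).
-/

set_option autoImplicit false

open MvPolynomial

namespace Pool.Agent.Helper17.RZ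

universe u v

noncomputable section

/-- the factors on which the substitution `a` is `z ↦ -1/z` -/
def kap (a : Fin 4) : Finset (Fin 4) := Finset.univ.filter fun s => code a s = (true, true)

/-- the factors on which the linear substitutions `a` and `b` anticommute -/
def ant (a b : Fin 4) : Finset (Fin 4) :=
  Finset.univ.filter fun s => code a s ≠ code b s ∧ code a s ≠ (false, false) ∧ code b s ≠ (false, false)

/-- the sign `(-1)^n` in `k` -/
def sgn (k : Type u) [Field k] (n : ℤ) : k := (((n.negOnePow : ℤˣ) : ℤ) : k)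

/-- An equivariant complex of sums of line bundles. -/
structure YObj (k : Type u) [Field k] where
  J : Type
  [fin : Fintype J]
  [dec : DecidableEq J]
  gr : J → ℤ
  tw : J → Fin 4 → ℤ
  dm : Matrix J J (SS k)
  dm_gr : ∀ i j, dm i j ≠ 0 → gr i = gr j + 1
  dm_hom : ∀ i j, algebraMap (SS k) (LL k) (dm i j) ∈ HD k (fun s => tw i s - tw j s)
  dm_sq : dm * dm = 0
  rho : Fin 4 → Matrix J J k
  rho_gr : ∀ a i j, rho a i j ≠ 0 → gr i = gr j ∧ tw i = tw j
  rho_sq : ∀ a, rho a * rho a = Matrix.diagonal (fun j => ∏ s ∈ kap a, sgn k (tw j s))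
  rho_comm : ∀ a b, rho a * rho b =
    Matrix.diagonal (fun j => ∏ s ∈ ant a b, sgn k (tw j s)) * (rho b * rho a)
  dm_eqv : ∀ a, (rho a).map C * dm.map (sb k (code a)) = dm * (rho a).map C

attribute [instance] YObj.fin YObj.dec

variable {k : Type u} [Field k]

/-- the underlying graded vector space with differential over the field of fractions -/
def YObj.G (X : YObj k) : GrD k (LL k) where
  V := X.J → LL k
  pr i := Matrix.toLin' (Matrix.diagonal fun j => if X.gr j = i then (1 : LL k) else 0)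
  bd := Finset.univ.sup fun j => (X.gr j).natAbs
  pr_pr i j := by
    rw [← Matrix.toLin'_mul, Matrix.diagonal_mul_diagonal]
    by_cases h : i = j
    · subst h
      rw [if_pos rfl]
      congr 2
      funext x
      split <;> simp
    · rw [if_neg h]
      have : (fun x => (if X.gr x = i then (1 : LL k) else 0) * if X.gr x = j then (1 : LL k) else 0) =
          fun _ => 0 := by
        funext x
        by_cases h1 : X.gr x = i
        · have : X.gr x ≠ j := fun h2 => h (h1.symm.trans h2)
          simp [this]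
        · simp [h1]
      rw [this]
      simp
  pr_bd i hi' := by
    have : (fun j => if X.gr j = i then (1 : LL k) else 0) = fun _ => 0 := by
      funext j
      rw [if_neg]
      rintro rfl
      have h1 : (X.gr j).natAbs ≤ Finset.univ.sup fun j => (X.gr j).natAbs :=
        Finset.le_sup (f := fun j => (X.gr j).natAbs) (Finset.mem_univ j)
      rw [← Int.natCast_natAbs] at hi'
      omega
    rw [this]
    simp
  pr_sum := by
    rw [← map_sum]
    have : (∑ i ∈ Finset.Icc (-((Finset.univ.sup fun j => (X.gr j).natAbs : ℕ) : ℤ))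
        (Finset.univ.sup fun j => (X.gr j).natAbs : ℕ),
        Matrix.diagonal fun j => if X.gr j = i then (1 : LL k) else 0) = (1 : Matrix X.J X.J (LL k)) := by
      ext a b
      rw [Matrix.sum_apply]
      by_cases hab : a = b
      · subst hab
        simp only [Matrix.diagonal_apply_eq, Matrix.one_apply_eq]
        rw [Finset.sum_ite_eq, if_pos]
        have h1 : (X.gr a).natAbs ≤ Finset.univ.sup fun j => (X.gr j).natAbs :=
          Finset.le_sup (f := fun j => (X.gr j).natAbs) (Finset.mem_univ a)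
        rw [Finset.mem_Icc]
        omega
      · simp [Matrix.diagonal_apply_ne _ hab, Matrix.one_apply_ne hab]
    rw [this, Matrix.toLin'_one]
  d := Matrix.toLin' (X.dm.map (algebraMap (SS k) (LL k)))
  d_pr i := by
    rw [← Matrix.toLin'_mul, ← Matrix.toLin'_mul]
    congr 1
    ext a b
    rw [Matrix.mul_diagonal, Matrix.diagonal_mul, Matrix.map_apply]
    by_cases h : X.dm a b = 0
    · simp [h]
    · have := X.dm_gr a b h
      by_cases h1 : X.gr b = i
      · rw [if_pos h1, if_pos (by omega)]; ring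
      · rw [if_neg h1, if_neg (by omega)]; ring
  d_d := by
    rw [← Matrix.toLin'_mul, ← Matrix.map_mul, X.dm_sq]
    simp

/-- the matrix of a linear map -/
def YObj.mat {X Y : YObj k} (φ : X.G.V →ₗ[LL k] Y.G.V) : Matrix Y.J X.J (LL k) :=
  fun i j => (φ (Pi.single j 1 : X.J → LL k) : Y.J → LL k) i

/-- the linear map of a matrix -/
def YObj.lin {X Y : YObj k} (M : Matrix Y.J X.J (LL k)) : X.G.V →ₗ[LL k] Y.G.V := Matrix.toLin' M

theorem YObj.mat_lin {X Y : YObj k} (M : Matrix Y.J X.J (LL k)) : YObj.mat (YObj.lin (X := X) (Y := Y) M) = M := by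
  ext i j
  change (Matrix.toLin' M) (Pi.single j 1) i = M i j
  simp

theorem lin_mat_aux {R : Type*} [CommRing R] {J J' : Type*} [Fintype J] [DecidableEq J]
    (φ : (J → R) →ₗ[R] (J' → R)) : Matrix.toLin' (Matrix.of fun i j => φ (Pi.single j 1) i) = φ := by
  apply LinearMap.pi_ext'
  intro j
  ext i
  simp

theorem YObj.lin_mat {X Y : YObj k} (φ : X.G.V →ₗ[LL k] Y.G.V) : YObj.lin (YObj.mat φ) = φ :=
  lin_mat_aux (R := LL k) (J := X.J) (J' := Y.J) φ

theorem YObj.mat_injective {X Y : YObj k} {φ ψ : X.G.V →ₗ[LL k] Y.G.V} (h : YObj.mat φ = YObj.mat ψ) : φ = ψ := by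
  rw [← YObj.lin_mat φ, ← YObj.lin_mat ψ, h]

theorem YObj.mat_add {X Y : YObj k} (φ ψ : X.G.V →ₗ[LL k] Y.G.V) :
    YObj.mat (φ + ψ) = YObj.mat φ + YObj.mat ψ := rfl

theorem YObj.mat_zero {X Y : YObj k} : YObj.mat (0 : X.G.V →ₗ[LL k] Y.G.V) = 0 := rfl

theorem YObj.mat_neg {X Y : YObj k} (φ : X.G.V →ₗ[LL k] Y.G.V) : YObj.mat (-φ) = -YObj.mat φ := rfl

theorem YObj.mat_smul {X Y : YObj k} (c : k) (φ : X.G.V →ₗ[LL k] Y.G.V) :
    YObj.mat (c • φ) = c • YObj.mat φ := rfl

theorem YObj.mat_comp {X Y W : YObj k} (φ : Y.G.V →ₗ[LL k] W.G.V) (ψ : X.G.V →ₗ[LL k] Y.G.V) :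
    YObj.mat (φ ∘ₗ ψ) = YObj.mat φ * YObj.mat ψ := by
  have h : φ ∘ₗ ψ = YObj.lin (YObj.mat φ * YObj.mat ψ) := by
    conv_lhs => rw [← YObj.lin_mat φ, ← YObj.lin_mat ψ]
    exact (Matrix.toLin'_mul (YObj.mat φ) (YObj.mat ψ)).symm
  rw [h, YObj.mat_lin]

theorem YObj.mat_id {X : YObj k} : YObj.mat (LinearMap.id : X.G.V →ₗ[LL k] X.G.V) = 1 := by
  ext i j
  change (Pi.single j 1 : X.J → LL k) i = _
  rw [Matrix.one_apply]
  by_cases h : i = j
  · subst h; simp
  · rw [Pi.single_eq_of_ne h, if_neg h]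

theorem YObj.mat_d {X : YObj k} : YObj.mat X.G.d = X.dm.map (algebraMap (SS k) (LL k)) :=
  YObj.mat_lin (X := X) (Y := X) _

theorem YObj.mat_pr {X : YObj k} (i : ℤ) :
    YObj.mat (X.G.pr i) = Matrix.diagonal fun j => if X.gr j = i then (1 : LL k) else 0 :=
  YObj.mat_lin (X := X) (Y := X) _

/-- Morphisms over the chart `σ`: matrices with homogeneous entries (of the degree of the twists) with
denominators powers of `fs σ`, commuting with the group. -/
def YObj.H (X Y : YObj k) (σ : Finset GW) : Submodule k (X.G.V →ₗ[LL k] Y.G.V) where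
  carrier := {φ | (∀ i j, YObj.mat φ i j ∈ HD k (fun s => Y.tw i s - X.tw j s) ∧
      YObj.mat φ i j ∈ Dn k (fs k σ)) ∧
    ∀ a, (Y.rho a).map (algebraMap k (LL k)) * (YObj.mat φ).map (ga k a) =
      YObj.mat φ * (X.rho a).map (algebraMap k (LL k))}
  add_mem' := by
    rintro φ ψ ⟨h1, h2⟩ ⟨h1', h2'⟩
    refine ⟨fun i j => ?_, fun a => ?_⟩
    · rw [YObj.mat_add, Matrix.add_apply]
      exact ⟨(HD k _).add_mem (h1 i j).1 (h1' i j).1, (Dn k _).add_mem (h1 i j).2 (h1' i j).2⟩
    · rw [YObj.mat_add, Matrix.map_add _ (fun x y => map_add (ga k a) x y), Matrix.mul_add, Matrix.add_mul,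
        h2 a, h2' a]
  zero_mem' := by
    refine ⟨fun i j => ?_, fun a => ?_⟩
    · rw [YObj.mat_zero, Matrix.zero_apply]; exact ⟨(HD k _).zero_mem, (Dn k _).zero_mem⟩
    · rw [YObj.mat_zero, Matrix.map_zero _ (map_zero (ga k a)), Matrix.mul_zero, Matrix.zero_mul]
  smul_mem' := by
    rintro c φ ⟨h1, h2⟩
    refine ⟨fun i j => ?_, fun a => ?_⟩
    · rw [YObj.mat_smul, Matrix.smul_apply]
      exact ⟨(HD k _).smul_mem c (h1 i j).1, (Dn k _).smul_mem (h1 i j).2 c⟩
    · have h3 : (c • YObj.mat φ).map (ga k a) = c • (YObj.mat φ).map (ga k a) := by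
        ext i j; simp
      rw [YObj.mat_smul, h3, Matrix.mul_smul, Matrix.smul_mul, h2 a]

theorem HD_mul {d d' : Fin 4 → ℤ} {x y : LL k} (hx : x ∈ HD k d) (hy : y ∈ HD k d') :
    x * y ∈ HD k (fun s => d s + d' s) := by
  obtain ⟨g, h, e, e', hh, hg1, hh1, hd, rfl⟩ := hx
  obtain ⟨g', h', f, f', hh', hg1', hh1', hd', rfl⟩ := hy
  refine ⟨g * g', h * h', e + f, e' + f', mul_ne_zero hh hh', hg1.mul hg1', hh1.mul hh1', ?_, ?_⟩
  · intro s
    have h1 := hd s
    have h2 := hd' s
    simp only [Pi.add_apply]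
    push_cast
    omega
  · rw [map_mul, map_mul, div_mul_div_comm]

theorem HD_one : (1 : LL k) ∈ HD k (fun _ => 0) :=
  ⟨1, 1, 0, 0, one_ne_zero, isWeightedHomogeneous_one k wt, isWeightedHomogeneous_one k wt,
    fun s => by simp, by simp⟩

theorem fs_dvd {σ τ : Finset GW} (h : σ ⊆ τ) : fs k σ ∣ fs k τ := Finset.prod_dvd_prod_of_subset _ _ _ h

theorem Dn_mono {g h : SS k} (hgh : g ∣ h) : Dn k g ≤ Dn k h := by
  rintro x ⟨N, p, hp⟩
  obtain ⟨c, rfl⟩ := hgh
  refine ⟨N, p * c ^ N, ?_⟩
  rw [map_mul, mul_pow, ← mul_assoc, hp, map_mul, map_pow]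

/-- The local system of equivariant complexes. -/
def ysys (k : Type u) [Field k] : LocSys.{u, max 1 u} k (LL k) GW where
  Obj := YObj k
  G X := X.G
  H X Y σ := X.H Y σ
  mono X Y σ τ _ hστ := by
    rintro φ ⟨h1, h2⟩
    exact ⟨fun i j => ⟨(h1 i j).1, Dn_mono (fs_dvd hστ) (h1 i j).2⟩, h2⟩
  comp_mem X Y W σ φ ψ := by
    rintro ⟨h1, h2⟩ ⟨h1', h2'⟩
    refine ⟨fun i j => ?_, fun a => ?_⟩
    · rw [YObj.mat_comp, Matrix.mul_apply]
      constructor
      · refine Submodule.sum_mem _ fun l _ => ?_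
        have := HD_mul (h1 i l).1 (h1' l j).1
        have h3 : (fun s => W.tw i s - Y.tw l s + (Y.tw l s - X.tw j s)) = fun s => W.tw i s - X.tw j s := by
          funext s; ring
        rw [h3] at this; exact this
      · exact Subalgebra.sum_mem _ fun l _ => (Dn k _).mul_mem (h1 i l).2 (h1' l j).2
    · rw [YObj.mat_comp]
      have h3 : (YObj.mat φ * YObj.mat ψ).map (ga k a) = (YObj.mat φ).map (ga k a) * (YObj.mat ψ).map (ga k a) := by
        rw [Matrix.map_mul]
      rw [h3, ← Matrix.mul_assoc, h2 a, Matrix.mul_assoc, h2' a, Matrix.mul_assoc]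
  id_mem X σ := by
    refine ⟨fun i j => ?_, fun a => ?_⟩
    · rw [YObj.mat_id, Matrix.one_apply]
      split
      · rename_i h; subst h
        simp only [sub_self]
        exact ⟨HD_one, (Dn k _).one_mem⟩
      · exact ⟨(HD k _).zero_mem, (Dn k _).zero_mem⟩
    · rw [YObj.mat_id, Matrix.one_mul]
      have : (1 : Matrix X.J X.J (LL k)).map (ga k a) = 1 := Matrix.map_one _ (map_zero _) (map_one _)
      rw [this, Matrix.mul_one]
  pr_mem X σ n := by
    refine ⟨fun i j => ?_, fun a => ?_⟩
    · rw [YObj.mat_pr]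
      by_cases h : i = j
      · subst h
        rw [Matrix.diagonal_apply_eq]
        simp only [sub_self]
        split
        · exact ⟨HD_one, (Dn k _).one_mem⟩
        · exact ⟨(HD k _).zero_mem, (Dn k _).zero_mem⟩
      · rw [Matrix.diagonal_apply_ne _ h]
        exact ⟨(HD k _).zero_mem, (Dn k _).zero_mem⟩
    · rw [YObj.mat_pr]
      ext i j
      have h1 : ((Matrix.diagonal fun j => if X.gr j = n then (1 : LL k) else 0).map (ga k a)) =
          Matrix.diagonal fun j => if X.gr j = n then (1 : LL k) else 0 := by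
        ext i j
        rw [Matrix.map_apply]
        by_cases h : i = j
        · subst h; rw [Matrix.diagonal_apply_eq]; split <;> simp
        · rw [Matrix.diagonal_apply_ne _ h]; simp
      rw [h1, Matrix.mul_diagonal, Matrix.diagonal_mul, Matrix.map_apply]
      by_cases h : X.rho a i j = 0
      · simp [h]
      · rw [(X.rho_gr a i j h).1]; ring
  d_mem X σ := by
    refine ⟨fun i j => ?_, fun a => ?_⟩
    · rw [YObj.mat_d, Matrix.map_apply]
      exact ⟨X.dm_hom i j, 0, X.dm i j, by simp⟩
    · rw [YObj.mat_d]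
      have h := congrArg (fun M : Matrix X.J X.J (SS k) => M.map (algebraMap (SS k) (LL k))) (X.dm_eqv a)
      simp only [Matrix.map_mul] at h
      have h1 : ((X.rho a).map C).map (algebraMap (SS k) (LL k)) = (X.rho a).map (algebraMap k (LL k)) := by
        ext i j
        rw [Matrix.map_apply, Matrix.map_apply, Matrix.map_apply, ← algebraMap_eq,
          ← IsScalarTower.algebraMap_apply k (SS k) (LL k)]
      have h2 : (X.dm.map (sb k (code a))).map (algebraMap (SS k) (LL k)) =
          (X.dm.map (algebraMap (SS k) (LL k))).map (ga k a) := by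
        ext i j
        rw [Matrix.map_apply, Matrix.map_apply, Matrix.map_apply, Matrix.map_apply, ga_algebraMap]
      rw [h1, h2] at h
      exact h

end

end Pool.Agent.Helper17.RZ
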